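import Mathlib

set_option autoImplicit false

open Turing Turing.TM2 Turing.TM2.Stmt

namespace Pool.Agent.H90.Closed.Comp

/-! ### Composition of machines -/

section
variable (M N : FinTM2)

/-- Stack alphabets of the composed machine. -/
abbrev GG : M.K ⊕ (N.K ⊕ Unit) → Type
  | .inl k => M.Γ k
  | .inr (.inl k) => N.Γ k
  | .inr (.inr _) => N.Γ N.k₀

/-- Internal states of the composed machine. -/
abbrev SS : Type := M.σ × N.σ × Option (N.Γ N.k₀)

/-- Labels of the composed machine. -/
abbrev LA : Type := M.Λ ⊕ (Bool ⊕ N.Λ)

/-- Stacks of the composed machine. -/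
def stk (S : ∀ k, List (M.Γ k)) (T : ∀ k, List (N.Γ k)) (U : List (N.Γ N.k₀)) :
    ∀ k, List (GG M N k)
  | .inl k => S k
  | .inr (.inl k) => T k
  | .inr (.inr _) => U

variable {M N}

/-- Translation of the statements of the first machine. -/
def st1 : TM2.Stmt M.Γ M.Λ M.σ → TM2.Stmt (GG M N) (LA M N) (SS M N)
  | .push k f q => .push (Sum.inl k) (fun s => f s.1) (st1 q)
  | .peek k f q => .peek (Sum.inl k) (fun s o => (f s.1 o, s.2)) (st1 q)
  | .pop k f q => .pop (Sum.inl k) (fun s o => (f s.1 o, s.2)) (st1 q)
  | .load f q => .load (fun s => (f s.1, s.2)) (st1 q)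
  | .branch f q1 q2 => .branch (fun s => f s.1) (st1 q1) (st1 q2)
  | .goto f => .goto (fun s => Sum.inl (f s.1))
  | .halt => .goto (fun _ => Sum.inr (Sum.inl true))

/-- Translation of the statements of the second machine. -/
def st2 : TM2.Stmt N.Γ N.Λ N.σ → TM2.Stmt (GG M N) (LA M N) (SS M N)
  | .push k f q => .push (Sum.inr (Sum.inl k)) (fun s => f s.2.1) (st2 q)
  | .peek k f q => .peek (Sum.inr (Sum.inl k)) (fun s o => (s.1, f s.2.1 o, s.2.2)) (st2 q)
  | .pop k f q => .pop (Sum.inr (Sum.inl k)) (fun s o => (s.1, f s.2.1 o, s.2.2)) (st2 q)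
  | .load f q => .load (fun s => (s.1, f s.2.1, s.2.2)) (st2 q)
  | .branch f q1 q2 => .branch (fun s => f s.2.1) (st2 q1) (st2 q2)
  | .goto f => .goto (fun s => Sum.inr (Sum.inr (f s.2.1)))
  | .halt => .halt

theorem update_stk1 (S : ∀ k, List (M.Γ k)) (T : ∀ k, List (N.Γ k)) (U : List (N.Γ N.k₀))
    (k : M.K) (x : List (M.Γ k)) :
    Function.update (stk M N S T U) (Sum.inl k) x = stk M N (Function.update S k x) T U := by
  funext j
  rcases j with j | j | j
  · by_cases h : j = k
    · subst h
      simp [stk]
    · rw [Function.update_of_ne (by simpa using h)]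
      simp [stk, Function.update_of_ne h]
  · rw [Function.update_of_ne (by simp)]
    rfl
  · rw [Function.update_of_ne (by simp)]
    rfl

theorem update_stk2 (S : ∀ k, List (M.Γ k)) (T : ∀ k, List (N.Γ k)) (U : List (N.Γ N.k₀))
    (k : N.K) (x : List (N.Γ k)) :
    Function.update (stk M N S T U) (Sum.inr (Sum.inl k)) x =
      stk M N S (Function.update T k x) U := by
  funext j
  rcases j with j | j | j
  · rw [Function.update_of_ne (by simp)]
    rfl
  · by_cases h : j = k
    · subst h
      simp [stk]
    · rw [Function.update_of_ne (by simpa using h)]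
      simp [stk, Function.update_of_ne h]
  · rw [Function.update_of_ne (by simp)]
    rfl

theorem update_stk3 (S : ∀ k, List (M.Γ k)) (T : ∀ k, List (N.Γ k)) (U : List (N.Γ N.k₀))
    (u : Unit) (x : List (N.Γ N.k₀)) :
    Function.update (stk M N S T U) (Sum.inr (Sum.inr u)) x = stk M N S T x := by
  funext j
  rcases j with j | j | j
  · rw [Function.update_of_ne (by simp)]
    rfl
  · rw [Function.update_of_ne (by simp)]
    rfl
  · simp [stk]

/-- Configurations of the composed machine that correspond to those of the first machine. -/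
def cf1 (b : N.σ × Option (N.Γ N.k₀)) (T : ∀ k, List (N.Γ k)) (U : List (N.Γ N.k₀))
    (c : TM2.Cfg M.Γ M.Λ M.σ) : TM2.Cfg (GG M N) (LA M N) (SS M N) :=
  ⟨some (c.l.elim (Sum.inr (Sum.inl true)) Sum.inl), (c.var, b), stk M N c.stk T U⟩

/-- Configurations of the composed machine that correspond to those of the second machine. -/
def cf2 (a : M.σ) (o : Option (N.Γ N.k₀)) (S : ∀ k, List (M.Γ k)) (U : List (N.Γ N.k₀))
    (c : TM2.Cfg N.Γ N.Λ N.σ) : TM2.Cfg (GG M N) (LA M N) (SS M N) :=
  ⟨c.l.map fun l => Sum.inr (Sum.inr l), (a, c.var, o), stk M N S c.stk U⟩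

theorem stepAux_st1 (b : N.σ × Option (N.Γ N.k₀)) (T : ∀ k, List (N.Γ k)) (U : List (N.Γ N.k₀))
    (q : TM2.Stmt M.Γ M.Λ M.σ) : ∀ (v : M.σ) (S : ∀ k, List (M.Γ k)),
    stepAux (st1 q) (v, b) (stk M N S T U) = cf1 b T U (stepAux q v S) := by
  induction q with
  | push k f q ih =>
    intro v S
    simp only [st1, stepAux]
    rw [update_stk1, ih]
    rfl
  | peek k f q ih =>
    intro v S
    simp only [st1, stepAux]
    rw [ih]
    rfl
  | pop k f q ih =>
    intro v S
    simp only [st1, stepAux]
    rw [update_stk1, ih]
    rfl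
  | load f q ih =>
    intro v S
    simp only [st1, stepAux]
    rw [ih]
  | branch f q1 q2 ih1 ih2 =>
    intro v S
    simp only [st1, stepAux]
    cases f v
    · exact ih2 v S
    · exact ih1 v S
  | goto f =>
    intro v S
    rfl
  | halt =>
    intro v S
    rfl

theorem stepAux_st2 (a : M.σ) (o : Option (N.Γ N.k₀)) (S : ∀ k, List (M.Γ k))
    (U : List (N.Γ N.k₀)) (q : TM2.Stmt N.Γ N.Λ N.σ) : ∀ (v : N.σ) (T : ∀ k, List (N.Γ k)),
    stepAux (st2 q) (a, v, o) (stk M N S T U) = cf2 a o S U (stepAux q v T) := by
  induction q with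
  | push k f q ih =>
    intro v T
    simp only [st2, stepAux]
    rw [update_stk2, ih]
    rfl
  | peek k f q ih =>
    intro v T
    simp only [st2, stepAux]
    rw [ih]
    rfl
  | pop k f q ih =>
    intro v T
    simp only [st2, stepAux]
    rw [update_stk2, ih]
    rfl
  | load f q ih =>
    intro v T
    simp only [st2, stepAux]
    rw [ih]
  | branch f q1 q2 ih1 ih2 =>
    intro v T
    simp only [st2, stepAux]
    cases f v
    · exact ih2 v T
    · exact ih1 v T
  | goto f =>
    intro v T
    rfl
  | halt =>
    intro v T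
    rfl

variable (M N) in
open scoped Classical in
/-- The first statement of the transfer between the machines. -/
noncomputable def trA (e : M.Γ M.k₁ ≃ N.Γ N.k₀) : TM2.Stmt (GG M N) (LA M N) (SS M N) :=
  if h : Nonempty (N.Γ N.k₀) then
    .pop (Sum.inl M.k₁) (fun s o => (s.1, s.2.1, o.map e))
      (.branch (fun s => s.2.2.isSome)
        (.push (Sum.inr (Sum.inr ())) (fun s => (s.2.2.getD (Classical.choice h) : N.Γ N.k₀))
          (.load (fun s => (s.1, s.2.1, none)) (.goto fun _ => Sum.inr (Sum.inl true))))
        (.goto fun _ => Sum.inr (Sum.inl false)))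
  else .goto fun _ => Sum.inr (Sum.inl false)

variable (M N) in
open scoped Classical in
/-- The second statement of the transfer between the machines. -/
noncomputable def trB : TM2.Stmt (GG M N) (LA M N) (SS M N) :=
  if h : Nonempty (N.Γ N.k₀) then
    .pop (Sum.inr (Sum.inr ())) (fun s o => (s.1, s.2.1, o))
      (.branch (fun s => s.2.2.isSome)
        (.push (Sum.inr (Sum.inl N.k₀)) (fun s => (s.2.2.getD (Classical.choice h) : N.Γ N.k₀))
          (.load (fun s => (s.1, s.2.1, none)) (.goto fun _ => Sum.inr (Sum.inl false))))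
        (.goto fun _ => Sum.inr (Sum.inr N.main)))
  else .goto fun _ => Sum.inr (Sum.inr N.main)

variable (M N) in
/-- The statements of the composed machine. -/
noncomputable def prog (e : M.Γ M.k₁ ≃ N.Γ N.k₀) : LA M N → TM2.Stmt (GG M N) (LA M N) (SS M N)
  | .inl l => st1 (M.m l)
  | .inr (.inl true) => trA M N e
  | .inr (.inl false) => trB M N
  | .inr (.inr l) => st2 (N.m l)

/-- Iteration of the steps. -/
abbrev iter {C : Type} (f : C → Option C) (n : ℕ) (a : Option C) : Option C :=
  (flip bind f)^[n] a

theorem iter_none {C : Type} (f : C → Option C) (n : ℕ) : iter f n none = none := by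
  induction n with
  | zero => rfl
  | succ n ih =>
    unfold iter
    rw [Function.iterate_succ_apply]
    exact ih

theorem iter_succ {C : Type} (f : C → Option C) (n : ℕ) (c : C) :
    iter f (n + 1) (some c) = iter f n (f c) := rfl

theorem iter_add {C : Type} (f : C → Option C) (m n : ℕ) (a : Option C) :
    iter f (m + n) a = iter f n (iter f m a) := by
  unfold iter
  rw [add_comm, Function.iterate_add_apply]

theorem iter1 (e : M.Γ M.k₁ ≃ N.Γ N.k₀) (b : N.σ × Option (N.Γ N.k₀)) (T : ∀ k, List (N.Γ k))
    (U : List (N.Γ N.k₀)) (n : ℕ) : ∀ c c' : TM2.Cfg M.Γ M.Λ M.σ,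
    iter (TM2.step M.m) n (some c) = some c' →
    iter (TM2.step (prog M N e)) n (some (cf1 b T U c)) = some (cf1 b T U c') := by
  induction n with
  | zero =>
    intro c c' h
    have : c = c' := Option.some.inj h
    rw [this]
    rfl
  | succ n ih =>
    intro c c' h
    rw [iter_succ] at h ⊢
    rcases c with ⟨l, v, S⟩
    cases l with
    | none =>
      rw [show TM2.step M.m ⟨none, v, S⟩ = none from rfl, iter_none] at h
      exact absurd h (by simp)
    | some l =>
      have h1 : TM2.step (prog M N e) (cf1 b T U ⟨some l, v, S⟩) =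
          some (cf1 b T U (stepAux (M.m l) v S)) := by
        show some (stepAux (st1 (M.m l)) (v, b) (stk M N S T U)) = _
        rw [stepAux_st1]
      rw [h1]
      exact ih _ _ h

theorem iter2 (e : M.Γ M.k₁ ≃ N.Γ N.k₀) (a : M.σ) (o : Option (N.Γ N.k₀))
    (S : ∀ k, List (M.Γ k)) (U : List (N.Γ N.k₀)) (n : ℕ) : ∀ c c' : TM2.Cfg N.Γ N.Λ N.σ,
    iter (TM2.step N.m) n (some c) = some c' →
    iter (TM2.step (prog M N e)) n (some (cf2 a o S U c)) = some (cf2 a o S U c') := by
  induction n with
  | zero =>
    intro c c' h
    have : c = c' := Option.some.inj h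
    rw [this]
    rfl
  | succ n ih =>
    intro c c' h
    rw [iter_succ] at h ⊢
    rcases c with ⟨l, v, T⟩
    cases l with
    | none =>
      rw [show TM2.step N.m ⟨none, v, T⟩ = none from rfl, iter_none] at h
      exact absurd h (by simp)
    | some l =>
      have h1 : TM2.step (prog M N e) (cf2 a o S U ⟨some l, v, T⟩) =
          some (cf2 a o S U (stepAux (N.m l) v T)) := by
        show some (stepAux (st2 (N.m l)) (a, v, o) (stk M N S T U)) = _
        rw [stepAux_st2]
      rw [h1]
      exact ih _ _ h

theorem transfer1 (e : M.Γ M.k₁ ≃ N.Γ N.k₀) (a : M.σ) (b : N.σ) (T : ∀ k, List (N.Γ k))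
    (l : List (M.Γ M.k₁)) : ∀ U : List (N.Γ N.k₀),
    iter (TM2.step (prog M N e)) (l.length + 1)
      (some ⟨some (Sum.inr (Sum.inl true)), (a, b, none),
        stk M N (Function.update (fun _ => []) M.k₁ l) T U⟩) =
      some ⟨some (Sum.inr (Sum.inl false)), (a, b, none),
        stk M N (fun _ => []) T ((l.map e).reverse ++ U)⟩ := by
  by_cases hne : Nonempty (N.Γ N.k₀)
  · induction l with
    | nil =>
      intro U
      rw [List.length_nil, iter_succ]
      show some (stepAux (trA M N e) _ _) = _
      unfold trA
      rw [dif_pos hne]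
      simp only [stepAux]
      rw [update_stk1]
      simp [stk]
    | cons x l ih =>
      intro U
      rw [List.length_cons, iter_succ]
      have h1 : TM2.step (prog M N e) ⟨some (Sum.inr (Sum.inl true)), (a, b, none),
          stk M N (Function.update (fun _ => []) M.k₁ (x :: l)) T U⟩ =
          some ⟨some (Sum.inr (Sum.inl true)), (a, b, none),
            stk M N (Function.update (fun _ => []) M.k₁ l) T (e x :: U)⟩ := by
        show some (stepAux (trA M N e) _ _) = _
        unfold trA
        rw [dif_pos hne]
        simp only [stepAux]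
        rw [update_stk1, update_stk3]
        simp [stk]
      rw [h1]
      have h2 := ih (e x :: U)
      rw [h2]
      simp
  · intro U
    have : IsEmpty (N.Γ N.k₀) := not_nonempty_iff.1 hne
    have hl : l = [] := by
      cases l with
      | nil => rfl
      | cons x l => exact (this.false (e x)).elim
    subst hl
    rw [List.length_nil, iter_succ]
    show some (stepAux (trA M N e) _ _) = _
    unfold trA
    rw [dif_neg hne]
    simp [stepAux]

theorem transfer2 (e : M.Γ M.k₁ ≃ N.Γ N.k₀) (a : M.σ) (b : N.σ) (S : ∀ k, List (M.Γ k))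
    (U : List (N.Γ N.k₀)) : ∀ t : List (N.Γ N.k₀),
    iter (TM2.step (prog M N e)) (U.length + 1)
      (some ⟨some (Sum.inr (Sum.inl false)), (a, b, none),
        stk M N S (Function.update (fun _ => []) N.k₀ t) U⟩) =
      some ⟨some (Sum.inr (Sum.inr N.main)), (a, b, none),
        stk M N S (Function.update (fun _ => []) N.k₀ (U.reverse ++ t)) []⟩ := by
  by_cases hne : Nonempty (N.Γ N.k₀)
  · induction U with
    | nil =>
      intro t
      rw [List.length_nil, iter_succ]
      show some (stepAux (trB M N) _ _) = _
      unfold trB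
      rw [dif_pos hne]
      simp only [stepAux]
      rw [update_stk3]
      simp [stk]
    | cons x U ih =>
      intro t
      rw [List.length_cons, iter_succ]
      have h1 : TM2.step (prog M N e) ⟨some (Sum.inr (Sum.inl false)), (a, b, none),
          stk M N S (Function.update (fun _ => []) N.k₀ t) (x :: U)⟩ =
          some ⟨some (Sum.inr (Sum.inl false)), (a, b, none),
            stk M N S (Function.update (fun _ => []) N.k₀ (x :: t)) U⟩ := by
        show some (stepAux (trB M N) _ _) = _
        unfold trB
        rw [dif_pos hne]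
        simp only [stepAux]
        rw [update_stk3, update_stk2]
        simp [stk]
      rw [h1]
      have h2 := ih (x :: t)
      rw [h2]
      simp
  · intro t
    have : IsEmpty (N.Γ N.k₀) := not_nonempty_iff.1 hne
    have hU : U = [] := by
      cases U with
      | nil => rfl
      | cons x l => exact (this.false x).elim
    subst hU
    rw [List.length_nil, iter_succ]
    show some (stepAux (trB M N) _ _) = _
    unfold trB
    rw [dif_neg hne]
    simp [stepAux]

/-- The number of pushes of a statement. -/
def pushes {K Λ σ : Type} {Γ : K → Type} : TM2.Stmt Γ Λ σ → ℕ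
  | .push _ _ q => pushes q + 1
  | .peek _ _ q => pushes q
  | .pop _ _ q => pushes q
  | .load _ q => pushes q
  | .branch _ q1 q2 => pushes q1 + pushes q2
  | .goto _ => 0
  | .halt => 0

theorem stepAux_length {K Λ σ : Type} [DecidableEq K] {Γ : K → Type} (q : TM2.Stmt Γ Λ σ)
    (j : K) : ∀ (v : σ) (S : ∀ k, List (Γ k)),
    ((stepAux q v S).stk j).length ≤ (S j).length + pushes q := by
  induction q with
  | push k f q ih =>
    intro v S
    simp only [stepAux, pushes]
    refine (ih _ _).trans ?_
    by_cases h : j = k
    · subst h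
      rw [Function.update_self]
      simp only [List.length_cons]
      omega
    · rw [Function.update_of_ne h]
      omega
  | peek k f q ih => intro v S; exact ih _ _
  | pop k f q ih =>
    intro v S
    simp only [stepAux, pushes]
    refine (ih _ _).trans ?_
    by_cases h : j = k
    · subst h
      rw [Function.update_self]
      simp only [List.length_tail]
      omega
    · rw [Function.update_of_ne h]
  | load f q ih => intro v S; exact ih _ _
  | branch f q1 q2 ih1 ih2 =>
    intro v S
    simp only [stepAux, pushes]
    cases f v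
    · refine (ih2 v S).trans ?_
      omega
    · refine (ih1 v S).trans ?_
      omega
  | goto f => intro v S; simp [stepAux, pushes]
  | halt => intro v S; simp [stepAux, pushes]

theorem iter_length {K Λ σ : Type} [DecidableEq K] {Γ : K → Type} (P : Λ → TM2.Stmt Γ Λ σ)
    (C : ℕ) (hC : ∀ l, pushes (P l) ≤ C) (j : K) (n : ℕ) : ∀ c c' : TM2.Cfg Γ Λ σ,
    iter (TM2.step P) n (some c) = some c' → (c'.stk j).length ≤ (c.stk j).length + C * n := by
  induction n with
  | zero =>
    intro c c' h
    have : c = c' := Option.some.inj h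
    rw [this]
    simp
  | succ n ih =>
    intro c c' h
    rw [iter_succ] at h
    rcases c with ⟨l, v, S⟩
    cases l with
    | none =>
      rw [show TM2.step P ⟨none, v, S⟩ = none from rfl, iter_none] at h
      exact absurd h (by simp)
    | some l =>
      have h1 := ih _ _ h
      have h2 := stepAux_length (P l) j v S
      have h3 := hC l
      have h4 : C * (n + 1) = C * n + C := by ring
      rw [h4]
      show (c'.stk j).length ≤ (S j).length + (C * n + C)
      omega

theorem initList_eq (tm : FinTM2) (s : List (tm.Γ tm.k₀)) :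
    initList tm s = ⟨some tm.main, tm.initialState, Function.update (fun _ => []) tm.k₀ s⟩ := by
  unfold initList
  congr 1
  funext k
  by_cases h : k = tm.k₀
  · subst h
    rw [Function.update_self, dif_pos rfl]
    rfl
  · rw [Function.update_of_ne h, dif_neg h]

theorem haltList_eq (tm : FinTM2) (s : List (tm.Γ tm.k₁)) :
    haltList tm s = ⟨none, tm.initialState, Function.update (fun _ => []) tm.k₁ s⟩ := by
  unfold haltList
  congr 1
  funext k
  by_cases h : k = tm.k₁
  · subst h
    rw [Function.update_self, dif_pos rfl]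
    rfl
  · rw [Function.update_of_ne h, dif_neg h]

variable (M N) in
/-- The composed machine. -/
noncomputable def compTM (e : M.Γ M.k₁ ≃ N.Γ N.k₀) : FinTM2 :=
  haveI := M.kFin
  haveI := N.kFin
  haveI := M.ΛFin
  haveI := N.ΛFin
  haveI := M.σFin
  haveI := N.σFin
  haveI := N.Γk₀Fin
  haveI : Fintype (GG M N (Sum.inl M.k₀)) := M.Γk₀Fin
  { K := M.K ⊕ (N.K ⊕ Unit)
    k₀ := Sum.inl M.k₀
    k₁ := Sum.inr (Sum.inl N.k₁)
    Γ := GG M N
    Λ := LA M N
    main := Sum.inl M.main
    σ := SS M N
    initialState := (M.initialState, N.initialState, none)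
    m := prog M N e }

theorem comp_run (e : M.Γ M.k₁ ≃ N.Γ N.k₀) (x : List (M.Γ M.k₀)) (y : List (M.Γ M.k₁))
    (z : List (N.Γ N.k₁)) (n1 n2 : ℕ)
    (h1 : iter M.step n1 (some (initList M x)) = some (haltList M y))
    (h2 : iter N.step n2 (some (initList N (y.map e))) = some (haltList N z)) :
    iter (compTM M N e).step (n1 + ((y.length + 1) + ((y.length + 1) + n2)))
      (some (initList (compTM M N e) x)) = some (haltList (compTM M N e) z) := by
  rw [initList_eq] at h1 h2
  rw [haltList_eq] at h1 h2
  have a1 := iter1 e (N.initialState, none) (fun _ => []) [] n1 _ _ h1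
  have a2 := iter2 e M.initialState none (fun _ => []) [] n2 _ _ h2
  have b1 := transfer1 e M.initialState N.initialState (fun _ => []) y []
  have b2 := transfer2 e M.initialState N.initialState (fun _ => []) (y.map e).reverse []
  have e1 : initList (compTM M N e) x = (cf1 (N.initialState, none) (fun _ => []) []
        ⟨some M.main, M.initialState, Function.update (fun _ => []) M.k₀ x⟩ :
          TM2.Cfg (GG M N) (LA M N) (SS M N)) := by
    rw [initList_eq]
    unfold cf1
    rw [← update_stk1 (M := M) (N := N) (fun _ => []) (fun _ => []) [] M.k₀ x]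
    have : (fun _ => [] : ∀ k, List (GG M N k)) = stk M N (fun _ => []) (fun _ => []) [] := by
      funext k
      rcases k with k | k | k <;> rfl
    rw [← this]
    rfl
  have e2 : haltList (compTM M N e) z = (cf2 M.initialState none (fun _ => []) []
        ⟨none, N.initialState, Function.update (fun _ => []) N.k₁ z⟩ :
          TM2.Cfg (GG M N) (LA M N) (SS M N)) := by
    rw [haltList_eq]
    unfold cf2
    rw [← update_stk2 (M := M) (N := N) (fun _ => []) (fun _ => []) [] N.k₁ z]
    have : (fun _ => [] : ∀ k, List (GG M N k)) = stk M N (fun _ => []) (fun _ => []) [] := by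
      funext k
      rcases k with k | k | k <;> rfl
    rw [← this]
    rfl
  have c1 : cf1 (M := M) (N := N) (N.initialState, none) (fun _ => []) []
      ⟨none, M.initialState, Function.update (fun _ => []) M.k₁ y⟩ =
      ⟨some (Sum.inr (Sum.inl true)), (M.initialState, N.initialState, none),
        stk M N (Function.update (fun _ => []) M.k₁ y) (fun _ => []) []⟩ := rfl
  have c2 : (Function.update (fun _ => []) N.k₀ [] : ∀ k, List (N.Γ k)) = fun _ => [] :=
    Function.update_eq_self N.k₀ (fun _ => [])
  rw [c2] at b2
  rw [List.length_reverse, List.length_map, List.reverse_reverse, List.append_nil] at b2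
  have goal : iter (TM2.step (prog M N e)) (n1 + ((y.length + 1) + ((y.length + 1) + n2)))
      (some (cf1 (N.initialState, none) (fun _ => []) []
        ⟨some M.main, M.initialState, Function.update (fun _ => []) M.k₀ x⟩)) =
      some (cf2 M.initialState none (fun _ => []) []
        ⟨none, N.initialState, Function.update (fun _ => []) N.k₁ z⟩) := by
    rw [iter_add, a1, iter_add, c1, b1, iter_add, List.append_nil, b2]
    exact a2
  exact (congrArg (fun c => iter (compTM M N e).step (n1 + ((y.length + 1) +
    ((y.length + 1) + n2))) (some c)) e1).trans (goal.trans (congrArg some e2.symm))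

end

/-- The composition of functions computable in polynomial time is computable in polynomial time. -/
theorem comp {α β γ αΓ βΓ γΓ : Type} {ea : α → List αΓ} {eb : β → List βΓ}
    {ec : γ → List γΓ} {f : α → β} {g : β → γ} (h1 : Nonempty (TM2ComputableInPolyTime ea eb f))
    (h2 : Nonempty (TM2ComputableInPolyTime eb ec g)) :
    Nonempty (TM2ComputableInPolyTime ea ec (g ∘ f)) := by
  obtain ⟨h1⟩ := h1
  obtain ⟨h2⟩ := h2
  set e : h1.tm.Γ h1.tm.k₁ ≃ h2.tm.Γ h2.tm.k₀ :=
    h1.outputAlphabet.trans h2.inputAlphabet.symm with he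
  haveI := h1.tm.ΛFin
  set C := ∑ l : h1.tm.Λ, pushes (h1.tm.m l) with hC
  have hC' : ∀ l, pushes (h1.tm.m l) ≤ C := fun l =>
    Finset.single_le_sum (f := fun l => pushes (h1.tm.m l)) (fun _ _ => Nat.zero_le _)
      (Finset.mem_univ l)
  set Q : Polynomial ℕ := Polynomial.X + Polynomial.C C * h1.time with hQ
  refine ⟨{ tm := compTM h1.tm h2.tm e
            inputAlphabet := h1.inputAlphabet
            outputAlphabet := h2.outputAlphabet
            time := h1.time + ((Q + 1) + ((Q + 1) + h2.time.comp Q))
            outputsFun := fun a => ?_ }⟩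
  have r1 := h1.outputsFun a
  have r2 := h2.outputsFun (f a)
  set y := List.map h1.outputAlphabet.invFun (eb (f a)) with hy
  have hye : y.map e = List.map h2.inputAlphabet.invFun (eb (f a)) := by
    rw [hy, List.map_map]
    apply List.map_congr_left
    intro b _
    show h2.inputAlphabet.symm (h1.outputAlphabet (h1.outputAlphabet.symm b)) = _
    rw [Equiv.apply_symm_apply]
    rfl
  have hylen : y.length ≤ Q.eval (ea a).length := by
    have hl := iter_length h1.tm.m C hC' h1.tm.k₁ r1.steps _ _ r1.evals_in_steps
    have e3 : ((haltList h1.tm y).stk h1.tm.k₁) = y := by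
      rw [haltList_eq]
      show (Function.update (fun _ => []) h1.tm.k₁ y : ∀ k, List (h1.tm.Γ k)) h1.tm.k₁ = y
      rw [Function.update_self]
    have e4 : ((initList h1.tm (List.map h1.inputAlphabet.invFun (ea a))).stk h1.tm.k₁).length ≤
        (ea a).length := by
      rw [initList_eq]
      by_cases h : h1.tm.k₁ = h1.tm.k₀
      · show ((Function.update (fun _ => []) h1.tm.k₀
          (List.map h1.inputAlphabet.invFun (ea a)) : ∀ k, List (h1.tm.Γ k)) h1.tm.k₁).length ≤ _
        rw [h, Function.update_self, List.length_map]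
      · show ((Function.update (fun _ => []) h1.tm.k₀
          (List.map h1.inputAlphabet.invFun (ea a)) : ∀ k, List (h1.tm.Γ k)) h1.tm.k₁).length ≤ _
        rw [Function.update_of_ne h]
        simp
    have hl2 : y.length ≤ ((initList h1.tm (List.map h1.inputAlphabet.invFun (ea a))).stk
        h1.tm.k₁).length + C * r1.steps := by
      conv_lhs => rw [← e3]
      exact hl
    have hs := r1.steps_le_m
    have hCs := Nat.mul_le_mul_left C hs
    rw [hQ, Polynomial.eval_add, Polynomial.eval_X, Polynomial.eval_mul, Polynomial.eval_C]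
    omega
  have hmono : h2.time.eval y.length ≤ h2.time.eval (Q.eval (ea a).length) := by
    rw [Polynomial.eval_eq_sum_range, Polynomial.eval_eq_sum_range]
    exact Finset.sum_le_sum fun i _ => Nat.mul_le_mul_left _ (Nat.pow_le_pow_left hylen i)
  have hy2 : (eb (f a)).length = y.length := by rw [hy, List.length_map]
  refine { steps := r1.steps + ((y.length + 1) + ((y.length + 1) + r2.steps))
           evals_in_steps := ?_
           steps_le_m := ?_ }
  · exact comp_run e _ y _ r1.steps r2.steps r1.evals_in_steps (by
      rw [hye]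
      exact r2.evals_in_steps)
  · have s1 := r1.steps_le_m
    have s2 : r2.steps ≤ h2.time.eval (eb (f a)).length := r2.steps_le_m
    have s3 : h2.time.eval (eb (f a)).length = h2.time.eval y.length := by rw [hy2]
    simp only [Polynomial.eval_add, Polynomial.eval_comp, Polynomial.eval_one]
    omega

end Pool.Agent.H90.Closed.Comp
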