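import Mathlib

set_option autoImplicit false

namespace Pool.Agent.H90.Closed

/-- A monomial `c * x_{i_1}^{e_1} * ... * x_{i_r}^{e_r}` is given by its integer coefficient `c` and the
list of the pairs `(i_j, e_j)`. -/
abbrev Mono : Type := ℤ × List (ℕ × ℕ)

/-- A polynomial is given as a sum (a list) of monomials. -/
abbrev Poly : Type := List Mono

/-- The real value of a monomial at the point `v`. -/
noncomputable def monoVal (m : Mono) (v : ℕ → ℝ) : ℝ :=
  (m.1 : ℝ) * (m.2.map fun f => v f.1 ^ f.2).prod

/-- The real value of a polynomial at the point `v`. -/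
noncomputable def polyVal (p : Poly) (v : ℕ → ℝ) : ℝ :=
  (p.map fun m => monoVal m v).sum

/-- Quantifier-free formulas: Boolean combinations of atoms `p = 0`, `p > 0`, `p ≥ 0`. -/
inductive Fml : Type
  | eq (p : Poly) : Fml
  | gt (p : Poly) : Fml
  | ge (p : Poly) : Fml
  | not (φ : Fml) : Fml
  | and (φ ψ : Fml) : Fml
  | or (φ ψ : Fml) : Fml

/-- Satisfaction of a formula at the point `v`. -/
def Fml.Holds : Fml → (ℕ → ℝ) → Prop
  | .eq p, v => polyVal p v = 0
  | .gt p, v => polyVal p v > 0
  | .ge p, v => polyVal p v ≥ 0
  | .not φ, v => ¬ φ.Holds v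
  | .and φ ψ, v => φ.Holds v ∧ ψ.Holds v
  | .or φ ψ, v => φ.Holds v ∨ ψ.Holds v

/-- Every variable of the polynomial has index smaller than `n` and every exponent lies in `E`. -/
def PolyWF (n : ℕ) (E : Set ℕ) (p : Poly) : Prop :=
  ∀ m ∈ p, ∀ f ∈ m.2, f.1 < n ∧ f.2 ∈ E

/-- Every variable of the formula has index smaller than `n` and every exponent lies in `E`. -/
def Fml.WF (n : ℕ) (E : Set ℕ) : Fml → Prop
  | .eq p => PolyWF n E p
  | .gt p => PolyWF n E p
  | .ge p => PolyWF n E p
  | .not φ => φ.WF n E
  | .and φ ψ => φ.WF n E ∧ ψ.WF n E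
  | .or φ ψ => φ.WF n E ∧ ψ.WF n E

/-- An instance: a number `n` of variables and a quantifier-free formula in the variables
`x_0, ..., x_{n-1}`, all of whose exponents lie in `E`. -/
structure Inst (E : Set ℕ) where
  /-- the number of variables -/
  n : ℕ
  /-- the formula -/
  φ : Fml
  /-- all variables are among `x_0, ..., x_{n-1}` and all exponents lie in `E` -/
  wf : φ.WF n E

/-- A point of `ℝ^n`, extended by zero to all indices. -/
noncomputable def extend {n : ℕ} (x : Fin n → ℝ) : ℕ → ℝ :=
  fun i => if h : i < n then x ⟨i, h⟩ else 0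

/-- The semialgebraic set in `ℝ^n` defined by the formula of the instance. -/
def Inst.set {E : Set ℕ} (I : Inst E) : Set (Fin I.n → ℝ) :=
  {x | I.φ.Holds (extend x)}

/-- The alphabet in which instances are written. -/
inductive Tok : Type
  | one | sep | tnot | tand | tor | teq | tgt | tge | plus | minus | b0 | b1 | tvar | tend
  deriving DecidableEq, Fintype

/-- Binary digits (least significant first) of a natural number. -/
def encNat (k : ℕ) : List Tok :=
  (Nat.bits k).map fun b => if b then Tok.b1 else Tok.b0

/-- The factor `x_i ^ e` is written as `tvar`, the index `i` in unary, the exponent `e` in binary. -/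
def encFactor (f : ℕ × ℕ) : List Tok :=
  Tok.tvar :: (List.replicate f.1 Tok.one ++ encNat f.2)

/-- A monomial is written as the sign and the absolute value (in binary) of its coefficient, followed
by its factors. -/
def encMono (m : Mono) : List Tok :=
  (if m.1 < 0 then Tok.minus else Tok.plus) :: (encNat m.1.natAbs ++ m.2.flatMap encFactor)

/-- A polynomial is written as the list of its monomials, followed by `tend`. -/
def encPoly (p : Poly) : List Tok :=
  p.flatMap encMono ++ [Tok.tend]

/-- Formulas are written in Polish notation. -/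
def Fml.enc : Fml → List Tok
  | .eq p => Tok.teq :: encPoly p
  | .gt p => Tok.tgt :: encPoly p
  | .ge p => Tok.tge :: encPoly p
  | .not φ => Tok.tnot :: φ.enc
  | .and φ ψ => Tok.tand :: (φ.enc ++ ψ.enc)
  | .or φ ψ => Tok.tor :: (φ.enc ++ ψ.enc)

/-- An instance is written as the number of variables in unary, a separator, and the formula. -/
def Inst.enc {E : Set ℕ} (I : Inst E) : List Tok :=
  List.replicate I.n Tok.one ++ Tok.sep :: I.φ.enc

end Pool.Agent.H90.Closed
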