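import Pool.Agent.H90.Closed.NormalForm

set_option autoImplicit false
set_option linter.unusedSectionVars false

namespace Pool.Agent.H90.Closed

open MvPolynomial

variable {ι : Type} [Fintype ι] [DecidableEq ι]

/-- The deformed function. -/
noncomputable def G (F : MvPolynomial (ι ⊕ Fin 2) ℤ) (D : ℕ) (y : ι → ℝ) (x : ℝ)
    (t : Fin 2 → ℝ) : ℝ :=
  ((D + 2 : ℕ) : ℝ) * x * ev F y t + ∑ i, y i ^ (D + 2)

variable {F : MvPolynomial (ι ⊕ Fin 2) ℤ} {D : ℕ}

theorem NF.row (b : ℕ) (hb : 1 ≤ b) (hF : F.totalDegree ≤ D + 1)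
    (hbF : ∀ i : ι, l1 (pderiv (Sum.inl i) F) ≤ b) (k : ι → Fin (D + 1)) :
    NF F D (fun y x t => G F D y x t * ∏ i, y i ^ (k i : ℕ))
      (((D + 2) * l1 F + Fintype.card ι) * b ^ (D + 2 + Fintype.card ι * D))
      ((D + 2) + (D + 1) * (D + 2 + Fintype.card ι * D)) := by
  have hksum : (∑ i, (k i : ℕ)) ≤ Fintype.card ι * D := by
    calc (∑ i, (k i : ℕ)) ≤ ∑ _i : ι, D := Finset.sum_le_sum fun i _ => by have := (k i).2; omega
      _ = _ := by simp
  have h1 : ∀ m ∈ F.support, NF F D (fun y x t =>
      (((D + 2 : ℕ) : ℝ) * x * ((F.coeff m : ℤ) : ℝ) * (t 0 ^ m (Sum.inr 0) * t 1 ^ m (Sum.inr 1))) *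
        ∏ j, y j ^ (m (Sum.inl j) + (k j : ℕ)))
      ((D + 2) * (F.coeff m).natAbs * b ^ (D + 2 + Fintype.card ι * D))
      ((D + 2) + (D + 1) * (D + 2 + Fintype.card ι * D)) := by
    intro m hm
    have hdeg : (∑ j, m (Sum.inl j)) + (m (Sum.inr 0) + m (Sum.inr 1)) ≤ D + 1 := by
      have h2 := MvPolynomial.le_totalDegree hm
      rw [Finsupp.sum_fintype _ _ (fun _ => rfl), Fintype.sum_sum_type] at h2
      simp only [Fin.sum_univ_two] at h2
      omega
    obtain ⟨q, hq1, hq2, hq3⟩ := param_monomial (F.coeff m) (m (Sum.inr 0)) (m (Sum.inr 1))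
    have hsum : (∑ j, (m (Sum.inl j) + (k j : ℕ))) ≤ D + 2 + Fintype.card ι * D := by
      rw [Finset.sum_add_distrib]; omega
    refine (((NF.monomial_aux b hb hF hbF _ _ hsum).cmul
      (C ((D + 2 : ℕ) : ℤ) * X 0 * q)).congr ?_).mono ?_ ?_
    · intro y x t _
      rw [map_mul, map_mul, hq3, aeval_C, aeval_X]
      simp only [Matrix.cons_val_zero, eq_intCast, Int.cast_natCast]
      ring
    · refine Nat.mul_le_mul_right _ ?_
      refine (l1_mul_le _ _).trans ?_
      refine Nat.mul_le_mul ?_ hq1
      refine (l1_mul_le _ _).trans ?_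
      calc _ ≤ (((D + 2 : ℕ) : ℤ).natAbs) * 1 := Nat.mul_le_mul (l1_C_le _) (l1_X_le _)
        _ = _ := by rw [Int.natAbs_natCast, mul_one]
    · refine Nat.add_le_add_right ?_ _
      refine (totalDegree_mul _ _).trans ?_
      have h3 : (C ((D + 2 : ℕ) : ℤ) * X 0 : MvPolynomial (Fin 3) ℤ).totalDegree ≤ 1 := by
        refine (totalDegree_mul _ _).trans ?_
        rw [totalDegree_C, totalDegree_X]
      omega
  have h2 : ∀ i ∈ (Finset.univ : Finset ι), NF F D (fun y _ _ => ∏ j, y j ^ ((k j : ℕ) + if j = i then D + 2 else 0))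
      (b ^ (D + 2 + Fintype.card ι * D)) ((D + 2) + (D + 1) * (D + 2 + Fintype.card ι * D)) := by
    intro i _
    have hsum : (∑ j, ((k j : ℕ) + if j = i then D + 2 else 0)) ≤ D + 2 + Fintype.card ι * D := by
      rw [Finset.sum_add_distrib]
      simp
      omega
    exact (NF.monomial_aux b hb hF hbF _ _ hsum).mono le_rfl (by omega)
  refine (((NF.sum _ _ _ _ h1).add (NF.sum _ _ _ _ h2)).congr ?_).mono ?_ le_rfl
  · intro y x t _
    unfold G
    rw [add_mul]
    congr 1
    · rw [ev_eq, Finset.mul_sum, Finset.sum_mul]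
      refine Finset.sum_congr rfl fun m _ => ?_
      simp only [pow_add, Finset.prod_mul_distrib]
      ring
    · rw [Finset.sum_mul]
      refine Finset.sum_congr rfl fun i _ => ?_
      simp only [pow_add, Finset.prod_mul_distrib]
      have : (∏ j, y j ^ (if j = i then D + 2 else 0)) = y i ^ (D + 2) := by
        rw [Finset.prod_eq_single i]
        · simp
        · intro j _ hj; simp [hj]
        · simp
      rw [this]
      ring
  · rw [← Finset.sum_mul]
    simp only [Finset.sum_const, Finset.card_univ, smul_eq_mul]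
    rw [add_mul, ← Finset.mul_sum]
    exact le_rfl

/-- The bound for the coefficients of the matrix entries. -/
def betaBd (n D B : ℕ) : ℕ := ((D + 2) * B + n) * ((D + 1) * B) ^ (D + 2 + n * D)

/-- The bound for the degree of the matrix entries. -/
def degBd (n D : ℕ) : ℕ := (D + 2) + (D + 1) * (D + 2 + n * D)

/-- The bound for the coefficients of the annihilating polynomial. -/
def hBd (n D B : ℕ) : ℕ := ((D + 1) ^ n).factorial * (1 + betaBd n D B) ^ ((D + 1) ^ n)

/-- The bound for the exponents of the annihilating polynomial. -/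
def kBd (n D : ℕ) : ℕ := (D + 1) ^ n * degBd n D

theorem exists_annihilator (B : ℕ) (hB : 1 ≤ B) (hF : F.totalDegree ≤ D + 1) (hFB : l1 F ≤ B) :
    ∃ P : MvPolynomial (Fin 4) ℤ, P ≠ 0 ∧ (∀ m ∈ P.support, ∀ i, m i ≤ kBd (Fintype.card ι) D) ∧
      l1 P ≤ hBd (Fintype.card ι) D B ∧
      ∀ y x t, Crit F D y x t →
        aeval (![G F D y x t, x, t 0, t 1] : Fin 4 → ℝ) P = 0 := by
  classical
  have hpd : ∀ i : ι, l1 (pderiv (Sum.inl i) F) ≤ (D + 1) * B := by
    intro i
    refine (l1_pderiv_le _ _ _ hF).trans ?_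
    rw [mul_comm]
    exact Nat.mul_le_mul_left _ hFB
  have hb : 1 ≤ (D + 1) * B := Nat.one_le_iff_ne_zero.mpr (by positivity)
  have hrow := fun k => NF.row ((D + 1) * B) hb hF hpd k
  choose A hA1 hA2 hA3 using hrow
  have hA1' : ∀ k k', l1 (A k k') ≤ betaBd (Fintype.card ι) D B := by
    intro k k'
    refine (hA1 k k').trans ?_
    unfold betaBd
    gcongr
  set M : Matrix (ι → Fin (D + 1)) (ι → Fin (D + 1)) (MvPolynomial (Fin 4) ℤ) :=
    Matrix.of fun k k' => (if k = k' then X 0 else 0) - rename Fin.succ (A k k') with hM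
  have hevM : ∀ (s x : ℝ) (t : Fin 2 → ℝ),
      aeval (![s, x, t 0, t 1] : Fin 4 → ℝ) M.det =
        (Matrix.of fun k k' => (if k = k' then s else 0) -
          aeval (Matrix.vecCons x t : Fin 3 → ℝ) (A k k') : Matrix _ _ ℝ).det := by
    intro s x t
    rw [AlgHom.map_det]
    congr 1
    ext k k'
    simp only [AlgHom.mapMatrix_apply, Matrix.map_apply, hM, Matrix.of_apply, map_sub]
    congr 1
    · split_ifs
      · simp
      · simp
    · rw [aeval_rename]
      congr 2
      ext j
      fin_cases j <;> rfl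
  have hcardM : Fintype.card (ι → Fin (D + 1)) = (D + 1) ^ Fintype.card ι := by
    rw [Fintype.card_fun, Fintype.card_fin]
  refine ⟨M.det, ?_, ?_, ?_, ?_⟩
  · intro hzero
    -- real value which is not an eigenvalue
    set A0 : Matrix (ι → Fin (D + 1)) (ι → Fin (D + 1)) ℝ :=
      Matrix.of fun k k' => aeval (Matrix.vecCons (0 : ℝ) (fun _ => 0) : Fin 3 → ℝ) (A k k') with hA0
    have h1 : ∀ s : ℝ, (A0.charpoly).eval s = 0 := by
      intro s
      rw [Matrix.eval_charpoly]
      have h2 := hevM s 0 (fun _ => 0)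
      rw [hzero, map_zero] at h2
      refine Eq.trans ?_ h2.symm
      congr 1
    have h3 : A0.charpoly = 0 := Polynomial.funext (by simpa using h1)
    exact (Matrix.charpoly_monic A0).ne_zero h3
  · intro m hm i
    have h1 : M.det.totalDegree ≤ kBd (Fintype.card ι) D := by
      rw [Matrix.det_apply]
      apply totalDegree_finsetSum_le
      intro σ _
      refine (totalDegree_smul_le _ _).trans ?_
      refine (totalDegree_finsetProd _ _).trans ?_
      calc _ ≤ ∑ _k : ι → Fin (D + 1), degBd (Fintype.card ι) D := by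
            refine Finset.sum_le_sum fun k _ => ?_
            simp only [hM, Matrix.of_apply]
            refine (totalDegree_sub _ _).trans (max_le ?_ ?_)
            · split_ifs
              · rw [totalDegree_X]; unfold degBd; omega
              · simp
            · exact (totalDegree_rename_le _ _).trans (hA2 _ _)
        _ = _ := by
            rw [Finset.sum_const, Finset.card_univ, hcardM]
            rfl
    have h2 := MvPolynomial.le_totalDegree hm
    have h3 : m i ≤ m.sum fun _ e => e := by
      by_cases h : m i = 0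
      · omega
      · have : i ∈ m.support := by simpa using h
        exact Finset.single_le_sum (f := fun j => m j) (fun _ _ => Nat.zero_le _) this
    omega
  · rw [Matrix.det_apply]
    refine (l1_sum_le _ _).trans ?_
    calc _ ≤ ∑ _σ : Equiv.Perm (ι → Fin (D + 1)),
          (1 + betaBd (Fintype.card ι) D B) ^ ((D + 1) ^ Fintype.card ι) := by
          refine Finset.sum_le_sum fun σ _ => ?_
          have h1 : l1 (Equiv.Perm.sign σ • ∏ i, M (σ i) i) = l1 (∏ i, M (σ i) i) := by
            rcases Int.units_eq_one_or (Equiv.Perm.sign σ) with h | h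
            · rw [h, one_smul]
            · rw [h, Units.neg_smul, one_smul, l1_neg]
          rw [h1]
          refine (l1_prod_le _ _).trans ?_
          calc _ ≤ ∏ _k : ι → Fin (D + 1), (1 + betaBd (Fintype.card ι) D B) := by
                refine Finset.prod_le_prod' fun k _ => ?_
                simp only [hM, Matrix.of_apply]
                refine (l1_sub_le _ _).trans ?_
                refine Nat.add_le_add ?_ ((l1_rename_le _ _).trans (hA1' _ _))
                split_ifs
                · exact l1_X_le _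
                · simp
            _ = _ := by
                rw [Finset.prod_const, Finset.card_univ, hcardM]
      _ = _ := by
          rw [Finset.sum_const, Finset.card_univ, Fintype.card_perm, hcardM, smul_eq_mul]
          rfl
  · intro y x t hc
    rw [hevM, ← Matrix.exists_mulVec_eq_zero_iff]
    refine ⟨fun k => ∏ i, y i ^ (k i : ℕ), ?_, ?_⟩
    · intro h
      have := congrFun h (fun _ => 0)
      simp at this
    · ext k
      simp only [Matrix.mulVec, dotProduct, Matrix.of_apply, Pi.zero_apply, sub_mul,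
        Finset.sum_sub_distrib, ite_mul, zero_mul, Finset.sum_ite_eq, Finset.mem_univ, if_true]
      rw [← hA3 k y x t hc]
      ring

end Pool.Agent.H90.Closed
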