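import Pool.Agent.H90.Closed.PolyTime

set_option autoImplicit false

namespace Pool.Agent.H90.Closed

/-! ### The product with an open half-line -/

def shiftPoly (p : Poly) : Poly := p.map fun m => (m.1, m.2.map fun f => (f.1 + 1, f.2))

def Fml.shift : Fml → Fml
  | .eq p => .eq (shiftPoly p)
  | .gt p => .gt (shiftPoly p)
  | .ge p => .ge (shiftPoly p)
  | .not φ => .not φ.shift
  | .and φ ψ => .and φ.shift ψ.shift
  | .or φ ψ => .or φ.shift ψ.shift

theorem monoVal_shift (m : Mono) (v : ℕ → ℝ) :
    monoVal (m.1, m.2.map fun f => (f.1 + 1, f.2)) v = monoVal m fun i => v (i + 1) := by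
  unfold monoVal
  rw [List.map_map]
  rfl

theorem polyVal_shift (p : Poly) (v : ℕ → ℝ) :
    polyVal (shiftPoly p) v = polyVal p fun i => v (i + 1) := by
  unfold polyVal shiftPoly
  rw [List.map_map]
  congr 1
  apply List.map_congr_left
  intro m _
  exact monoVal_shift m v

theorem holds_shift (φ : Fml) (v : ℕ → ℝ) : φ.shift.Holds v ↔ φ.Holds fun i => v (i + 1) := by
  induction φ with
  | eq p => simp [Fml.shift, Fml.Holds, polyVal_shift]
  | gt p => simp [Fml.shift, Fml.Holds, polyVal_shift]
  | ge p => simp [Fml.shift, Fml.Holds, polyVal_shift]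
  | not φ ih => simp [Fml.shift, Fml.Holds, ih]
  | and φ ψ ih1 ih2 => simp [Fml.shift, Fml.Holds, ih1, ih2]
  | or φ ψ ih1 ih2 => simp [Fml.shift, Fml.Holds, ih1, ih2]

theorem polyWF_shift {n : ℕ} {E : Set ℕ} {p : Poly} (h : PolyWF n E p) :
    PolyWF (n + 1) E (shiftPoly p) := by
  intro m hm f hf
  unfold shiftPoly at hm
  obtain ⟨m', hm', rfl⟩ := List.mem_map.1 hm
  obtain ⟨f', hf', rfl⟩ := List.mem_map.1 hf
  have := h m' hm' f' hf'
  exact ⟨by simpa using this.1, this.2⟩

theorem wf_shift {n : ℕ} {E : Set ℕ} {φ : Fml} (h : φ.WF n E) : φ.shift.WF (n + 1) E := by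
  induction φ with
  | eq p => exact polyWF_shift h
  | gt p => exact polyWF_shift h
  | ge p => exact polyWF_shift h
  | not φ ih => exact ih h
  | and φ ψ ih1 ih2 => exact ⟨ih1 h.1, ih2 h.2⟩
  | or φ ψ ih1 ih2 => exact ⟨ih1 h.1, ih2 h.2⟩

/-- The formula `φ` with shifted variables, together with `x_0 > 0`. -/
def shiftI {E : Set ℕ} (hE : 1 ∈ E) (I : Inst E) : Inst E where
  n := I.n + 1
  φ := .and I.φ.shift (.gt [(1, [(0, 1)])])
  wf := ⟨wf_shift I.wf, by
    intro m hm f hf
    simp only [List.mem_singleton] at hm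
    subst hm
    simp only [List.mem_singleton] at hf
    subst hf
    exact ⟨Nat.succ_pos _, hE⟩⟩

theorem polyVal_x0 (v : ℕ → ℝ) : polyVal [(1, [(0, 1)])] v = v 0 := by
  simp [polyVal, monoVal]

theorem shiftI_holds {E : Set ℕ} (hE : 1 ∈ E) (I : Inst E) (x : Fin (I.n + 1) → ℝ) :
    Membership.mem (γ := Set (Fin (I.n + 1) → ℝ)) (shiftI hE I).set x ↔
      (fun i : Fin I.n => x i.succ) ∈ I.set ∧ 0 < x 0 := by
  have e1 : (fun i => extend x (i + 1)) = extend fun i : Fin I.n => x i.succ := by
    funext i
    unfold extend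
    by_cases h : i < I.n
    · simp only [Nat.add_lt_add_iff_right, h, dif_pos]
      rfl
    · simp only [Nat.add_lt_add_iff_right, h, dif_neg, not_false_eq_true]
  have e2 : extend x 0 = x 0 := by
    unfold extend
    rw [dif_pos (Nat.succ_pos _)]
    rfl
  show (shiftI hE I).φ.Holds (extend x) ↔ _
  unfold shiftI Inst.set
  simp only [Fml.Holds, holds_shift, polyVal_x0, Set.mem_setOf_eq, gt_iff_lt]
  rw [e1, e2]

theorem shift_correct {E : Set ℕ} (hE : 1 ∈ E) (I : Inst E) :
    I.set.Nonempty ↔ ¬ IsClosed (shiftI hE I).set := by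
  constructor
  · rintro ⟨y, hy⟩ hcl
    set c : ℝ → (Fin (I.n + 1) → ℝ) := fun t => Fin.cons t y with hc
    have hcont : Continuous c := by
      refine continuous_pi fun i => ?_
      refine Fin.cases ?_ (fun j => ?_) i
      · simpa [hc] using continuous_id'
      · simpa [hc] using continuous_const
    have hpre : c ⁻¹' (shiftI hE I).set = Set.Ioi 0 := by
      ext t
      refine (shiftI_holds hE I (c t)).trans ?_
      simp [hc, hy]
    have h1 : IsClosed (Set.Ioi (0 : ℝ)) := hpre ▸ hcl.preimage hcont
    have h2 : (0 : ℝ) ∈ closure (Set.Ioi (0 : ℝ)) := by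
      rw [closure_Ioi]; exact Set.self_mem_Ici
    rw [h1.closure_eq] at h2
    exact lt_irrefl _ (Set.mem_Ioi.1 h2)
  · intro h
    by_contra h2
    apply h
    have : (shiftI hE I).set = ∅ := by
      ext x
      refine (shiftI_holds hE I x).trans ?_
      simp only [Set.mem_empty_iff_false, iff_false, not_and]
      intro h3
      exact absurd ⟨_, h3⟩ h2
    rw [this]
    exact isClosed_empty

/-! ### The encoding of the shifted instance -/

/-- The substitution on tokens. -/
def sub (t : Tok) : List Tok := if t = .tvar then [.tvar, .one] else [t]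

theorem sub_ones (n : ℕ) : (ones n).flatMap sub = ones n := by
  induction n with
  | zero => rfl
  | succ n ih =>
    unfold ones at *
    rw [List.replicate_succ, List.flatMap_cons, ih]; rfl

theorem sub_encNat (k : ℕ) : (encNat k).flatMap sub = encNat k := by
  unfold encNat
  induction Nat.bits k with
  | nil => rfl
  | cons b l ih =>
    rw [List.map_cons, List.flatMap_cons, ih]
    cases b <;> rfl

theorem sub_encFactor (f : ℕ × ℕ) : (encFactor f).flatMap sub = encFactor (f.1 + 1, f.2) := by
  unfold encFactor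
  rw [List.flatMap_cons, List.flatMap_append, sub_ones, sub_encNat]
  show [Tok.tvar, Tok.one] ++ _ = _
  simp [List.replicate_succ]

theorem sub_encMono (m : Mono) :
    (encMono m).flatMap sub = encMono (m.1, m.2.map fun f => (f.1 + 1, f.2)) := by
  unfold encMono
  rw [List.flatMap_cons, List.flatMap_append, sub_encNat]
  have h1 : sub (if m.1 < 0 then Tok.minus else Tok.plus) =
      [if m.1 < 0 then Tok.minus else Tok.plus] := by
    by_cases h : m.1 < 0 <;> simp [sub, h]
  have h2 : (m.2.flatMap encFactor).flatMap sub =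
      (m.2.map fun f => (f.1 + 1, f.2)).flatMap encFactor := by
    induction m.2 with
    | nil => rfl
    | cons f l ih =>
      rw [List.flatMap_cons, List.flatMap_append, ih, sub_encFactor, List.map_cons,
        List.flatMap_cons]
  rw [h1, h2]
  rfl

theorem sub_encPoly (p : Poly) : (encPoly p).flatMap sub = encPoly (shiftPoly p) := by
  unfold encPoly shiftPoly
  rw [List.flatMap_append]
  congr 1
  induction p with
  | nil => rfl
  | cons m p ih =>
    rw [List.flatMap_cons, List.flatMap_append, ih, sub_encMono, List.map_cons, List.flatMap_cons]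

theorem sub_enc (φ : Fml) : φ.enc.flatMap sub = φ.shift.enc := by
  induction φ with
  | eq p =>
    show (Tok.teq :: encPoly p).flatMap sub = Tok.teq :: encPoly (shiftPoly p)
    rw [List.flatMap_cons, sub_encPoly]; rfl
  | gt p =>
    show (Tok.tgt :: encPoly p).flatMap sub = Tok.tgt :: encPoly (shiftPoly p)
    rw [List.flatMap_cons, sub_encPoly]; rfl
  | ge p =>
    show (Tok.tge :: encPoly p).flatMap sub = Tok.tge :: encPoly (shiftPoly p)
    rw [List.flatMap_cons, sub_encPoly]; rfl
  | not φ ih =>
    show (Tok.tnot :: φ.enc).flatMap sub = Tok.tnot :: φ.shift.enc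
    rw [List.flatMap_cons, ih]; rfl
  | and φ ψ ih1 ih2 =>
    show (Tok.tand :: (φ.enc ++ ψ.enc)).flatMap sub = Tok.tand :: (φ.shift.enc ++ ψ.shift.enc)
    rw [List.flatMap_cons, List.flatMap_append, ih1, ih2]; rfl
  | or φ ψ ih1 ih2 =>
    show (Tok.tor :: (φ.enc ++ ψ.enc)).flatMap sub = Tok.tor :: (φ.shift.enc ++ ψ.shift.enc)
    rw [List.flatMap_cons, List.flatMap_append, ih1, ih2]; rfl

theorem shiftI_enc {E : Set ℕ} (hE : 1 ∈ E) (I : Inst E) :
    (shiftI hE I).enc = ones (I.n + 1) ++ Tok.sep :: Tok.tand :: (I.φ.enc.flatMap sub ++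
      [Tok.tgt, .plus, .b1, .tvar, .b1, .tend]) := by
  rw [sub_enc]
  unfold Inst.enc shiftI
  simp [Fml.enc, encPoly, encMono, encFactor, encNat]

/-! ### The program -/

def isTv : Option Tok → Bool
  | some t => decide (t = .tvar)
  | none => false

/-- The program of the shift. -/
def shiftProg : Cmd :=
  .seq (emitL .one []) (.seq (.loop .inp isOne (.move .inp .acc)) (.seq (.drop .inp)
    (.seq (emitL .sep [.tand])
      (.seq (.loop .inp Option.isSome (.ite .inp isTv (.seq (.drop .inp) (emitL .tvar [.one]))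
        (.move .inp .acc))) (.seq (emitL .tgt [.plus, .b1, .tvar, .b1, .tend])
        (moveAll .acc .out))))))

def sh (inp acc : List Tok) : Sx := ⟨inp, [], acc, [], [], [], [], [], [], [], [], [], []⟩

theorem run_sh_ones (n : ℕ) : ∀ (rest acc : List Tok), isOne rest.head? = false →
    Run (.loop .inp isOne (.move .inp .acc)) (sh (ones n ++ rest) acc)
      (sh rest ((ones n).reverse ++ acc)) (2 * n + 1) := by
  induction n with
  | zero =>
    intro rest acc h
    exact (Run.loop_done (k := .inp) (by simpa [sh, Sx.get] using h)).cast (by simp) (by simp)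
  | succ n ih =>
    intro rest acc h
    have e : ones (n + 1) ++ rest = Tok.one :: (ones n ++ rest) := by simp [List.replicate_succ]
    rw [e]
    have a1 : Run (.move .inp .acc) (sh (Tok.one :: (ones n ++ rest)) acc)
        (sh (ones n ++ rest) (Tok.one :: acc)) 1 := (Run.move .inp .acc _).cast rfl le_rfl
    refine (Run.loop_step (k := .inp) rfl a1 (ih rest (Tok.one :: acc) h)).cast ?_ (by omega)
    congr 1
    simp only [List.reverse_replicate]
    rw [List.replicate_succ', List.append_assoc, List.singleton_append]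

theorem run_sh_sub (w : List Tok) : ∀ (acc : List Tok),
    Run (.loop .inp Option.isSome (.ite .inp isTv (.seq (.drop .inp) (emitL .tvar [.one]))
        (.move .inp .acc))) (sh w acc) (sh [] ((w.flatMap sub).reverse ++ acc))
      (5 * w.length + 1) := by
  induction w with
  | nil =>
    intro acc
    exact (Run.loop_done (k := .inp) rfl).cast (by simp) (by simp)
  | cons t w ih =>
    intro acc
    have key : Run (.ite .inp isTv (.seq (.drop .inp) (emitL .tvar [.one]))
        (.move .inp .acc)) (sh (t :: w) acc) (sh w ((sub t).reverse ++ acc)) 4 := by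
      by_cases h : t = .tvar
      · subst h
        have b1 : Run (.drop .inp) (sh (Tok.tvar :: w) acc) (sh w acc) 1 :=
          (Run.drop .inp _).cast rfl le_rfl
        have b2 : Run (emitL .tvar [.one]) (sh w acc)
            (sh w (([Tok.tvar, .one] : List Tok).reverse ++ acc)) 2 := emits_emitL .tvar [.one] _
        exact (Run.ite_true (k := .inp) (p := isTv) rfl (Run.seq b1 b2)).cast rfl (by norm_num)
      · have b1 : Run (.move .inp .acc) (sh (t :: w) acc) (sh w (t :: acc)) 1 :=
          (Run.move .inp .acc _).cast rfl le_rfl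
        refine (Run.ite_false (k := .inp) (p := isTv) ?_ b1).cast ?_ (by norm_num)
        · simp [sh, Sx.get, isTv, h]
        · simp [sub, h]
    refine (Run.loop_step (k := .inp) rfl key (ih ((sub t).reverse ++ acc))).cast ?_ ?_
    · congr 1
      rw [List.flatMap_cons]
      simp
    · simp only [List.length_cons]; omega

theorem run_shiftProg {E : Set ℕ} (hE : 1 ∈ E) (I : Inst E) :
    Run shiftProg { Sx.empty with inp := I.enc } { Sx.empty with out := (shiftI hE I).enc }
      (20 * I.enc.length + 40) := by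
  have a1 : Run (emitL .one []) (sh I.enc []) (sh I.enc [Tok.one]) 1 := emits_emitL .one [] _
  have a2 : Run (.loop .inp isOne (.move .inp .acc)) (sh I.enc [Tok.one])
      (sh (Tok.sep :: I.φ.enc) ((ones I.n).reverse ++ [Tok.one])) (2 * I.n + 1) :=
    run_sh_ones I.n (Tok.sep :: I.φ.enc) [Tok.one] rfl
  set A2 := (ones I.n).reverse ++ [Tok.one] with hA2
  have a3 : Run (.drop .inp) (sh (Tok.sep :: I.φ.enc) A2) (sh I.φ.enc A2) 1 :=
    (Run.drop .inp _).cast rfl le_rfl
  have a4 : Run (emitL .sep [.tand]) (sh I.φ.enc A2)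
      (sh I.φ.enc (([Tok.sep, .tand] : List Tok).reverse ++ A2)) 2 := emits_emitL .sep [.tand] _
  set A4 := ([Tok.sep, .tand] : List Tok).reverse ++ A2 with hA4
  have a5 := run_sh_sub I.φ.enc A4
  set A5 := (I.φ.enc.flatMap sub).reverse ++ A4 with hA5
  have a6 : Run (emitL .tgt [.plus, .b1, .tvar, .b1, .tend]) (sh [] A5)
      (sh [] (([Tok.tgt, .plus, .b1, .tvar, .b1, .tend] : List Tok).reverse ++ A5)) 6 :=
    emits_emitL .tgt [.plus, .b1, .tvar, .b1, .tend] _
  set A6 := ([Tok.tgt, .plus, .b1, .tvar, .b1, .tend] : List Tok).reverse ++ A5 with hA6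
  have a7 := run_moveAll_aux .acc .out (by decide) A6 (sh [] A6) rfl
  have hA : A6.reverse = (shiftI hE I).enc := by
    rw [shiftI_enc, hA6, hA5, hA4, hA2]
    simp only [List.reverse_append, List.reverse_reverse, List.reverse_cons, List.reverse_nil,
      List.nil_append, List.append_assoc, List.cons_append]
    simp [List.replicate_succ]
  have hlen : A6.length ≤ 2 * I.enc.length + 20 := by
    rw [← List.length_reverse, hA, shiftI_enc]
    have h1 : (I.φ.enc.flatMap sub).length ≤ 2 * I.φ.enc.length := by
      induction I.φ.enc with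
      | nil => simp
      | cons t w ih =>
        rw [List.flatMap_cons, List.length_append, List.length_cons]
        have : (sub t).length ≤ 2 := by
          unfold sub; split <;> simp
        omega
    have h2 : I.enc.length = I.n + (I.φ.enc.length + 1) := by
      simp [Inst.enc]
    rw [h2]
    simp only [List.length_append, List.length_replicate, List.length_cons, List.length_nil]
    omega
  have h2 : I.enc.length = I.n + (I.φ.enc.length + 1) := by
    simp [Inst.enc]
  refine (Run.seq a1 (Run.seq a2 (Run.seq a3 (Run.seq a4 (Run.seq a5 (Run.seq a6 a7)))))).cast ?_ ?_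
  · rw [← hA]
    apply Sx.ext <;> simp [Sx.empty, sh, Sx.get, Sx.set]
  · omega

/-- The reduction `shiftI` is computable in polynomial time. -/
theorem shiftI_polyTime {E : Set ℕ} (hE : 1 ∈ E) :
    Nonempty (Turing.TM2ComputableInPolyTime (Inst.enc (E := E)) (Inst.enc (E := E))
      (shiftI hE)) := by
  obtain ⟨P, hP⟩ := ((IsPol.const 20).mul IsPol.id).add (IsPol.const 40)
  refine polyTime_of_exec _ _ _ shiftProg P fun I => ?_
  obtain ⟨n, h1, h2⟩ := run_shiftProg hE I
  exact ⟨n, by rw [← hP]; exact h1, h2⟩

end Pool.Agent.H90.Closed
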