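import Pool.Agent.H90.Closed.Problems
import Pool.Agent.H90.Closed.Shift
import Pool.Agent.H90.Closed.Comp

set_option autoImplicit false

namespace Pool.Agent.H90.Closed

theorem Reduces.trans {P Q R : DecProblem} (h1 : Reduces P Q) (h2 : Reduces Q R) : Reduces P R := by
  obtain ⟨f, hf, h1⟩ := h1
  obtain ⟨g, hg, h2⟩ := h2
  exact ⟨g ∘ f, Comp.comp hf hg, fun x => (h1 x).trans (h2 (f x))⟩

theorem Reduces.compl {P Q : DecProblem} (h : Reduces P Q) : Reduces P.compl Q.compl := by
  obtain ⟨f, hf, h⟩ := h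
  exact ⟨f, hf, fun x => not_congr (h x)⟩

/-- A map that does not change the words is computable in polynomial time. -/
theorem polyTime_of_eq {α β αΓ : Type} [Fintype αΓ] (ea : α → List αΓ) (eb : β → List αΓ)
    (f : α → β) (h : ∀ a, eb (f a) = ea a) :
    Nonempty (Turing.TM2ComputableInPolyTime ea eb f) := by
  refine ⟨{ tm := Turing.idComputer αΓ
            inputAlphabet := Equiv.cast rfl
            outputAlphabet := Equiv.cast rfl
            time := 1
            outputsFun := fun a => ?_ }⟩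
  refine { steps := 1, evals_in_steps := ?_, steps_le_m := ?_ }
  · rw [h a]
    rfl
  · simp only [Polynomial.eval_one, le_refl]

theorem polyWF_mono {n : ℕ} {E F : Set ℕ} (hEF : E ⊆ F) {p : Poly} (h : PolyWF n E p) :
    PolyWF n F p := fun m hm f hf => ⟨(h m hm f hf).1, hEF (h m hm f hf).2⟩

theorem wf_mono {n : ℕ} {E F : Set ℕ} (hEF : E ⊆ F) {φ : Fml} (h : φ.WF n E) : φ.WF n F := by
  induction φ with
  | eq p => exact polyWF_mono hEF h
  | gt p => exact polyWF_mono hEF h
  | ge p => exact polyWF_mono hEF h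
  | not φ ih => exact ih h
  | and φ ψ ih1 ih2 => exact ⟨ih1 h.1, ih2 h.2⟩
  | or φ ψ ih1 ih2 => exact ⟨ih1 h.1, ih2 h.2⟩

/-- The inclusion of instances. -/
def incl {E F : Set ℕ} (hEF : E ⊆ F) (I : Inst E) : Inst F := ⟨I.n, I.φ, wf_mono hEF I.wf⟩

theorem etr_incl {E F : Set ℕ} (hEF : E ⊆ F) : Reduces (ETR E) (ETR F) :=
  ⟨incl hEF, polyTime_of_eq (αΓ := Tok) _ _ _ fun _ => rfl, fun _ => Iff.rfl⟩

theorem notClosed_to_etr (E : Set ℕ) : Reduces (Closedness E).compl (ETR {1}) :=
  ⟨red, red_polyTime E, fun I => red_correct I⟩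

theorem etr_to_notClosed {E : Set ℕ} (hE : 1 ∈ E) : Reduces (ETR E) (Closedness E).compl :=
  ⟨shiftI hE, shiftI_polyTime hE, fun I => shift_correct hE I⟩

/-- The existential theories of the reals for all sets of exponents are equivalent. -/
theorem etr_equiv {E F : Set ℕ} (hE : 1 ∈ E) (hF : 1 ∈ F) : Reduces (ETR E) (ETR F) :=
  ((etr_to_notClosed hE).trans (notClosed_to_etr E)).trans
    (etr_incl (by simpa using hF))

theorem compl_compl (P : DecProblem) : P.compl.compl = P := by
  rcases P with ⟨A, B, C, D, F, Y⟩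
  simp [DecProblem.compl]

theorem closedness_complete (E F : Set ℕ) (hE : 1 ∈ E) (hF : 1 ∈ F) :
    ForallRComplete F (Closedness E) := by
  constructor
  · exact (notClosed_to_etr E).trans (etr_incl (by simpa using hF))
  · intro Q hQ
    have h1 : Reduces Q.compl (ETR F) := hQ
    have h2 : Reduces Q.compl (Closedness E).compl :=
      (h1.trans (etr_equiv hF hE)).trans (etr_to_notClosed hE)
    have h3 := h2.compl
    rwa [compl_compl, compl_compl] at h3

end Pool.Agent.H90.Closed
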