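import Pool.Agent.H90.Closed.Basic

set_option autoImplicit false

namespace Pool.Agent.H90.Closed

/-- Names of the stacks. -/
inductive Stk : Type
  | inp | out | acc | cnt | r1 | r2 | r3 | r4 | tmp | ell | save | ii | jj
  deriving DecidableEq, Fintype

/-- Contents of the stacks. -/
@[ext] structure Sx : Type where
  inp : List Tok
  out : List Tok
  acc : List Tok
  cnt : List Tok
  r1 : List Tok
  r2 : List Tok
  r3 : List Tok
  r4 : List Tok
  tmp : List Tok
  ell : List Tok
  save : List Tok
  ii : List Tok
  jj : List Tok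

def Sx.get (s : Sx) : Stk → List Tok
  | .inp => s.inp
  | .out => s.out
  | .acc => s.acc
  | .cnt => s.cnt
  | .r1 => s.r1
  | .r2 => s.r2
  | .r3 => s.r3
  | .r4 => s.r4
  | .tmp => s.tmp
  | .ell => s.ell
  | .save => s.save
  | .ii => s.ii
  | .jj => s.jj

def Sx.set (s : Sx) : Stk → List Tok → Sx
  | .inp, x => { s with inp := x }
  | .out, x => { s with out := x }
  | .acc, x => { s with acc := x }
  | .cnt, x => { s with cnt := x }
  | .r1, x => { s with r1 := x }
  | .r2, x => { s with r2 := x }
  | .r3, x => { s with r3 := x }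
  | .r4, x => { s with r4 := x }
  | .tmp, x => { s with tmp := x }
  | .ell, x => { s with ell := x }
  | .save, x => { s with save := x }
  | .ii, x => { s with ii := x }
  | .jj, x => { s with jj := x }

theorem Sx.get_set (s : Sx) (k : Stk) (x : List Tok) :
    (s.set k x).get = Function.update s.get k x := by
  funext j
  cases k <;> cases j <;> rfl

/-- Simple programs operating on the stacks. -/
inductive Cmd : Type
  | push (k : Stk) (t : Tok) : Cmd
  | drop (k : Stk) : Cmd
  | move (k k' : Stk) : Cmd
  | copyTop (k k' : Stk) : Cmd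
  | seq (c1 c2 : Cmd) : Cmd
  | ite (k : Stk) (p : Option Tok → Bool) (c1 c2 : Cmd) : Cmd
  | loop (k : Stk) (p : Option Tok → Bool) (c : Cmd) : Cmd

/-- Effect of `move`. -/
def doMove (s : Sx) (k k' : Stk) : Sx :=
  match s.get k with
  | [] => s
  | t :: l => (s.set k l).set k' (t :: (s.set k l).get k')

/-- Effect of `copyTop`. -/
def doCopy (s : Sx) (k k' : Stk) : Sx :=
  match s.get k with
  | [] => s
  | t :: _ => s.set k' (t :: s.get k')

/-- Execution with exact number of steps. -/
inductive Exec : Cmd → Sx → Sx → ℕ → Prop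
  | push (k : Stk) (t : Tok) (s : Sx) : Exec (.push k t) s (s.set k (t :: s.get k)) 1
  | drop (k : Stk) (s : Sx) : Exec (.drop k) s (s.set k (s.get k).tail) 1
  | move (k k' : Stk) (s : Sx) : Exec (.move k k') s (doMove s k k') 1
  | copyTop (k k' : Stk) (s : Sx) : Exec (.copyTop k k') s (doCopy s k k') 1
  | seq {c1 c2 : Cmd} {s s1 s2 : Sx} {n1 n2 : ℕ} : Exec c1 s s1 n1 → Exec c2 s1 s2 n2 →
      Exec (.seq c1 c2) s s2 (n2 + n1)
  | ite_true {k : Stk} {p : Option Tok → Bool} {c1 c2 : Cmd} {s s' : Sx} {n : ℕ} :
      p (s.get k).head? = true → Exec c1 s s' n → Exec (.ite k p c1 c2) s s' (n + 1)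
  | ite_false {k : Stk} {p : Option Tok → Bool} {c1 c2 : Cmd} {s s' : Sx} {n : ℕ} :
      p (s.get k).head? = false → Exec c2 s s' n → Exec (.ite k p c1 c2) s s' (n + 1)
  | loop_done {k : Stk} {p : Option Tok → Bool} {c : Cmd} {s : Sx} :
      p (s.get k).head? = false → Exec (.loop k p c) s s 1
  | loop_step {k : Stk} {p : Option Tok → Bool} {c : Cmd} {s s1 s2 : Sx} {n1 n2 : ℕ} :
      p (s.get k).head? = true → Exec c s s1 n1 → Exec (.loop k p c) s1 s2 n2 →
      Exec (.loop k p c) s s2 (n2 + n1 + 1)

/-! ### Compilation to the stack machines of Mathlib -/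

/-- The labels of a program. -/
def Lab : Cmd → Type
  | .push _ _ => Unit
  | .drop _ => Unit
  | .move _ _ => Unit
  | .copyTop _ _ => Unit
  | .seq c1 c2 => Lab c1 ⊕ Lab c2
  | .ite _ _ c1 c2 => Unit ⊕ (Lab c1 ⊕ Lab c2)
  | .loop _ _ c => Unit ⊕ Lab c

def labFintype : (c : Cmd) → Fintype (Lab c)
  | .push _ _ => inferInstanceAs (Fintype Unit)
  | .drop _ => inferInstanceAs (Fintype Unit)
  | .move _ _ => inferInstanceAs (Fintype Unit)
  | .copyTop _ _ => inferInstanceAs (Fintype Unit)
  | .seq c1 c2 =>
    haveI := labFintype c1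
    haveI := labFintype c2
    inferInstanceAs (Fintype (Lab c1 ⊕ Lab c2))
  | .ite _ _ c1 c2 =>
    haveI := labFintype c1
    haveI := labFintype c2
    inferInstanceAs (Fintype (Unit ⊕ (Lab c1 ⊕ Lab c2)))
  | .loop _ _ c =>
    haveI := labFintype c
    inferInstanceAs (Fintype (Unit ⊕ Lab c))

def entry : (c : Cmd) → Lab c
  | .push _ _ => ()
  | .drop _ => ()
  | .move _ _ => ()
  | .copyTop _ _ => ()
  | .seq c1 _ => Sum.inl (entry c1)
  | .ite _ _ _ _ => Sum.inl ()
  | .loop _ _ _ => Sum.inl ()

abbrev MStmt (Λ : Type) : Type := Turing.TM2.Stmt (fun _ : Stk => Tok) Λ (Option Tok)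

def code {Λ : Type} : (c : Cmd) → (Lab c → Λ) → MStmt Λ → Lab c → MStmt Λ
  | .push k t, _, q, _ => .push k (fun _ => t) q
  | .drop k, _, q, _ => .pop k (fun v _ => v) q
  | .move k k', _, q, _ =>
      .pop k (fun _ o => o) (.branch Option.isSome
        (.push k' (fun v => v.getD Tok.one) (.load (fun _ => none) q)) q)
  | .copyTop k k', _, q, _ =>
      .peek k (fun _ o => o) (.branch Option.isSome
        (.push k' (fun v => v.getD Tok.one) (.load (fun _ => none) q)) q)
  | .seq c1 c2, emb, q, l =>
      match l with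
      | .inl l => code c1 (fun x => emb (Sum.inl x)) (.goto fun _ => emb (Sum.inr (entry c2))) l
      | .inr l => code c2 (fun x => emb (Sum.inr x)) q l
  | .ite k p c1 c2, emb, q, l =>
      match l with
      | .inl _ => .peek k (fun _ o => o) (.branch p
          (.load (fun _ => none) (.goto fun _ => emb (Sum.inr (Sum.inl (entry c1)))))
          (.load (fun _ => none) (.goto fun _ => emb (Sum.inr (Sum.inr (entry c2))))))
      | .inr (.inl l) => code c1 (fun x => emb (Sum.inr (Sum.inl x))) q l
      | .inr (.inr l) => code c2 (fun x => emb (Sum.inr (Sum.inr x))) q l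
  | .loop k p c, emb, q, l =>
      match l with
      | .inl _ => .peek k (fun _ o => o) (.branch p
          (.load (fun _ => none) (.goto fun _ => emb (Sum.inr (entry c))))
          (.load (fun _ => none) q))
      | .inr l => code c (fun x => emb (Sum.inr x)) (.goto fun _ => emb (Sum.inl ())) l

abbrev MCfg (Λ : Type) : Type := Turing.TM2.Cfg (fun _ : Stk => Tok) Λ (Option Tok)

abbrev iter {Λ : Type} (M : Λ → MStmt Λ) (n : ℕ) (a : Option (MCfg Λ)) : Option (MCfg Λ) :=
  (flip bind (Turing.TM2.step M))^[n] a

theorem iter_add {Λ : Type} (M : Λ → MStmt Λ) (n1 n2 : ℕ) (a : Option (MCfg Λ)) :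
    iter M (n2 + n1) a = iter M n2 (iter M n1 a) := by
  unfold iter
  rw [Function.iterate_add_apply]

theorem iter_one {Λ : Type} (M : Λ → MStmt Λ) (l : Λ) (v : Option Tok)
    (S : Stk → List Tok) :
    iter M 1 (some ⟨some l, v, S⟩) = some (Turing.TM2.stepAux (M l) v S) := rfl

theorem exec_sound {c : Cmd} {s s' : Sx} {n : ℕ} (h : Exec c s s' n) :
    ∀ {Λ : Type} (emb : Lab c → Λ) (q : MStmt Λ) (M : Λ → MStmt Λ),
      (∀ l, M (emb l) = code c emb q l) →
      iter M n (some ⟨some (emb (entry c)), none, s.get⟩) =
        some (Turing.TM2.stepAux q none s'.get) := by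
  induction h with
  | push k t s =>
    intro Λ emb q M hM
    rw [iter_one, hM, Sx.get_set]
    simp [code]
  | drop k s =>
    intro Λ emb q M hM
    rw [iter_one, hM, Sx.get_set]
    simp [code]
  | move k k' s =>
    intro Λ emb q M hM
    rw [iter_one, hM]
    unfold doMove
    cases hk : s.get k with
    | nil =>
      simp only [code, Turing.TM2.stepAux, hk, List.head?_nil, Option.isSome_none, cond_false,
        List.tail_nil]
      congr 2
      rw [← hk, Function.update_eq_self]
    | cons t l =>
      simp only [code, Turing.TM2.stepAux, hk, List.head?_cons, Option.isSome_some, cond_true,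
        List.tail_cons, Option.getD_some, Sx.get_set]
  | copyTop k k' s =>
    intro Λ emb q M hM
    rw [iter_one, hM]
    unfold doCopy
    cases hk : s.get k with
    | nil =>
      simp only [code, Turing.TM2.stepAux, hk, List.head?_nil, Option.isSome_none, cond_false]
    | cons t l =>
      simp only [code, Turing.TM2.stepAux, hk, List.head?_cons, Option.isSome_some, cond_true,
        Option.getD_some, Sx.get_set]
  | @seq c1 c2 s s1 s2 n1 n2 _ _ ih1 ih2 =>
    intro Λ emb q M hM
    rw [iter_add]
    have h1 := ih1 (fun x => emb (Sum.inl x)) (.goto fun _ => emb (Sum.inr (entry c2))) M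
      (fun l => by rw [hM]; rfl)
    have h2 := ih2 (fun x => emb (Sum.inr x)) q M (fun l => by rw [hM]; rfl)
    have e : emb (entry (.seq c1 c2)) = (fun x => emb (Sum.inl x)) (entry c1) := rfl
    rw [e, h1]
    exact h2
  | @ite_true k p c1 c2 s s' n hp _ ih =>
    intro Λ emb q M hM
    rw [iter_add, iter_one, hM]
    have h1 := ih (fun x => emb (Sum.inr (Sum.inl x))) q M (fun l => by rw [hM]; rfl)
    simp only [entry, code, Turing.TM2.stepAux, hp, cond_true]
    exact h1
  | @ite_false k p c1 c2 s s' n hp _ ih =>
    intro Λ emb q M hM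
    rw [iter_add, iter_one, hM]
    have h1 := ih (fun x => emb (Sum.inr (Sum.inr x))) q M (fun l => by rw [hM]; rfl)
    simp only [entry, code, Turing.TM2.stepAux, hp, cond_false]
    exact h1
  | loop_done hp =>
    intro Λ emb q M hM
    rw [iter_one, hM]
    simp only [entry, code, Turing.TM2.stepAux, hp, cond_false]
  | @loop_step k p c s s1 s2 n1 n2 hp _ _ ih1 ih2 =>
    intro Λ emb q M hM
    rw [iter_add, iter_add, iter_one, hM]
    have h1 := ih1 (fun x => emb (Sum.inr x)) (.goto fun _ => emb (Sum.inl ())) M
      (fun l => by rw [hM]; rfl)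
    have h2 := ih2 emb q M hM
    simp only [entry, code, Turing.TM2.stepAux, hp, cond_true]
    simp only [Turing.TM2.stepAux] at h1
    rw [h1]
    exact h2

/-! ### The machine of a program -/

/-- The machine of a program. -/
def machine (c : Cmd) : Turing.FinTM2 :=
  haveI := labFintype c
  { K := Stk
    k₀ := Stk.inp
    k₁ := Stk.out
    Γ := fun _ => Tok
    Λ := Lab c
    main := entry c
    σ := Option Tok
    initialState := none
    m := code c id Turing.TM2.Stmt.halt }

def Sx.empty : Sx := ⟨[], [], [], [], [], [], [], [], [], [], [], [], []⟩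

/-- A program that computes `f` in polynomial time. -/
theorem polyTime_of_exec {α β : Type} (ea : α → List Tok) (eb : β → List Tok) (f : α → β)
    (c : Cmd) (time : Polynomial ℕ)
    (h : ∀ a, ∃ n ≤ time.eval (ea a).length,
      Exec c { Sx.empty with inp := ea a } { Sx.empty with out := eb (f a) } n) :
    Nonempty (Turing.TM2ComputableInPolyTime ea eb f) := by
  choose n hn hexec using h
  refine ⟨{ tm := machine c, inputAlphabet := Equiv.refl Tok, outputAlphabet := Equiv.refl Tok,
            time := time, outputsFun := fun a => ?_ }⟩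
  refine { steps := n a, evals_in_steps := ?_, steps_le_m := hn a }
  have h1 := exec_sound (hexec a) (Λ := Lab c) id Turing.TM2.Stmt.halt
    (code c id Turing.TM2.Stmt.halt) (fun l => rfl)
  have e1 : (some (Turing.initList (machine c) (List.map (Equiv.refl Tok).invFun (ea a))) :
      Option (MCfg (Lab c))) = some ⟨some (id (entry c)), none,
        ({ Sx.empty with inp := ea a } : Sx).get⟩ := by
    congr 1
    unfold Turing.initList
    congr 1
    funext k
    have e0 : List.map (Equiv.refl Tok).invFun (ea a) = ea a := List.map_id _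
    cases k
    · show _ = ea a
      conv_rhs => rw [← e0]
      rfl
    all_goals rfl
  have e2 : (some (Turing.TM2.stepAux Turing.TM2.Stmt.halt none
      ({ Sx.empty with out := eb (f a) } : Sx).get) : Option (MCfg (Lab c))) =
      some (Turing.haltList (machine c) (List.map (Equiv.refl Tok).invFun (eb (f a)))) := by
    congr 1
    unfold Turing.haltList
    simp only [Turing.TM2.stepAux]
    congr 1
    funext k
    have e0 : List.map (Equiv.refl Tok).invFun (eb (f a)) = eb (f a) := List.map_id _
    cases k
    case out =>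
      show eb (f a) = _
      conv_lhs => rw [← e0]
      rfl
    all_goals rfl
  rw [← e1, e2] at h1
  exact h1

end Pool.Agent.H90.Closed
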