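import Pool.Agent.H90.Closed.System

set_option autoImplicit false
set_option linter.unusedSectionVars false

namespace Pool.Agent.H90.Closed

open MvPolynomial Filter Topology

theorem extend_continuous {n : ℕ} : Continuous (extend : (Fin n → ℝ) → ℕ → ℝ) := by
  unfold extend
  refine continuous_pi fun i => ?_
  split_ifs
  · fun_prop
  · exact continuous_const

theorem polyVal_continuous (p : Poly) : Continuous fun v : ℕ → ℝ => polyVal p v := by
  unfold polyVal
  induction p with
  | nil => simp only [List.map_nil, List.sum_nil]; exact continuous_const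
  | cons m p ih =>
    simp only [List.map_cons, List.sum_cons]
    refine Continuous.add ?_ ih
    unfold monoVal
    refine continuous_const.mul ?_
    generalize m.2 = l
    induction l with
    | nil => simp only [List.map_nil, List.prod_nil]; exact continuous_const
    | cons f l ih =>
      simp only [List.map_cons, List.prod_cons]
      exact ((continuous_apply f.1).pow _).mul ih

/-- The existential condition with parameters `ε`, `δ`. -/
def TT (n : ℕ) (φ : Fml) (ε δ : ℝ) : Prop :=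
  ∃ x y : Fin n → ℝ, φ.Holds (extend y) ∧ ¬ φ.Holds (extend x) ∧
    (∀ p ∈ φ.atoms, polyVal p (extend x) = 0 ∨ δ ≤ polyVal p (extend x) ∨
      polyVal p (extend x) ≤ -δ) ∧
    (∀ i, |x i - y i| ≤ ε) ∧ (∀ i, |δ * x i| ≤ 1)

theorem cond_sign {s : SignType} {p d : ℝ} (hd : 0 < d) (h : Cond s p d) :
    SignType.sign p = s := by
  cases s with
  | zero => simp only [Cond] at h; rw [h]; exact sign_zero
  | pos => simp only [Cond] at h; exact sign_pos (by linarith)
  | neg => simp only [Cond] at h; exact sign_neg (by linarith)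

theorem cond_of_tri {p d : ℝ} (hd : 0 < d) (h : p = 0 ∨ d ≤ p ∨ p ≤ -d) :
    Cond (SignType.sign p) p d := by
  rcases h with h | h | h
  · rw [h, sign_zero]; simp [Cond]
  · rw [sign_pos (by linarith)]; exact h
  · rw [sign_neg (by linarith)]; exact h

theorem tri_of_cond {s : SignType} {p d : ℝ} (h : Cond s p d) : p = 0 ∨ d ≤ p ∨ p ≤ -d := by
  cases s with
  | zero => exact Or.inl h
  | pos => exact Or.inr (Or.inl h)
  | neg => exact Or.inr (Or.inr h)

theorem isClosed_cond (s : SignType) (d : ℝ) : IsClosed {p : ℝ | Cond s p d} := by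
  cases s with
  | zero => exact isClosed_eq continuous_id continuous_const
  | pos => exact isClosed_le continuous_const continuous_id
  | neg => exact isClosed_le continuous_id continuous_const

/-- Non-closedness from a fixed pair of sign patterns. -/
theorem not_isClosed_of_pat (n : ℕ) (φ : Fml) (σ τ : Fin φ.atoms.length → SignType) (δ : ℝ)
    (hδ : 0 < δ) (e : ℕ → ℝ) (he : Tendsto e atTop (𝓝 0))
    (hP : ∀ k, Pat n φ.atoms σ τ (e k) δ)
    (hσ : ∀ v, (∀ a, SignType.sign (polyVal (φ.atoms.get a) v) = σ a) → φ.Holds v)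
    (hτ : ∀ v, (∀ a, SignType.sign (polyVal (φ.atoms.get a) v) = τ a) → ¬ φ.Holds v) :
    ¬ IsClosed {x : Fin n → ℝ | φ.Holds (extend x)} := by
  intro hcl
  choose x y h1 h2 h3 h4 using hP
  have hbox : ∀ k, x k ∈ Metric.closedBall (0 : Fin n → ℝ) (1 / δ) := by
    intro k
    rw [mem_closedBall_zero_iff, pi_norm_le_iff_of_nonneg (by positivity)]
    intro i
    have := h4 k i
    rw [abs_mul, abs_of_pos hδ] at this
    rw [Real.norm_eq_abs, le_div_iff₀ hδ]
    linarith
  obtain ⟨xs, _, ψ, hψ, hlim⟩ := (isCompact_closedBall (0 : Fin n → ℝ) (1 / δ)).tendsto_subseq hbox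
  have hlimy : Tendsto (y ∘ ψ) atTop (𝓝 xs) := by
    have hdiff : Tendsto (fun k => x (ψ k) - y (ψ k)) atTop (𝓝 0) := by
      rw [tendsto_pi_nhds]
      intro i
      refine squeeze_zero_norm (a := fun k => e (ψ k)) ?_ (he.comp hψ.tendsto_atTop)
      intro k
      rw [Real.norm_eq_abs]
      exact h3 (ψ k) i
    have h5 := hlim.sub hdiff
    rw [sub_zero] at h5
    refine h5.congr fun k => ?_
    simp
  have hcond : ∀ a, Cond (τ a) (polyVal (φ.atoms.get a) (extend xs)) δ := by
    intro a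
    have hcont : Continuous fun z : Fin n → ℝ => polyVal (φ.atoms.get a) (extend z) :=
      (polyVal_continuous _).comp extend_continuous
    have hcl2 := (isClosed_cond (τ a) δ).preimage hcont
    exact hcl2.mem_of_tendsto hlim (Eventually.of_forall fun k => h2 (ψ k) a)
  have hmem : xs ∈ {x : Fin n → ℝ | φ.Holds (extend x)} :=
    hcl.mem_of_tendsto hlimy (Eventually.of_forall fun k => hσ _ (h1 (ψ k)))
  exact hτ _ (fun a => cond_sign hδ (hcond a)) hmem

theorem holds_of_sign_eq (φ : Fml) (v w : ℕ → ℝ)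
    (h : ∀ a : Fin φ.atoms.length, SignType.sign (polyVal (φ.atoms.get a) v) =
      SignType.sign (polyVal (φ.atoms.get a) w)) : φ.Holds v ↔ φ.Holds w := by
  apply φ.holds_congr
  intro p hp
  obtain ⟨a, rfl⟩ := List.get_of_mem hp
  exact h a

/-- The witness for a non-closed set. -/
theorem exists_TT (n : ℕ) (φ : Fml) (hncl : ¬ IsClosed {x : Fin n → ℝ | φ.Holds (extend x)}) :
    ∀ᶠ δ in 𝓝[>] (0 : ℝ), ∀ ε > 0, TT n φ ε δ := by
  obtain ⟨xs, hxs, hxn⟩ : ∃ xs, xs ∈ closure {x : Fin n → ℝ | φ.Holds (extend x)} ∧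
      xs ∉ {x : Fin n → ℝ | φ.Holds (extend x)} := by
    by_contra hcon
    push Not at hcon
    exact hncl (isClosed_of_closure_subset hcon)
  have h1 : ∀ l : List Poly, ∀ᶠ δ in 𝓝[>] (0 : ℝ), ∀ p ∈ l, polyVal p (extend xs) = 0 ∨
      δ ≤ polyVal p (extend xs) ∨ polyVal p (extend xs) ≤ -δ := by
    intro l
    induction l with
    | nil => simp
    | cons p l ih =>
      have h2 : ∀ᶠ δ in 𝓝[>] (0 : ℝ), polyVal p (extend xs) = 0 ∨
          δ ≤ polyVal p (extend xs) ∨ polyVal p (extend xs) ≤ -δ := by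
        by_cases h0 : polyVal p (extend xs) = 0
        · exact Eventually.of_forall fun _ => Or.inl h0
        · have h3 : 0 < |polyVal p (extend xs)| := abs_pos.mpr h0
          have h4 : ∀ᶠ δ in 𝓝[>] (0 : ℝ), δ < |polyVal p (extend xs)| :=
            nhdsWithin_le_nhds (Iio_mem_nhds h3)
          filter_upwards [h4] with δ hδ
          rcases lt_abs.mp hδ with h | h
          · exact Or.inr (Or.inl h.le)
          · exact Or.inr (Or.inr (by linarith))
      filter_upwards [h2, ih] with δ h3 h4 q hq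
      rcases List.mem_cons.mp hq with rfl | hq
      · exact h3
      · exact h4 q hq
  have h2 : ∀ᶠ δ in 𝓝[>] (0 : ℝ), ∀ i, |δ * xs i| ≤ 1 := by
    rw [eventually_all]
    intro i
    have h3 : Tendsto (fun δ : ℝ => |δ * xs i|) (𝓝[>] 0) (𝓝 0) := by
      have : Tendsto (fun δ : ℝ => |δ * xs i|) (𝓝 0) (𝓝 |0 * xs i|) := by
        apply Continuous.tendsto (f := fun δ : ℝ => |δ * xs i|)
        fun_prop
      rw [zero_mul, abs_zero] at this
      exact this.mono_left nhdsWithin_le_nhds
    exact (h3.eventually (Iio_mem_nhds one_pos)).mono fun δ hδ => le_of_lt hδ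
  filter_upwards [h1 φ.atoms, h2] with δ h3 h4 ε hε
  rw [Metric.mem_closure_iff] at hxs
  obtain ⟨y, hy, hd⟩ := hxs ε hε
  refine ⟨xs, y, hy, hxn, h3, fun i => ?_, h4⟩
  have h5 : |xs i - y i| = dist (xs i) (y i) := rfl
  rw [h5]
  exact (dist_le_pi_dist xs y i).trans hd.le

/-- The main equivalence. -/
theorem not_isClosed_iff (n : ℕ) (φ : Fml) (m : ℕ) (hm : 1 ≤ m) (hn : n ≤ m)
    (hφ : φ.enc.length ≤ m) (ε δ : ℝ)
    (hR : Region (hBd (4 * n + 2 * φ.atoms.length) (2 ^ (m + 3)) (2 ^ (3 * m + 8)))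
      (kBd (4 * n + 2 * φ.atoms.length) (2 ^ (m + 3))) ![ε, δ]) :
    ¬ IsClosed {x : Fin n → ℝ | φ.Holds (extend x)} ↔ TT n φ ε δ := by
  have hl : φ.atoms.length ≤ m := (length_atoms_le φ).trans hφ
  have hnorm : ∀ p ∈ φ.atoms, polyNorm p < 2 ^ m := fun p hp =>
    (polyNorm_lt p).trans_le (Nat.pow_le_pow_right (by norm_num)
      ((length_encPoly_le φ p hp).trans hφ))
  have hdeg : ∀ p ∈ φ.atoms, ∀ q ∈ p, monoDeg q ≤ 2 ^ m := fun p hp q hq =>
    (monoDeg_le_of_mem p q hq).trans (Nat.pow_le_pow_right (by norm_num)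
      ((length_encPoly_le φ p hp).trans hφ))
  set H := hBd (4 * n + 2 * φ.atoms.length) (2 ^ (m + 3)) (2 ^ (3 * m + 8)) with hH
  set k := kBd (4 * n + 2 * φ.atoms.length) (2 ^ (m + 3)) with hk
  -- transfer of the truth of patterns
  have key : ∀ (σ τ : Fin φ.atoms.length → SignType) (δ δ' ε ε' : ℝ), Region H k ![ε, δ] →
      Region H k ![ε', δ'] → Pat n φ.atoms σ τ ε δ → Pat n φ.atoms σ τ ε' δ' := by
    intro σ τ δ δ' ε ε' h h' hP
    have hε : 0 < ε := h.2.2.1
    have hε' : 0 < ε' := h'.2.2.1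
    rw [pat_iff _ _ _ _ _ _ hε.le] at hP
    rw [pat_iff _ _ _ _ _ _ hε'.le]
    obtain ⟨b1, b2⟩ := sysF_bounds n φ.atoms σ τ m hm hn hl hnorm hdeg
    have hc : Fintype.card (Idx n φ.atoms.length) = 4 * n + 2 * φ.atoms.length := card_Idx _ _
    refine gap_region (sysF n φ.atoms σ τ) (2 ^ (m + 3)) (2 ^ (3 * m + 8)) ?_ ?_ b1 b2
      (ev_sysF_nonneg n φ.atoms σ τ) δ δ' ε ε' ?_ ?_ hP
    · exact (Nat.even_pow.mpr ⟨by decide, by omega⟩)
    · exact Nat.one_le_two_pow
    · rw [hc]; exact h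
    · rw [hc]; exact h'
  -- transfer for `TT`
  have keyT : ∀ (δ δ' ε ε' : ℝ), Region H k ![ε, δ] → Region H k ![ε', δ'] →
      TT n φ ε δ → TT n φ ε' δ' := by
    rintro δ δ' ε ε' h h' ⟨x, y, h1, h2, h3, h4, h5⟩
    have hδ : 0 < δ := h.1
    have hδ' : 0 < δ' := h'.1
    obtain ⟨x', y', g1, g2, g3, g4⟩ := key
      (fun a => SignType.sign (polyVal (φ.atoms.get a) (extend y)))
      (fun a => SignType.sign (polyVal (φ.atoms.get a) (extend x))) δ δ' ε ε' h h'
      ⟨x, y, fun a => rfl, fun a => cond_of_tri hδ (h3 _ (List.get_mem _ a)), h4, h5⟩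
    refine ⟨x', y', ?_, ?_, ?_, g3, g4⟩
    · exact (holds_of_sign_eq φ _ _ g1).mpr h1
    · intro hx'
      exact h2 ((holds_of_sign_eq φ _ _ fun a => cond_sign hδ' (g2 a)).mp hx')
    · intro p hp
      obtain ⟨a, rfl⟩ := List.get_of_mem hp
      exact tri_of_cond (g2 a)
  have hδpos : 0 < δ := hR.1
  have hεpos : 0 < ε := hR.2.2.1
  constructor
  · intro hncl
    have h1 := exists_TT n φ hncl
    have h2 : ∀ᶠ δ' in 𝓝[>] (0 : ℝ), δ' < δ :=
      nhdsWithin_le_nhds (Iio_mem_nhds hδpos)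
    have h3 : ∀ᶠ δ' in 𝓝[>] (0 : ℝ), 0 < δ' := self_mem_nhdsWithin
    obtain ⟨δ', h4, h5, h6⟩ := (h1.and (h2.and h3)).exists
    have hHpos : (0 : ℝ) < 2 * H + 1 := by positivity
    have hR' : Region H k ![δ' ^ k / (2 * H + 1), δ'] := by
      refine ⟨h6, ?_, ?_, ?_⟩
      · have := hR.2.1
        simp only [Matrix.cons_val_one] at this ⊢
        exact (mul_le_mul_of_nonneg_right h5.le (by positivity)).trans this
      · simp only [Matrix.cons_val_zero]
        positivity
      · simp only [Matrix.cons_val_zero, Matrix.cons_val_one]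
        rw [div_mul_eq_mul_div, div_le_iff₀ hHpos]
        have : 0 ≤ δ' ^ k := by positivity
        nlinarith
    exact keyT δ' δ _ ε hR' hR (h4 _ (by positivity))
  · rintro ⟨x, y, h1, h2, h3, h4, h5⟩
    refine not_isClosed_of_pat n φ (fun a => SignType.sign (polyVal (φ.atoms.get a) (extend y)))
      (fun a => SignType.sign (polyVal (φ.atoms.get a) (extend x))) δ hδpos
      (fun j => ε / (j + 1)) ?_ ?_ ?_ ?_
    · exact tendsto_const_div_atTop_nhds_zero_nat ε |>.comp (tendsto_add_atTop_nat 1) |>.congr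
        fun j => by simp
    · intro j
      refine key _ _ δ δ ε _ hR ?_ ⟨x, y, fun a => rfl,
        fun a => cond_of_tri hδpos (h3 _ (List.get_mem _ a)), h4, h5⟩
      have hj : (0 : ℝ) < (j : ℝ) + 1 := by positivity
      refine ⟨hδpos, hR.2.1, ?_, ?_⟩
      · simp only [Matrix.cons_val_zero]; positivity
      · have := hR.2.2.2
        simp only [Matrix.cons_val_zero, Matrix.cons_val_one] at this ⊢
        refine le_trans ?_ this
        refine mul_le_mul_of_nonneg_right ?_ (by positivity)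
        rw [div_le_iff₀ hj]
        nlinarith [(Nat.cast_nonneg j : (0 : ℝ) ≤ j)]
    · intro v hv
      exact (holds_of_sign_eq φ _ _ hv).mpr h1
    · intro v hv hφv
      exact h2 ((holds_of_sign_eq φ _ _ hv).mp hφv)

end Pool.Agent.H90.Closed
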