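import Pool.Agent.H90.Closed.Reduction

set_option autoImplicit false
set_option linter.unusedSectionVars false

namespace Pool.Agent.H90.Closed

theorem polyVal_congr_wf (n : ℕ) (E : Set ℕ) (p : Poly) (hp : PolyWF n E p) (v w : ℕ → ℝ)
    (h : ∀ i < n, v i = w i) : polyVal p v = polyVal p w := by
  unfold polyVal
  congr 1
  refine List.map_congr_left fun m hm => ?_
  unfold monoVal
  congr 2
  refine List.map_congr_left fun f hf => ?_
  rw [h f.1 (hp m hm f hf).1]

theorem holds_congr_wf (n : ℕ) (E : Set ℕ) (φ : Fml) (hφ : φ.WF n E) (v w : ℕ → ℝ)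
    (h : ∀ i < n, v i = w i) : φ.Holds v ↔ φ.Holds w := by
  induction φ with
  | eq p => simp only [Fml.Holds]; rw [polyVal_congr_wf n E p hφ v w h]
  | gt p => simp only [Fml.Holds]; rw [polyVal_congr_wf n E p hφ v w h]
  | ge p => simp only [Fml.Holds]; rw [polyVal_congr_wf n E p hφ v w h]
  | not φ ih => exact not_congr (ih hφ)
  | and φ ψ ih1 ih2 => exact and_congr (ih1 hφ.1) (ih2 hφ.2)
  | or φ ψ ih1 ih2 => exact or_congr (ih1 hφ.1) (ih2 hφ.2)

theorem nonempty_iff {E : Set ℕ} (I : Inst E) : I.set.Nonempty ↔ ∃ v, I.φ.Holds v := by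
  constructor
  · rintro ⟨x, hx⟩
    exact ⟨extend x, hx⟩
  · rintro ⟨v, hv⟩
    refine ⟨fun i => v i, ?_⟩
    refine (holds_congr_wf I.n E I.φ I.wf _ _ ?_).mpr hv
    intro i hi
    simp [extend, hi]

theorem wf_atoms {n : ℕ} {E : Set ℕ} {φ : Fml} (h : φ.WF n E) : ∀ p ∈ φ.atoms, PolyWF n E p := by
  induction φ with
  | eq p => intro q hq; simp only [Fml.atoms, List.mem_singleton] at hq; subst hq; exact h
  | gt p => intro q hq; simp only [Fml.atoms, List.mem_singleton] at hq; subst hq; exact h
  | ge p => intro q hq; simp only [Fml.atoms, List.mem_singleton] at hq; subst hq; exact h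
  | not φ ih => exact ih h
  | and φ ψ ih1 ih2 =>
    intro q hq
    simp only [Fml.atoms, List.mem_append] at hq
    rcases hq with hq | hq
    · exact ih1 h.1 q hq
    · exact ih2 h.2 q hq
  | or φ ψ ih1 ih2 =>
    intro q hq
    simp only [Fml.atoms, List.mem_append] at hq
    rcases hq with hq | hq
    · exact ih1 h.1 q hq
    · exact ih2 h.2 q hq

theorem length_encFactor_le (p : Poly) (m : Mono) (hm : m ∈ p) (f : ℕ × ℕ) (hf : f ∈ m.2) :
    (encFactor f).length ≤ (encPoly p).length := by
  have h1 : (encMono m).length ≤ (encPoly p).length := by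
    have h4 : (encMono m).length ≤ ((p.map encMono).map List.length).sum :=
      List.le_sum_of_mem (List.mem_map_of_mem (List.mem_map_of_mem hm))
    unfold encPoly
    rw [List.length_append, List.length_flatMap]
    rw [List.map_map] at h4
    have h5 : (List.length ∘ encMono) = fun a => (encMono a).length := rfl
    rw [h5] at h4
    omega
  have h2 : (encFactor f).length ≤ (encMono m).length := by
    have h4 : (encFactor f).length ≤ ((m.2.map encFactor).map List.length).sum :=
      List.le_sum_of_mem (List.mem_map_of_mem (List.mem_map_of_mem hf))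
    unfold encMono
    rw [List.length_cons, List.length_append, List.length_flatMap]
    rw [List.map_map] at h4
    have h5 : (List.length ∘ encFactor) = fun a => (encFactor a).length := rfl
    rw [h5] at h4
    omega
  exact h2.trans h1

theorem trBits_mem (L c i : ℕ) (bs : List Bool) (j : ℕ) (g : ℕ × ℕ) (hg : g ∈ trBits L c i bs j) :
    ∃ j', j' < j + bs.length ∧ g = (4 * (i + L * j') + c, 1) := by
  induction bs generalizing j with
  | nil => simp [trBits] at hg
  | cons b bs ih =>
    rw [trBits, List.mem_append] at hg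
    rcases hg with hg | hg
    · split_ifs at hg
      · simp only [List.mem_singleton] at hg
        exact ⟨j, by simp, hg⟩
      · simp at hg
    · obtain ⟨j', h1, h2⟩ := ih (j + 1) hg
      exact ⟨j', by simp; omega, h2⟩

theorem trPoly_wf (L c n : ℕ) (hc : c ≤ 3) (hn : n ≤ L) (p : Poly)
    (hp : ∀ m ∈ p, ∀ f ∈ m.2, f.1 < n ∧ (Nat.bits f.2).length ≤ L + 1) :
    PolyWF (4 * (L * L + L)) {1} (trPoly L c p) := by
  intro m hm g hg
  unfold trPoly at hm
  rw [List.mem_map] at hm
  obtain ⟨m', hm', rfl⟩ := hm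
  simp only [trMono, List.mem_flatMap] at hg
  obtain ⟨f, hf, hg⟩ := hg
  obtain ⟨h1, h2⟩ := hp m' hm' f hf
  obtain ⟨j, hj, rfl⟩ := trBits_mem L c f.1 _ 0 g hg
  refine ⟨?_, rfl⟩
  have h3 : L * j ≤ L * L := Nat.mul_le_mul_left _ (by omega)
  simp only
  omega

theorem tr_wf (L c n : ℕ) (hc : c ≤ 3) (hn : n ≤ L) (φ : Fml)
    (hp : ∀ p ∈ φ.atoms, ∀ m ∈ p, ∀ f ∈ m.2, f.1 < n ∧ (Nat.bits f.2).length ≤ L + 1) :
    (φ.tr L c).WF (4 * (L * L + L)) {1} := by
  induction φ with
  | eq p => exact trPoly_wf L c n hc hn p (hp p (by simp [Fml.atoms]))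
  | gt p => exact trPoly_wf L c n hc hn p (hp p (by simp [Fml.atoms]))
  | ge p => exact trPoly_wf L c n hc hn p (hp p (by simp [Fml.atoms]))
  | not φ ih => exact ih hp
  | and φ ψ ih1 ih2 =>
    exact ⟨ih1 fun p hq => hp p (by simp [Fml.atoms, hq]),
      ih2 fun p hq => hp p (by simp [Fml.atoms, hq])⟩
  | or φ ψ ih1 ih2 =>
    exact ⟨ih1 fun p hq => hp p (by simp [Fml.atoms, hq]),
      ih2 fun p hq => hp p (by simp [Fml.atoms, hq])⟩

theorem andAll_wf (n : ℕ) (E : Set ℕ) (l : List Fml) (h : ∀ φ ∈ l, φ.WF n E) :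
    (andAll l).WF n E := by
  induction l with
  | nil => intro m hm; simp at hm
  | cons a l ih =>
    exact ⟨h a (by simp), ih fun φ hφ => h φ (by simp [hφ])⟩

theorem outList_wf (L n : ℕ) (hL : 0 < L) (hn : n ≤ L) (φ : Fml)
    (hp : ∀ p ∈ φ.atoms, ∀ m ∈ p, ∀ f ∈ m.2, f.1 < n ∧ (Nat.bits f.2).length ≤ L + 1) :
    ∀ ψ ∈ outList L φ, ψ.WF (4 * (L * L + L)) {1} := by
  intro ψ hψ
  have hLL : L ≤ L * L := Nat.le_mul_self L
  simp only [outList, List.mem_append, List.mem_flatMap, List.mem_range, List.mem_cons,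
    List.mem_map] at hψ
  rcases hψ with ⟨i, hi, hψ⟩ | ⟨k, hk, hψ⟩ | hψ | hψ | hψ | ⟨p, hp', rfl⟩
  · simp only [boundsF, List.mem_cons, List.not_mem_nil, or_false] at hψ
    rcases hψ with rfl | rfl | rfl | rfl <;>
    · simp only [Fml.WF, PolyWF, List.mem_cons, List.not_mem_nil, or_false, forall_eq_or_imp,
        forall_eq, Set.mem_singleton_iff, and_true, false_implies, implies_true, true_and,
        IsEmpty.forall_iff]
      omega
  · simp only [blockF, List.mem_cons, List.not_mem_nil, or_false] at hψ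
    rcases hψ with rfl | rfl | rfl | rfl <;>
    · simp only [Fml.WF, PolyWF, List.mem_cons, List.not_mem_nil, or_false, forall_eq_or_imp,
        forall_eq, Set.mem_singleton_iff, and_true, false_implies, implies_true, true_and,
        IsEmpty.forall_iff]
      omega
  · simp only [finalF, List.mem_cons, List.not_mem_nil, or_false] at hψ
    rcases hψ with rfl | rfl <;>
    · simp only [Fml.WF, PolyWF, List.mem_cons, List.not_mem_nil, or_false, forall_eq_or_imp,
        forall_eq, Set.mem_singleton_iff, and_true, false_implies, implies_true, true_and,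
        IsEmpty.forall_iff]
      omega
  · rw [hψ]; exact tr_wf L 3 n (by omega) hn φ hp
  · rw [hψ]; exact tr_wf L 2 n (by omega) hn φ hp
  · have h1 := trPoly_wf L 2 n (by omega) hn p (hp p hp')
    have h2 : ∀ c : ℤ, PolyWF (4 * (L * L + L)) {1} (trPoly L 2 p ++ [(c, [(0, 1)])]) := by
      intro c m hm
      rw [List.mem_append] at hm
      rcases hm with hm | hm
      · exact h1 m hm
      · simp only [List.mem_singleton] at hm
        subst hm
        intro f hf
        simp only [List.mem_singleton] at hf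
        subst hf
        simp only [Set.mem_singleton_iff, and_true]
        omega
    exact ⟨h1, h2 _, h2 _⟩

theorem inst_bits {E : Set ℕ} (I : Inst E) : ∀ p ∈ I.φ.atoms, ∀ m ∈ p, ∀ f ∈ m.2,
    f.1 < I.n ∧ (Nat.bits f.2).length ≤ LL I.enc.length + 1 := by
  intro p hp m hm f hf
  refine ⟨(wf_atoms I.wf p hp m hm f hf).1, ?_⟩
  have h1 := length_encFactor_le p m hm f hf
  have h2 := length_encPoly_le I.φ p hp
  have h3 : (Nat.bits f.2).length ≤ (encFactor f).length := by
    simp only [encFactor, encNat, List.length_cons, List.length_append, List.length_map]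
    omega
  have h4 : I.φ.enc.length ≤ I.enc.length := by
    simp only [Inst.enc, List.length_append, List.length_cons]
    omega
  unfold LL
  omega

theorem inst_n_le {E : Set ℕ} (I : Inst E) : I.n ≤ LL I.enc.length := by
  have h4 : I.n ≤ I.enc.length := by
    simp only [Inst.enc, List.length_append, List.length_cons, List.length_replicate]
    omega
  unfold LL
  omega

/-- The reduction. -/
def red {E : Set ℕ} (I : Inst E) : Inst {1} where
  n := 4 * (LL I.enc.length * LL I.enc.length + LL I.enc.length)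
  φ := andAll (outList (LL I.enc.length) I.φ)
  wf := andAll_wf _ _ _ (outList_wf _ I.n (by unfold LL; omega) (inst_n_le I) I.φ (inst_bits I))

theorem region_del_eps (K H k : ℕ) (hH : 2 * H ≤ 2 ^ (2 ^ K)) (hk : k + 1 ≤ 2 ^ K) :
    Region H k ![eps K, del K] := by
  have h1 : (0 : ℝ) < del K := by unfold del; positivity
  have h2 : del K * (2 * H) ≤ 1 := by
    unfold del
    have h3 : (2 * (H : ℝ)) ≤ 2 ^ (2 ^ K) := by exact_mod_cast hH
    calc (1 / 2 : ℝ) ^ (2 ^ K) * (2 * H) ≤ (1 / 2 : ℝ) ^ (2 ^ K) * 2 ^ (2 ^ K) := by gcongr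
      _ = 1 := by rw [← mul_pow]; norm_num
  have h3 : del K ≤ 1 := by
    unfold del
    exact pow_le_one₀ (by norm_num) (by norm_num)
  refine ⟨h1, h2, ?_, ?_⟩
  · simp only [Matrix.cons_val_zero]
    unfold eps; positivity
  · simp only [Matrix.cons_val_zero, Matrix.cons_val_one]
    unfold eps
    calc del K ^ (2 ^ K) * (2 * H) ≤ del K ^ (k + 1) * (2 * H) := by
          have := pow_le_pow_of_le_one h1.le h3 hk
          gcongr
      _ = del K ^ k * (del K * (2 * H)) := by ring
      _ ≤ del K ^ k * 1 := by gcongr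
      _ = _ := mul_one _

/-- Correctness of the reduction. -/
theorem red_correct {E : Set ℕ} (I : Inst E) : ¬ IsClosed I.set ↔ (red I).set.Nonempty := by
  have hm : 1 ≤ I.enc.length := by
    simp only [Inst.enc, List.length_append, List.length_cons]
    omega
  have hn : I.n ≤ I.enc.length := by
    simp only [Inst.enc, List.length_append, List.length_cons, List.length_replicate]
    omega
  have hφ : I.φ.enc.length ≤ I.enc.length := by
    simp only [Inst.enc, List.length_append, List.length_cons]
    omega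
  have hsum : 4 * I.n + 2 * I.φ.atoms.length ≤ 6 * I.enc.length := by
    have := length_atoms_le I.φ
    omega
  have hR := region_del_eps (LL I.enc.length * LL I.enc.length) _ _
    (hBd_le I.enc.length _ hsum) (kBd_le I.enc.length _ hsum)
  rw [nonempty_iff]
  refine (not_isClosed_iff I.n I.φ I.enc.length hm hn hφ _ _ hR).trans ?_
  exact (out_iff_TT (LL I.enc.length) I.n I.φ (by unfold LL; omega) (inst_n_le I)
    (inst_bits I)).symm

end Pool.Agent.H90.Closed
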