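import Pool.Agent.H90.Closed.Sep
import Pool.Agent.H90.Closed.Explicit

set_option autoImplicit false

namespace Pool.Agent.H90.Closed

/-- States in which the auxiliary stacks are empty. -/
def st (inp acc cnt r1 r3 ell save : List Tok) : Sx :=
  ⟨inp, [], acc, cnt, r1, [], r3, [], [], ell, save, [], []⟩

/-- The first phase: three stacks of length `4 (m + 1)`. -/
def phase1 : Cmd :=
  .seq (.loop .inp Option.isSome (.seq (.move .inp .save)
      (.seq (push4 .r1) (.seq (push4 .r3) (push4 .ell)))))
    (.seq (moveAll .save .inp) (.seq (push4 .r1) (.seq (push4 .r3) (push4 .ell))))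

theorem run_push3 (inp acc cnt save : List Tok) (a : ℕ) :
    Run (.seq (push4 .r1) (.seq (push4 .r3) (push4 .ell)))
      (st inp acc cnt (ones a) (ones a) (ones a) save)
      (st inp acc cnt (ones (4 + a)) (ones (4 + a)) (ones (4 + a)) save) 12 := by
  have e : ones 4 ++ ones a = ones (4 + a) := by rw [← List.replicate_add]
  refine (Run.seq (run_push4 .r1 _) (Run.seq (run_push4 .r3 _) (run_push4 .ell _))).cast ?_ le_rfl
  apply Sx.ext
  case r1 => exact e
  case r3 => exact e
  case ell => exact e
  all_goals rfl

theorem run_phase1_aux (X : List Tok) : ∀ (save : List Tok) (a : ℕ),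
    Run (.loop .inp Option.isSome (.seq (.move .inp .save)
      (.seq (push4 .r1) (.seq (push4 .r3) (push4 .ell)))))
      (st X [] [] (ones a) (ones a) (ones a) save)
      (st [] [] [] (ones (4 * X.length + a)) (ones (4 * X.length + a)) (ones (4 * X.length + a))
        (X.reverse ++ save)) (14 * X.length + 1) := by
  induction X with
  | nil =>
    intro save a
    refine (Run.loop_done (k := .inp) rfl).cast ?_ (by simp)
    simp [st]
  | cons t X ih =>
    intro save a
    have a1 : Run (.move .inp .save) (st (t :: X) [] [] (ones a) (ones a) (ones a) save)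
        (st X [] [] (ones a) (ones a) (ones a) (t :: save)) 1 :=
      (Run.move .inp .save _).cast rfl le_rfl
    have a2 := run_push3 X [] [] (t :: save) a
    have a3 := ih (t :: save) (4 + a)
    refine (Run.loop_step (k := .inp) rfl (Run.seq a1 a2) a3).cast ?_ ?_
    · have e2 : 4 * X.length + (4 + a) = 4 * (t :: X).length + a := by
        simp only [List.length_cons]; ring
      rw [e2]
      simp [st]
    · simp only [List.length_cons]; omega

theorem run_phase1 (w : List Tok) : Run phase1 (st w [] [] [] [] [] [])
    (st w [] [] (ones (LL w.length)) (ones (LL w.length)) (ones (LL w.length)) [])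
      (16 * w.length + 14) := by
  have a1 := run_phase1_aux w [] 0
  have a2 := run_moveAll_aux .save .inp (by decide) (w.reverse ++ [])
    (st [] [] [] (ones (4 * w.length + 0)) (ones (4 * w.length + 0)) (ones (4 * w.length + 0))
        (w.reverse ++ [])) rfl
  have a3 := run_push3 w [] [] [] (4 * w.length + 0)
  have e : (((st [] [] [] (ones (4 * w.length + 0)) (ones (4 * w.length + 0))
      (ones (4 * w.length + 0)) (w.reverse ++ [])).set .save []).set .inp
      ((w.reverse ++ []).reverse ++ (st [] [] [] (ones (4 * w.length + 0)) (ones (4 * w.length + 0))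
      (ones (4 * w.length + 0)) (w.reverse ++ [])).get .inp)) =
      st w [] [] (ones (4 * w.length + 0)) (ones (4 * w.length + 0)) (ones (4 * w.length + 0)) [] := by
    apply Sx.ext <;> simp [st, Sx.get, Sx.set]
  rw [e] at a2
  refine (Run.seq a1 (Run.seq a2 a3)).cast ?_ ?_
  · have e3 : 4 + (4 * w.length + 0) = LL w.length := by unfold LL; ring
    rw [e3]
  · simp only [List.length_append, List.length_reverse, List.length_nil]
    omega

/-- The body for the header. -/
def headBody : Cmd := .seq (emitL .one [.one, .one, .one]) (push4 .cnt)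

theorem bodySpec_head (J L : ℕ) : BodySpec headBody (fun _ => ones 4) 8 J L := by
  intro s j _ h1 _ _
  have a1 := emits_emitL .one [.one, .one, .one] s
  have a2 := run_push4 .cnt { s with acc := ([Tok.one, .one, .one, .one] : List Tok).reverse ++ s.acc }
  refine (Run.seq a1 a2).cast ?_ ?_
  · have e1 : ones 4 ++ ones (4 * j) = ones (4 * (j + 1)) := by
      rw [← List.replicate_add]
      congr 1
      ring
    apply Sx.ext
    case cnt => simpa only [Sx.get, Sx.set, h1] using e1
    all_goals simp [Sx.get, Sx.set, List.replicate]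
  · simp

theorem run_clearCnt (inp acc r1 r3 ell save : List Tok) (a : ℕ) :
    Run (clearStk .cnt) (st inp acc (ones a) r1 r3 ell save) (st inp acc [] r1 r3 ell save)
      (2 * a + 1) :=
  (run_clear .cnt (ones a) _ rfl).cast rfl (by simp)

theorem run_st_emit (t : Tok) (l inp acc cnt r1 r3 ell save : List Tok) :
    Run (emitL t l) (st inp acc cnt r1 r3 ell save)
      (st inp ((t :: l).reverse ++ acc) cnt r1 r3 ell save) (l.length + 1) :=
  emits_emitL t l _

theorem run_st_inner {body : Cmd} {w : ℕ → List Tok} {C J L : ℕ} (h : BodySpec body w C J L)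
    (inp acc save : List Tok) (j : ℕ) (hj : j + L ≤ J) :
    Run (innerC body) (st inp acc (ones (4 * j)) (ones L) (ones L) (ones L) save)
      (st inp (((List.range' j L).flatMap w).reverse ++ acc) (ones (4 * (j + L))) (ones L)
        (ones L) (ones L) save) ((C + 4) * L + 2) :=
  (run_inner h L (st inp acc (ones (4 * j)) (ones L) (ones L) (ones L) save) j hj rfl rfl rfl rfl
    rfl).cast rfl le_rfl

theorem run_st_outer {body : Cmd} {w : ℕ → List Tok} {C J L : ℕ} (h : BodySpec body w C J L)
    (inp acc save : List Tok) (j : ℕ) (hj : j + L * L ≤ J) :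
    Run (outerC body) (st inp acc (ones (4 * j)) (ones L) (ones L) (ones L) save)
      (st inp (((List.range' j (L * L)).flatMap w).reverse ++ acc) (ones (4 * (j + L * L)))
        (ones L) (ones L) (ones L) save) (((C + 4) * L + 6) * L + 2) :=
  (run_outer h L L (st inp acc (ones (4 * j)) (ones L) (ones L) (ones L) save) j hj rfl rfl rfl rfl
    rfl rfl rfl).cast rfl le_rfl

/-- The second phase: the header. -/
def phase2 : Cmd :=
  .seq (innerC headBody) (.seq (outerC headBody) (.seq (clearStk .cnt) (emitL .sep [])))

theorem flatMap_ones (j n : ℕ) : (List.range' j n).flatMap (fun _ => ones 4) = ones (4 * n) := by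
  induction n generalizing j with
  | zero => simp
  | succ n ih =>
    rw [List.range'_succ, List.flatMap_cons, ih, ← List.replicate_add]
    congr 1
    ring

def cost2 (L : ℕ) : ℕ := (12 * L + 2) + (((12 * L + 6) * L + 2) + ((8 * (L + L * L) + 1) + 1))

theorem run_phase2 (inp : List Tok) (L : ℕ) :
    Run phase2 (st inp [] [] (ones L) (ones L) (ones L) [])
      (st inp (ones (4 * (L * L + L)) ++ [Tok.sep]).reverse [] (ones L) (ones L) (ones L) [])
      (cost2 L) := by
  have a1 := run_st_inner (bodySpec_head (L + L * L) L) inp [] [] 0 (by omega)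
  rw [flatMap_ones] at a1
  simp only [Nat.zero_add, Nat.mul_zero, List.replicate_zero, List.append_nil] at a1
  have a2 := run_st_outer (bodySpec_head (L + L * L) L) inp (ones (4 * L)).reverse [] L le_rfl
  rw [flatMap_ones] at a2
  have a3 := run_clearCnt inp ((ones (4 * (L * L))).reverse ++ (ones (4 * L)).reverse) (ones L)
    (ones L) (ones L) [] (4 * (L + L * L))
  have a4 := run_st_emit .sep [] inp ((ones (4 * (L * L))).reverse ++ (ones (4 * L)).reverse) []
    (ones L) (ones L) (ones L) []
  refine (Run.seq a1 (Run.seq a2 (Run.seq a3 a4))).cast ?_ ?_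
  · congr 1
    rw [List.reverse_append, List.reverse_singleton]
    simp only [List.reverse_replicate]
    congr 1
    rw [← List.replicate_add]
    congr 1
    ring
  · unfold cost2
    simp only [List.length_nil]
    norm_num
    omega

/-! The third phase: the bounds. -/

def szSum (l : List Piece) : ℕ := (l.map Piece.sz).sum

def costB (l : List Piece) (J L : ℕ) : ℕ := szSum l + 8 * (4 * J + L) * l.length + 4

theorem bodySpec_bounds (J L : ℕ) :
    BodySpec (.seq (progL (.lit .tand [.tge, .plus, .b1, .tvar, .one, .b1, .minus, .b1])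
      boundsP.tail) (push4 .cnt)) (fun j => encC (boundsF j)) (costB boundsP J L) J L := by
  have h := bodySpec_pieces (.lit .tand [.tge, .plus, .b1, .tvar, .one, .b1, .minus, .b1])
    boundsP.tail J L (costB boundsP J L) le_rfl
  have e : (fun j => encC (boundsF j)) = fun j =>
      (Piece.lit .tand [.tge, .plus, .b1, .tvar, .one, .b1, .minus, .b1] ::
        boundsP.tail).flatMap (Piece.tok j L) := by
    funext j
    exact (boundsP_tok j L).symm
  rw [e]
  exact h

theorem bodySpec_block (J L : ℕ) :
    BodySpec (.seq (progL (.lit .tand [.teq, .plus, .b1]) blockP.tail) (push4 .cnt))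
      (fun j => encC (blockF L j)) (costB blockP J L) J L := by
  have h := bodySpec_pieces (.lit .tand [.teq, .plus, .b1])
    blockP.tail J L (costB blockP J L) le_rfl
  have e : (fun j => encC (blockF L j)) = fun j =>
      (Piece.lit .tand [.teq, .plus, .b1] :: blockP.tail).flatMap (Piece.tok j L) := by
    funext j
    exact (blockP_tok j L).symm
  rw [e]
  exact h

theorem encC_flatMap (l : List ℕ) (g : ℕ → List Fml) :
    encC (l.flatMap g) = l.flatMap fun j => encC (g j) := by
  induction l with
  | nil => rfl
  | cons a l ih => rw [List.flatMap_cons, encC_append, ih, List.flatMap_cons]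

def phase3 : Cmd :=
  .seq (innerC (.seq (progL (.lit .tand [.tge, .plus, .b1, .tvar, .one, .b1, .minus, .b1])
      boundsP.tail) (push4 .cnt))) (.seq (clearStk .cnt)
    (.seq (outerC (.seq (progL (.lit .tand [.teq, .plus, .b1]) blockP.tail) (push4 .cnt)))
      (.seq (progL (.lit .tand [.teq, .plus, .b0, .b1]) finalP.tail) (clearStk .cnt))))

def cost3 (L : ℕ) : ℕ :=
  ((costB boundsP L L + 4) * L + 2) + ((8 * L + 1) +
    ((((costB blockP (L * L) L + 4) * L + 6) * L + 2) +
      (costB finalP (L * L) L + (8 * (L * L) + 1))))

theorem run_phase3 (inp acc : List Tok) (L : ℕ) :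
    Run phase3 (st inp acc [] (ones L) (ones L) (ones L) [])
      (st inp ((encC ((List.range L).flatMap boundsF ++ ((List.range (L * L)).flatMap (blockF L) ++
        finalF (L * L)))).reverse ++ acc) [] (ones L) (ones L) (ones L) [])
      (cost3 L) := by
  have a1 := run_st_inner (bodySpec_bounds L L) inp acc [] 0 (by omega)
  simp only [Nat.zero_add, Nat.mul_zero, List.replicate_zero] at a1
  rw [← List.range_eq_range', ← encC_flatMap] at a1
  set A1 := (encC ((List.range L).flatMap boundsF)).reverse ++ acc with hA1
  have a2 := run_clearCnt inp A1 (ones L) (ones L) (ones L) [] (4 * L)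
  have a3 := run_st_outer (bodySpec_block (L * L) L) inp A1 [] 0 (by omega)
  simp only [Nat.zero_add, Nat.mul_zero, List.replicate_zero] at a3
  rw [← List.range_eq_range', ← encC_flatMap] at a3
  set A3 := (encC ((List.range (L * L)).flatMap (blockF L))).reverse ++ A1 with hA3
  have a4 := emits_progL (.lit .tand [.teq, .plus, .b0, .b1]) finalP.tail (L * L) L
    (st inp A3 (ones (4 * (L * L))) (ones L) (ones L) (ones L) []) rfl rfl rfl
  have e4 : ((Piece.lit .tand [.teq, .plus, .b0, .b1]) :: finalP.tail).flatMap
      (Piece.tok (L * L) L) = encC (finalF (L * L)) := finalP_tok (L * L) L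
  rw [e4] at a4
  have a4' : Run (progL (.lit .tand [.teq, .plus, .b0, .b1]) finalP.tail)
      (st inp A3 (ones (4 * (L * L))) (ones L) (ones L) (ones L) [])
      (st inp ((encC (finalF (L * L))).reverse ++ A3) (ones (4 * (L * L))) (ones L) (ones L)
        (ones L) []) (costB finalP (L * L) L) := Run.cast a4 rfl (by
          show szSum finalP + 8 * (4 * (L * L) + L) * finalP.length ≤ costB finalP (L * L) L
          unfold costB; omega)
  have a5 := run_clearCnt inp ((encC (finalF (L * L))).reverse ++ A3) (ones L)
    (ones L) (ones L) [] (4 * (L * L))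
  refine (Run.seq a1 (Run.seq a2 (Run.seq a3 (Run.seq a4' a5)))).cast ?_ ?_
  · congr 1
    rw [hA3, hA1, encC_append, encC_append]
    simp
  · unfold cost3
    omega

/-- Remove the header of the input. -/
def phase4 : Cmd := .seq (.loop .inp isOne (.drop .inp)) (.drop .inp)

theorem run_phase4_aux (n : ℕ) (rest acc cnt r1 r3 ell save : List Tok)
    (h : isOne rest.head? = false) :
    Run (.loop .inp isOne (.drop .inp)) (st (ones n ++ rest) acc cnt r1 r3 ell save)
      (st rest acc cnt r1 r3 ell save) (2 * n + 1) := by
  induction n with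
  | zero =>
    refine (Run.loop_done (k := .inp) (by simpa [st, Sx.get] using h)).cast ?_ (by simp)
    simp
  | succ n ih =>
    have e : ones (n + 1) ++ rest = Tok.one :: (ones n ++ rest) := by simp [List.replicate_succ]
    rw [e]
    have a1 : Run (.drop .inp) (st (Tok.one :: (ones n ++ rest)) acc cnt r1 r3 ell save)
      (st (ones n ++ rest) acc cnt r1 r3 ell save) 1 := (Run.drop .inp _).cast rfl le_rfl
    exact (Run.loop_step (k := .inp) rfl a1 ih).cast rfl (by omega)

theorem run_phase4 (n : ℕ) (rest acc cnt r1 r3 ell save : List Tok) :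
    Run phase4 (st (ones n ++ Tok.sep :: rest) acc cnt r1 r3 ell save)
      (st rest acc cnt r1 r3 ell save) (2 * n + 2) :=
  (Run.seq (run_phase4_aux n (Tok.sep :: rest) acc cnt r1 r3 ell save rfl)
    (Run.drop .inp _)).cast rfl le_rfl

/-- The translations of the formula. -/
def phase5 : Cmd :=
  .seq (emitL .tand []) (.seq (.seq (trLoop 3 Option.isSome) (moveAll .save .inp))
    (.seq (emitL .tand [.tnot]) (.seq (.seq (trLoop 2 Option.isSome) (moveAll .save .inp))
      (.seq sepLoop (emitL .teq [.tend])))))

def cost5 (L : ℕ) : ℕ :=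
  1 + (((facCost L + 4) * L + 2) + (2 + (((facCost L + 4) * L + 2) +
    (((atomCost L + 5) * L + 1) + 2))))

theorem run_phase5 (φ : Fml) (acc : List Tok) (L : ℕ) (hφ : φ.enc.length ≤ L) :
    Run phase5 (st φ.enc acc [] (ones L) (ones L) (ones L) [])
      (st [] ((encC (φ.tr L 3 :: .not (φ.tr L 2) :: φ.atoms.map (sepF L)) ++
        [Tok.teq, Tok.tend]).reverse ++ acc) [] (ones L) (ones L) (ones L) φ.enc.reverse)
      (cost5 L) := by
  have a1 := run_st_emit .tand [] φ.enc acc [] (ones L) (ones L) (ones L) []
  set A1 := ([Tok.tand] : List Tok).reverse ++ acc with hA1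
  have a2 : Run (.seq (trLoop 3 Option.isSome) (moveAll .save .inp))
      (st φ.enc A1 [] (ones L) (ones L) (ones L) [])
      (st φ.enc ((φ.tr L 3).enc.reverse ++ A1) [] (ones L) (ones L) (ones L) [])
      ((facCost L + 4) * L + 2) :=
    (run_trAll 3 L L le_rfl le_rfl φ (st φ.enc A1 [] (ones L) (ones L) (ones L) []) hφ
      rfl rfl rfl rfl rfl rfl rfl).cast rfl le_rfl
  set A2 := (φ.tr L 3).enc.reverse ++ A1 with hA2
  have a3 := run_st_emit .tand [.tnot] φ.enc A2 [] (ones L) (ones L) (ones L) []
  set A3 := ([Tok.tand, Tok.tnot] : List Tok).reverse ++ A2 with hA3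
  have a4 : Run (.seq (trLoop 2 Option.isSome) (moveAll .save .inp))
      (st φ.enc A3 [] (ones L) (ones L) (ones L) [])
      (st φ.enc ((φ.tr L 2).enc.reverse ++ A3) [] (ones L) (ones L) (ones L) [])
      ((facCost L + 4) * L + 2) :=
    (run_trAll 2 L L (by omega) le_rfl φ (st φ.enc A3 [] (ones L) (ones L) (ones L) []) hφ
      rfl rfl rfl rfl rfl rfl rfl).cast rfl le_rfl
  set A4 := (φ.tr L 2).enc.reverse ++ A3 with hA4
  have a5 := run_sepLoop L L le_rfl φ (st φ.enc A4 [] (ones L) (ones L) (ones L) [])
    (st [] ((encC (φ.atoms.map (sepF L))).reverse ++ A4) [] (ones L) (ones L) (ones L)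
      φ.enc.reverse) [] 1 hφ (by simp [st]) rfl rfl rfl rfl rfl (by
        refine (Run.loop_done (k := .inp) rfl).cast ?_ le_rfl
        simp [st])
  set A5 := (encC (φ.atoms.map (sepF L))).reverse ++ A4 with hA5
  have a6 := run_st_emit .teq [.tend] [] A5 [] (ones L) (ones L) (ones L) φ.enc.reverse
  refine (Run.seq a1 (Run.seq a2 (Run.seq a3 (Run.seq a4 (Run.seq a5 a6))))).cast ?_ ?_
  · congr 1
    rw [hA5, hA4, hA3, hA2, hA1]
    simp [encC, Fml.enc]
  · unfold cost5
    have := Nat.mul_le_mul_left (atomCost L + 5) hφ
    simp only [List.length_nil, List.length_cons]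
    omega

/-- Cleaning up. -/
def phase6 : Cmd := .seq (clearStk .save) (.seq (clearStk .r1) (.seq (clearStk .r3) (clearStk .ell)))

theorem run_phase6 (acc save : List Tok) (L : ℕ) (hs : save.length ≤ L) :
    Run phase6 (st [] acc [] (ones L) (ones L) (ones L) save) (st [] acc [] [] [] [] [])
      (8 * L + 4) := by
  have a1 := run_clear .save save (st [] acc [] (ones L) (ones L) (ones L) save) rfl
  have a2 := run_clear .r1 (ones L) (st [] acc [] (ones L) (ones L) (ones L) []) rfl
  have a3 := run_clear .r3 (ones L) (st [] acc [] [] (ones L) (ones L) []) rfl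
  have a4 := run_clear .ell (ones L) (st [] acc [] [] [] (ones L) []) rfl
  refine (Run.seq a1 (Run.seq a2 (Run.seq a3 a4))).cast rfl ?_
  simp only [List.length_replicate]
  omega

/-- The whole program. -/
def redProg : Cmd :=
  .seq (.seq phase1 (.seq phase2 (.seq phase3 (.seq phase4 (.seq phase5 phase6)))))
    (moveAll .acc .out)

/-- Every step pushes at most one token on each stack. -/
theorem doMove_length (s : Sx) (k k' j : Stk) :
    ((doMove s k k').get j).length ≤ (s.get j).length + 1 := by
  unfold doMove
  cases hk : s.get k with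
  | nil => simp
  | cons t l =>
    simp only [Sx.get_set]
    by_cases h1 : j = k'
    · subst h1
      rw [Function.update_self]
      by_cases h2 : j = k
      · subst h2
        rw [Function.update_self, hk]
        simp
      · rw [Function.update_of_ne h2]
        simp
    · rw [Function.update_of_ne h1]
      by_cases h2 : j = k
      · subst h2
        rw [Function.update_self, hk]
        simp
        omega
      · rw [Function.update_of_ne h2]
        omega

theorem exec_length {c : Cmd} {s s' : Sx} {n : ℕ} (h : Exec c s s' n) (j : Stk) :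
    (s'.get j).length ≤ (s.get j).length + n := by
  induction h with
  | push k t s =>
    rw [Sx.get_set]
    by_cases h1 : j = k
    · subst h1; rw [Function.update_self]; simp
    · rw [Function.update_of_ne h1]; omega
  | drop k s =>
    rw [Sx.get_set]
    by_cases h1 : j = k
    · subst h1; rw [Function.update_self]; simp; omega
    · rw [Function.update_of_ne h1]; omega
  | move k k' s => exact doMove_length s k k' j
  | copyTop k k' s =>
    unfold doCopy
    cases hk : s.get k with
    | nil => simp
    | cons t l =>
      simp only [Sx.get_set]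
      by_cases h1 : j = k'
      · subst h1; rw [Function.update_self]; simp
      · rw [Function.update_of_ne h1]; omega
  | seq _ _ ih1 ih2 => omega
  | ite_true _ _ ih => omega
  | ite_false _ _ ih => omega
  | loop_done _ => omega
  | loop_step _ _ _ ih1 ih2 => omega

theorem run_length {c : Cmd} {s s' : Sx} {n : ℕ} (h : Run c s s' n) (j : Stk) :
    (s'.get j).length ≤ (s.get j).length + n := by
  obtain ⟨n', h1, h2⟩ := h
  have := exec_length h2 j
  omega

/-- The time bound of the main part. -/
def costM (m : ℕ) : ℕ :=
  (16 * m + 14) + (cost2 (LL m) + (cost3 (LL m) + ((2 * m + 2) + (cost5 (LL m) +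
    (8 * LL m + 4)))))

theorem run_redProg {E : Set ℕ} (I : Inst E) :
    Run redProg { Sx.empty with inp := I.enc } { Sx.empty with out := (red I).enc }
      (3 * costM I.enc.length + 1) := by
  set m := I.enc.length with hm
  have hφ : I.φ.enc.length ≤ LL m := by
    have : I.φ.enc.length ≤ m := by
      simp only [hm, Inst.enc, List.length_append, List.length_cons]
      omega
    unfold LL
    omega
  have hn : I.n ≤ m := by
    simp only [hm, Inst.enc, List.length_append, List.length_cons, List.length_replicate]
    omega
  have a1 := run_phase1 I.enc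
  have a2 := run_phase2 I.enc (LL m)
  have a3 := run_phase3 I.enc (ones (4 * (LL m * LL m + LL m)) ++ [Tok.sep]).reverse (LL m)
  set A3 := (encC ((List.range (LL m)).flatMap boundsF ++ ((List.range (LL m * LL m)).flatMap (blockF (LL m)) ++
        finalF (LL m * LL m)))).reverse ++ (ones (4 * (LL m * LL m + LL m)) ++ [Tok.sep]).reverse with hA3
  have a4 : Run phase4 (st I.enc A3 [] (ones (LL m)) (ones (LL m)) (ones (LL m)) [])
      (st I.φ.enc A3 [] (ones (LL m)) (ones (LL m)) (ones (LL m)) []) (2 * m + 2) :=
    (run_phase4 I.n I.φ.enc A3 [] (ones (LL m)) (ones (LL m)) (ones (LL m)) []).mono (by omega)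
  have a5 := run_phase5 I.φ A3 (LL m) hφ
  set A5 := (encC (I.φ.tr (LL m) 3 :: .not (I.φ.tr (LL m) 2) :: I.φ.atoms.map (sepF (LL m))) ++
        [Tok.teq, Tok.tend]).reverse ++ A3 with hA5
  have a6 := run_phase6 A5 I.φ.enc.reverse (LL m) (by rw [List.length_reverse]; exact hφ)
  have b1 := Run.seq a1 (Run.seq a2 (Run.seq a3 (Run.seq a4 (Run.seq a5 a6))))
  have hlen := run_length b1 .acc
  have hlen' : A5.length ≤ costM m := by
    have e : (st I.enc [] [] [] [] [] []).get .acc = [] := rfl
    rw [e] at hlen
    exact hlen.trans (by simp [costM, hm])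
  have b2 := run_moveAll_aux .acc .out (by decide) A5 (st [] A5 [] [] [] [] []) rfl
  refine (Run.seq b1 b2).cast ?_ ?_
  · have e : (red I).enc = A5.reverse := by
      rw [hA5, hA3]
      simp only [List.reverse_append, List.reverse_reverse]
      unfold Inst.enc
      show ones (4 * (LL m * LL m + LL m)) ++ Tok.sep :: (andAll (outList (LL m) I.φ)).enc = _
      rw [andAll_enc]
      unfold outList
      rw [encC_append, encC_append, encC_append, encC_append, encC_append]
      simp
    rw [e]
    apply Sx.ext <;> simp [Sx.empty, st, Sx.get, Sx.set]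
  · have e2 : 16 * I.enc.length + 14 + (cost2 (LL m) + (cost3 (LL m) + (2 * m + 2 + (cost5 (LL m) + (8 * LL m + 4))))) = costM m := rfl
    omega

end Pool.Agent.H90.Closed
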