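import Pool.Agent.H90.Closed.L1

set_option autoImplicit false

namespace Pool.Agent.H90.Closed

open MvPolynomial

/-- Value of the monomial with exponents `a0,a1,a2,a3` at `s,x,ε,δ`. -/
theorem monomial_ratio (H k : ℕ) (hH : 1 ≤ H) (δ ε s x : ℝ) (hδ : 0 < δ)
    (hδ1 : δ * (2 * H) ≤ 1) (hε : 0 < ε) (hε1 : ε * (2 * H) ≤ δ ^ k)
    (hs : 2 * H ≤ s * (δ * ε) ^ k) (hx : 2 * H * s ^ k ≤ x * (δ * ε) ^ k)
    (a0 a1 a2 a3 b0 b1 b2 b3 : ℕ) (ha0 : a0 ≤ k) (hb2 : b2 ≤ k) (hb3 : b3 ≤ k)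
    (h : a1 < b1 ∨ (a1 = b1 ∧ a0 < b0) ∨ (a1 = b1 ∧ a0 = b0 ∧ b2 < a2) ∨
      (a1 = b1 ∧ a0 = b0 ∧ a2 = b2 ∧ b3 < a3)) :
    (s ^ a0 * x ^ a1 * ε ^ a2 * δ ^ a3) * (2 * H) ≤ s ^ b0 * x ^ b1 * ε ^ b2 * δ ^ b3 := by
  have hH' : (1 : ℝ) ≤ H := by exact_mod_cast hH
  have hδle : δ ≤ 1 := by nlinarith
  have hδk : δ ^ k ≤ 1 := pow_le_one₀ hδ.le hδle
  have hεle : ε ≤ 1 := by nlinarith
  have hεk : ε ^ k ≤ 1 := pow_le_one₀ hε.le hεle
  have hδεk : (δ * ε) ^ k ≤ 1 := by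
    rw [mul_pow]; exact mul_le_one₀ hδk (by positivity) hεk
  have hδεpos : 0 < (δ * ε) ^ k := by positivity
  have hs1 : 1 ≤ s := by
    by_contra hcon
    push Not at hcon
    have h1 : s * (δ * ε) ^ k < 2 := by
      by_cases h0 : 0 ≤ s
      · nlinarith
      · push Not at h0
        nlinarith
    nlinarith
  have hx1 : 1 ≤ x := by
    by_contra hcon
    push Not at hcon
    have h0 : 1 ≤ s ^ k := one_le_pow₀ hs1
    have h1 : x * (δ * ε) ^ k < 2 := by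
      by_cases h0 : 0 ≤ x
      · nlinarith
      · push Not at h0
        nlinarith
    nlinarith
  have hs0 : 0 < s := by linarith
  have hx0 : 0 < x := by linarith
  have hε2 : ε ^ k ≤ ε ^ b2 := pow_le_pow_of_le_one hε.le hεle hb2
  have hδ3 : δ ^ k ≤ δ ^ b3 := pow_le_pow_of_le_one hδ.le hδle hb3
  have hεa : ε ^ a2 ≤ 1 := pow_le_one₀ hε.le hεle
  have hδa : δ ^ a3 ≤ 1 := pow_le_one₀ hδ.le hδle
  have hsa : s ^ a0 ≤ s ^ k := pow_le_pow_right₀ hs1 ha0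
  have hlow : (δ * ε) ^ k ≤ ε ^ b2 * δ ^ b3 := by
    rw [mul_pow, mul_comm]
    exact mul_le_mul hε2 hδ3 (by positivity) (by positivity)
  rcases h with h | ⟨h1, h⟩ | ⟨h1, h2, h⟩ | ⟨h1, h2, h3, h⟩
  · obtain ⟨c, rfl⟩ : ∃ c, b1 = a1 + 1 + c := ⟨b1 - a1 - 1, by omega⟩
    have e1 : s ^ a0 * x ^ a1 * ε ^ a2 * δ ^ a3 ≤ s ^ k * x ^ a1 := by
      calc s ^ a0 * x ^ a1 * ε ^ a2 * δ ^ a3 ≤ s ^ k * x ^ a1 * 1 * 1 := by gcongr
        _ = _ := by ring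
    have e2 : s ^ k * (2 * H) * x ^ a1 ≤ x ^ (a1 + 1 + c) * (ε ^ b2 * δ ^ b3) := by
      calc s ^ k * (2 * H) * x ^ a1 = (2 * H * s ^ k) * x ^ a1 := by ring
        _ ≤ (x * (δ * ε) ^ k) * x ^ a1 := by gcongr
        _ = x ^ (a1 + 1) * (δ * ε) ^ k := by ring
        _ ≤ x ^ (a1 + 1 + c) * (ε ^ b2 * δ ^ b3) := by
          have := pow_le_pow_right₀ hx1 (show a1 + 1 ≤ a1 + 1 + c by omega)
          exact mul_le_mul this hlow (by positivity) (by positivity)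
    calc (s ^ a0 * x ^ a1 * ε ^ a2 * δ ^ a3) * (2 * H) ≤ (s ^ k * x ^ a1) * (2 * H) := by gcongr
      _ = s ^ k * (2 * H) * x ^ a1 := by ring
      _ ≤ x ^ (a1 + 1 + c) * (ε ^ b2 * δ ^ b3) := e2
      _ = 1 * (x ^ (a1 + 1 + c) * (ε ^ b2 * δ ^ b3)) := by ring
      _ ≤ s ^ b0 * (x ^ (a1 + 1 + c) * (ε ^ b2 * δ ^ b3)) := by
        gcongr
        exact one_le_pow₀ hs1
      _ = _ := by ring
  · subst h1
    obtain ⟨c, rfl⟩ : ∃ c, b0 = a0 + 1 + c := ⟨b0 - a0 - 1, by omega⟩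
    have e1 : s ^ a0 * x ^ a1 * ε ^ a2 * δ ^ a3 ≤ s ^ a0 * x ^ a1 := by
      calc s ^ a0 * x ^ a1 * ε ^ a2 * δ ^ a3 ≤ s ^ a0 * x ^ a1 * 1 * 1 := by gcongr
        _ = _ := by ring
    calc (s ^ a0 * x ^ a1 * ε ^ a2 * δ ^ a3) * (2 * H) ≤ (s ^ a0 * x ^ a1) * (2 * H) := by gcongr
      _ = (2 * H) * (s ^ a0 * x ^ a1) := by ring
      _ ≤ (s * (δ * ε) ^ k) * (s ^ a0 * x ^ a1) := by gcongr
      _ = s ^ (a0 + 1) * x ^ a1 * (δ * ε) ^ k := by ring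
      _ ≤ s ^ (a0 + 1 + c) * x ^ a1 * (ε ^ b2 * δ ^ b3) := by
          have := pow_le_pow_right₀ hs1 (show a0 + 1 ≤ a0 + 1 + c by omega)
          gcongr
      _ = _ := by ring
  · subst h1 h2
    obtain ⟨c, rfl⟩ : ∃ c, a2 = b2 + 1 + c := ⟨a2 - b2 - 1, by omega⟩
    have e0 : ε ^ (b2 + 1 + c) ≤ ε ^ (b2 + 1) := pow_le_pow_of_le_one hε.le hεle (by omega)
    calc (s ^ a0 * x ^ a1 * ε ^ (b2 + 1 + c) * δ ^ a3) * (2 * H)
        ≤ (s ^ a0 * x ^ a1 * ε ^ (b2 + 1) * 1) * (2 * H) := by gcongr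
      _ = s ^ a0 * x ^ a1 * ε ^ b2 * (ε * (2 * H)) := by ring
      _ ≤ s ^ a0 * x ^ a1 * ε ^ b2 * δ ^ k := by gcongr
      _ ≤ s ^ a0 * x ^ a1 * ε ^ b2 * δ ^ b3 := by gcongr
  · subst h1 h2 h3
    obtain ⟨c, rfl⟩ : ∃ c, a3 = b3 + 1 + c := ⟨a3 - b3 - 1, by omega⟩
    have e0 : δ ^ (b3 + 1 + c) ≤ δ ^ (b3 + 1) := pow_le_pow_of_le_one hδ.le hδle (by omega)
    calc (s ^ a0 * x ^ a1 * ε ^ a2 * δ ^ (b3 + 1 + c)) * (2 * H)
        ≤ (s ^ a0 * x ^ a1 * ε ^ a2 * δ ^ (b3 + 1)) * (2 * H) := by gcongr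
      _ = s ^ a0 * x ^ a1 * ε ^ a2 * δ ^ b3 * (δ * (2 * H)) := by ring
      _ ≤ s ^ a0 * x ^ a1 * ε ^ a2 * δ ^ b3 * 1 := by gcongr
      _ = _ := by ring

theorem lex_nonvanish (P : MvPolynomial (Fin 4) ℤ) (hP : P ≠ 0) (k H : ℕ)
    (hk : ∀ m ∈ P.support, ∀ i, m i ≤ k) (hH : l1 P ≤ H) (δ ε s x : ℝ) (hδ : 0 < δ)
    (hδ1 : δ * (2 * H) ≤ 1) (hε : 0 < ε) (hε1 : ε * (2 * H) ≤ δ ^ k)
    (hs : 2 * H ≤ s * (δ * ε) ^ k) (hx : 2 * H * s ^ k ≤ x * (δ * ε) ^ k) :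
    aeval (![s, x, ε, δ] : Fin 4 → ℝ) P ≠ 0 := by
  classical
  have hne : P.support.Nonempty := by
    rwa [Finset.nonempty_iff_ne_empty, Ne, MvPolynomial.support_eq_empty]
  obtain ⟨m0, hm0, hmin⟩ := Finset.exists_min_image P.support
    (fun m : Fin 4 →₀ ℕ => toLex ((-(m 1 : ℤ)), toLex ((-(m 0 : ℤ)), toLex (m 2, m 3)))) hne
  have hc0 : P.coeff m0 ≠ 0 := by simpa using hm0
  have hH1 : 1 ≤ H := by
    refine le_trans ?_ hH
    unfold l1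
    calc 1 ≤ (P.coeff m0).natAbs := Int.natAbs_pos.mpr hc0
      _ ≤ _ := Finset.single_le_sum (f := fun m => (P.coeff m).natAbs) (fun _ _ => Nat.zero_le _) hm0
  set T : (Fin 4 →₀ ℕ) → ℝ := fun m => s ^ m 0 * x ^ m 1 * ε ^ m 2 * δ ^ m 3 with hT
  have heval : aeval (![s, x, ε, δ] : Fin 4 → ℝ) P = ∑ m ∈ P.support, ((P.coeff m : ℤ) : ℝ) * T m := by
    rw [MvPolynomial.aeval_def, MvPolynomial.eval₂_eq']
    refine Finset.sum_congr rfl fun m _ => ?_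
    simp only [hT, Fin.prod_univ_four]
    simp
  have hs1 : 0 < s := by
    have h0 : (0 : ℝ) < 2 * H := by positivity
    have h1 : 0 < s * (δ * ε) ^ k := lt_of_lt_of_le h0 hs
    exact (pos_iff_pos_of_mul_pos h1).mpr (by positivity)
  have hx1 : 0 < x := by
    have h0 : (0 : ℝ) < 2 * H * s ^ k := by positivity
    have h1 : 0 < x * (δ * ε) ^ k := lt_of_lt_of_le h0 hx
    exact (pos_iff_pos_of_mul_pos h1).mpr (by positivity)
  have hTpos : 0 < T m0 := by simp only [hT]; positivity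
  have hratio : ∀ m ∈ P.support.erase m0, |((P.coeff m : ℤ) : ℝ) * T m| ≤
      ((P.coeff m).natAbs : ℝ) * (T m0 / (2 * H)) := by
    intro m hm
    rw [Finset.mem_erase] at hm
    have hle := hmin m hm.2
    have hTm : 0 ≤ T m := by simp only [hT]; positivity
    rw [abs_mul, abs_of_nonneg hTm]
    have hcast : |((P.coeff m : ℤ) : ℝ)| = ((P.coeff m).natAbs : ℝ) := by
      rw [← Int.cast_abs, Int.abs_eq_natAbs]; simp
    rw [hcast]
    refine mul_le_mul_of_nonneg_left ?_ (by positivity)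
    rw [le_div_iff₀ (by positivity)]
    refine monomial_ratio H k hH1 δ ε s x hδ hδ1 hε hε1 hs hx _ _ _ _ _ _ _ _
      (hk m hm.2 0) (hk m0 hm0 2) (hk m0 hm0 3) ?_
    rw [Prod.Lex.toLex_le_toLex] at hle
    rcases hle with h | ⟨h1, h⟩
    · left; simpa using h
    · rw [Prod.Lex.toLex_le_toLex] at h
      simp only at h1 h
      rcases h with h | ⟨h2, h⟩
      · right; left; refine ⟨by omega, by omega⟩
      · rw [Prod.Lex.toLex_le_toLex] at h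
        simp only at h
        rcases h with h | ⟨h3, h⟩
        · right; right; left; refine ⟨by omega, by omega, h⟩
        · right; right; right
          refine ⟨by omega, by omega, h3.symm, ?_⟩
          rcases lt_or_eq_of_le h with h | h
          · exact h
          · exfalso
            apply hm.1
            ext i
            fin_cases i
            · simp; omega
            · simp; omega
            · exact h3.symm
            · exact h.symm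
  rw [heval, ← Finset.add_sum_erase _ _ hm0]
  intro hzero
  have h1 : |∑ m ∈ P.support.erase m0, ((P.coeff m : ℤ) : ℝ) * T m| ≤ T m0 / 2 := by
    refine (Finset.abs_sum_le_sum_abs _ _).trans ?_
    refine (Finset.sum_le_sum hratio).trans ?_
    rw [← Finset.sum_mul]
    have h2 : (∑ m ∈ P.support.erase m0, ((P.coeff m).natAbs : ℝ)) ≤ H := by
      have : (∑ m ∈ P.support.erase m0, (P.coeff m).natAbs) ≤ H := by
        refine le_trans ?_ hH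
        unfold l1
        exact Finset.sum_le_sum_of_subset (Finset.erase_subset _ _)
      exact_mod_cast this
    calc (∑ m ∈ P.support.erase m0, ((P.coeff m).natAbs : ℝ)) * (T m0 / (2 * H))
        ≤ H * (T m0 / (2 * H)) := by gcongr
      _ = T m0 / 2 := by field_simp
  have h2 : ((P.coeff m0 : ℤ) : ℝ) * T m0 = -∑ m ∈ P.support.erase m0, ((P.coeff m : ℤ) : ℝ) * T m := by
    linarith
  have h3 : T m0 ≤ |((P.coeff m0 : ℤ) : ℝ) * T m0| := by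
    rw [abs_mul, abs_of_pos hTpos]
    have : (1 : ℝ) ≤ |((P.coeff m0 : ℤ) : ℝ)| := by
      rw [← Int.cast_abs]
      exact_mod_cast Int.one_le_abs hc0
    nlinarith
  rw [h2, abs_neg] at h3
  linarith

end Pool.Agent.H90.Closed
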