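import Pool.Agent.H90.Closed.CharPoly
import Pool.Agent.H90.Closed.LexDom

set_option autoImplicit false
set_option linter.unusedSectionVars false

namespace Pool.Agent.H90.Closed

open MvPolynomial

variable {ι : Type} [Fintype ι] [DecidableEq ι]

theorem G_def (F : MvPolynomial (ι ⊕ Fin 2) ℤ) (D : ℕ) (y : ι → ℝ) (x : ℝ) (t : Fin 2 → ℝ) :
    G F D y x t = ((D + 2 : ℕ) : ℝ) * x * ev F y t + ∑ i, y i ^ (D + 2) := rfl

theorem ev_continuous (F : MvPolynomial (ι ⊕ Fin 2) ℤ) :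
    Continuous fun p : (ι → ℝ) × (Fin 2 → ℝ) => ev F p.1 p.2 := by
  have h : (fun p : (ι → ℝ) × (Fin 2 → ℝ) => ev F p.1 p.2) = fun p => ∑ m ∈ F.support,
      ((F.coeff m : ℤ) : ℝ) *
      ((∏ i, p.1 i ^ m (Sum.inl i)) * (p.2 0 ^ m (Sum.inr 0) * p.2 1 ^ m (Sum.inr 1))) := by
    ext p; exact ev_eq F p.1 p.2
  rw [h]
  fun_prop

theorem G_continuous (F : MvPolynomial (ι ⊕ Fin 2) ℤ) (D : ℕ) (x : ℝ) :
    Continuous fun p : (ι → ℝ) × (Fin 2 → ℝ) => G F D p.1 x p.2 := by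
  unfold G
  have h1 := ev_continuous F
  have h2 : Continuous fun p : (ι → ℝ) × (Fin 2 → ℝ) => ∑ i, p.1 i ^ (D + 2) := by fun_prop
  exact (continuous_const.mul h1).add h2

theorem hasDerivAt_aeval {σ : Type} [DecidableEq σ] (P : MvPolynomial σ ℤ) (v : σ → ℝ) (i : σ) :
    HasDerivAt (fun s : ℝ => aeval (Function.update v i s) P) (aeval v (pderiv i P)) (v i) := by
  induction P using MvPolynomial.induction_on with
  | C a =>
    simp only [pderiv_C, map_zero, aeval_C]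
    exact hasDerivAt_const _ _
  | add p q hp hq =>
    simp only [map_add]
    exact hp.add hq
  | mul_X p j hp =>
    simp only [map_mul, aeval_X, pderiv_mul, map_add]
    have h2 : HasDerivAt (fun s : ℝ => Function.update v i s j) (aeval v (pderiv i (X j : MvPolynomial σ ℤ))) (v i) := by
      by_cases hij : j = i
      · subst hij
        simp only [Function.update_self, pderiv_X_self, map_one]
        exact hasDerivAt_id _
      · rw [pderiv_X_of_ne hij, map_zero]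
        simp only [Function.update_of_ne hij]
        exact hasDerivAt_const _ _
    have h3 := hp.mul h2
    simp only [Function.update_eq_self] at h3
    exact h3

theorem crit_of_min (F : MvPolynomial (ι ⊕ Fin 2) ℤ) (D : ℕ) (y0 : ι → ℝ) (x : ℝ)
    (t : Fin 2 → ℝ) (hmin : ∀ y, G F D y0 x t ≤ G F D y x t) : Crit F D y0 x t := by
  intro i
  have h1 : HasDerivAt (fun s : ℝ => ev F (Function.update y0 i s) t)
      (ev (pderiv (Sum.inl i) F) y0 t) (y0 i) := by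
    have h := hasDerivAt_aeval F (Sum.elim y0 t) (Sum.inl i)
    unfold ev
    simpa only [Sum.update_elim_inl, Sum.elim_inl] using h
  have h2 : HasDerivAt (fun s : ℝ => ∑ j, (Function.update y0 i s j) ^ (D + 2))
      (((D + 2 : ℕ) : ℝ) * y0 i ^ (D + 1)) (y0 i) := by
    have h3 : (fun s : ℝ => ∑ j, (Function.update y0 i s j) ^ (D + 2)) =
        fun s : ℝ => s ^ (D + 2) + ∑ j ∈ Finset.univ.erase i, y0 j ^ (D + 2) := by
      ext s
      rw [← Finset.add_sum_erase _ _ (Finset.mem_univ i)]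
      congr 1
      · simp
      · refine Finset.sum_congr rfl fun j hj => ?_
        rw [Function.update_of_ne (Finset.ne_of_mem_erase hj)]
    rw [h3]
    have h4 := (hasDerivAt_pow (D + 2) (y0 i)).add_const
      (∑ j ∈ Finset.univ.erase i, y0 j ^ (D + 2))
    simpa using h4
  have h5 : HasDerivAt (fun s : ℝ => G F D (Function.update y0 i s) x t)
      (((D + 2 : ℕ) : ℝ) * x * ev (pderiv (Sum.inl i) F) y0 t +
        ((D + 2 : ℕ) : ℝ) * y0 i ^ (D + 1)) (y0 i) := by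
    unfold G
    exact (h1.const_mul _).add h2
  have h6 : IsLocalMin (fun s : ℝ => G F D (Function.update y0 i s) x t) (y0 i) := by
    refine Filter.Eventually.of_forall fun s => ?_
    simp only [Function.update_eq_self]
    exact hmin _
  have h7 := h6.hasDerivAt_eq_zero h5
  have h8 : ((D + 2 : ℕ) : ℝ) ≠ 0 := by positivity
  have h9 : ((D + 2 : ℕ) : ℝ) * (x * ev (pderiv (Sum.inl i) F) y0 t + y0 i ^ (D + 1)) = 0 := by
    rw [← h7]; ring
  have h10 := (mul_eq_zero.mp h9).resolve_left h8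
  linarith

theorem norm_le_of_G_le (F : MvPolynomial (ι ⊕ Fin 2) ℤ) (D : ℕ) (hD : Even D)
    (hnn : ∀ y t, 0 ≤ ev F y t) (x : ℝ) (hx : 0 ≤ x) (t : Fin 2 → ℝ) (C : ℝ) (y : ι → ℝ)
    (h : G F D y x t ≤ C) : ‖y‖ ≤ max 1 C := by
  have hE : Even (D + 2) := hD.add (by decide)
  rw [pi_norm_le_iff_of_nonneg (by positivity)]
  intro i
  rw [Real.norm_eq_abs]
  by_contra hcon
  push Not at hcon
  have h1 : 1 < |y i| := lt_of_le_of_lt (le_max_left _ _) hcon
  have h2 : C < |y i| := lt_of_le_of_lt (le_max_right _ _) hcon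
  have h3 : |y i| ≤ y i ^ (D + 2) := by
    rw [← hE.pow_abs]
    calc |y i| = |y i| ^ 1 := (pow_one _).symm
      _ ≤ |y i| ^ (D + 2) := pow_le_pow_right₀ h1.le (by omega)
  have h4 : y i ^ (D + 2) ≤ ∑ j, y j ^ (D + 2) :=
    Finset.single_le_sum (f := fun j => y j ^ (D + 2)) (fun j _ => hE.pow_nonneg _)
      (Finset.mem_univ i)
  have h5 : 0 ≤ ((D + 2 : ℕ) : ℝ) * x * ev F y t := mul_nonneg (mul_nonneg (by positivity) hx) (hnn y t)
  unfold G at h
  linarith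

attribute [local irreducible] ev G hBd kBd

theorem exists_min_eq_aux {E : Type} [NormedAddCommGroup E] [ProperSpace E] (g : ℝ × E → ℝ)
    (hc : Continuous g) (C R : ℝ) (hle : ∀ l y, g (l, y) ≤ C → ‖y‖ ≤ R)
    (ha : ∃ y, g (0, y) ≤ C) (hb : ∀ y, C ≤ g (1, y)) :
    ∃ l ∈ Set.Icc (0 : ℝ) 1, ∃ y0, g (l, y0) = C ∧ ∀ y, C ≤ g (l, y) := by
  have hAclosed : IsClosed {l | l ∈ Set.Icc (0 : ℝ) 1 ∧ ∃ y, g (l, y) ≤ C} := by
    have h1 : {l | l ∈ Set.Icc (0 : ℝ) 1 ∧ ∃ y, g (l, y) ≤ C} =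
        Prod.fst '' ((Set.Icc (0 : ℝ) 1 ×ˢ Metric.closedBall (0 : E) R) ∩
        {p : ℝ × E | g p ≤ C}) := by
      ext l
      constructor
      · rintro ⟨hl, y, hy⟩
        refine ⟨(l, y), ⟨⟨hl, ?_⟩, hy⟩, rfl⟩
        rw [mem_closedBall_zero_iff]
        exact hle l y hy
      · rintro ⟨⟨l', y⟩, ⟨⟨hl, _⟩, hy⟩, rfl⟩
        exact ⟨hl, y, hy⟩
    rw [h1]
    refine (IsCompact.image ?_ continuous_fst).isClosed
    refine IsCompact.inter_right (isCompact_Icc.prod (isCompact_closedBall _ _)) ?_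
    exact isClosed_le hc continuous_const
  have hBclosed : IsClosed {l | ∀ y, C ≤ g (l, y)} := by
    have : {l | ∀ y, C ≤ g (l, y)} = ⋂ y, {l | C ≤ g (l, y)} := by
      ext l; simp
    rw [this]
    refine isClosed_iInter fun y => isClosed_le continuous_const ?_
    exact hc.comp (continuous_id.prodMk continuous_const)
  have h2 : Set.Icc (0 : ℝ) 1 ⊆ {l | l ∈ Set.Icc (0 : ℝ) 1 ∧ ∃ y, g (l, y) ≤ C} ∪
      {l | ∀ y, C ≤ g (l, y)} := by
    intro l hl
    by_cases h : ∃ y, g (l, y) ≤ C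
    · exact Or.inl ⟨hl, h⟩
    · push Not at h
      exact Or.inr fun y => (h y).le
  have h0 : (0 : ℝ) ∈ Set.Icc (0 : ℝ) 1 := by constructor <;> norm_num
  have h1 : (1 : ℝ) ∈ Set.Icc (0 : ℝ) 1 := by constructor <;> norm_num
  have hA0 : (Set.Icc (0 : ℝ) 1 ∩ {l | l ∈ Set.Icc (0 : ℝ) 1 ∧ ∃ y, g (l, y) ≤ C}).Nonempty :=
    ⟨0, h0, h0, ha⟩
  have hB1 : (Set.Icc (0 : ℝ) 1 ∩ {l | ∀ y, C ≤ g (l, y)}).Nonempty := ⟨1, h1, hb⟩
  obtain ⟨l, hl, hlA, hlB⟩ := isPreconnected_closed_iff.1 isPreconnected_Icc _ _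
    hAclosed hBclosed h2 hA0 hB1
  obtain ⟨_, y0, hy0⟩ := hlA
  exact ⟨l, hl, y0, le_antisymm hy0 (hlB y0), hlB⟩

theorem exists_min_eq (F : MvPolynomial (ι ⊕ Fin 2) ℤ) (D : ℕ) (hD : Even D)
    (hnn : ∀ y t, 0 ≤ ev F y t) (x : ℝ) (hx : 0 ≤ x) (C : ℝ) (t : ℝ → Fin 2 → ℝ)
    (ht : Continuous t) (ha : ∃ y, G F D y x (t 0) ≤ C) (hb : ∀ y, C ≤ G F D y x (t 1)) :
    ∃ l ∈ Set.Icc (0 : ℝ) 1, ∃ y0, G F D y0 x (t l) = C ∧ ∀ y, C ≤ G F D y x (t l) := by
  have hc : Continuous fun p : ℝ × (ι → ℝ) => G F D p.2 x (t p.1) := by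
    have := G_continuous F D x
    exact this.comp (continuous_snd.prodMk (ht.comp continuous_fst))
  have hle : ∀ l y, G F D y x (t l) ≤ C → ‖y‖ ≤ max 1 C := fun l y h =>
    norm_le_of_G_le F D hD hnn x hx (t l) C y h
  generalize hg : (fun (p : ℝ × (ι → ℝ)) => G F D p.2 x (t p.1)) = g at hc
  have hg' : ∀ l y, G F D y x (t l) = g (l, y) := fun l y => by rw [← hg]
  simp only [hg'] at ha hb hle ⊢
  exact exists_min_eq_aux g hc C (max 1 C) hle ha hb

theorem G_large (F : MvPolynomial (ι ⊕ Fin 2) ℤ) (D : ℕ) (hD : Even D)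
    (hnn : ∀ y t, 0 ≤ ev F y t) (t : Fin 2 → ℝ) (hT : ¬ ∃ y, ev F y t = 0) (C : ℝ) :
    ∃ x0 : ℝ, ∀ x, x0 ≤ x → 0 ≤ x → ∀ y, C ≤ G F D y x t := by
  have hc : Continuous fun y : ι → ℝ => ev F y t :=
    (ev_continuous F).comp (continuous_id.prodMk continuous_const)
  obtain ⟨y0, _, hy0⟩ := (isCompact_closedBall (0 : ι → ℝ) (max 1 C)).exists_isMinOn
    ⟨0, by simp⟩ hc.continuousOn
  have hpos : 0 < ev F y0 t := lt_of_le_of_ne (hnn y0 t) fun h => hT ⟨y0, h.symm⟩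
  refine ⟨C / ev F y0 t, fun x hx hx0 y => ?_⟩
  by_contra hcon
  push Not at hcon
  have h1 := norm_le_of_G_le F D hD hnn x hx0 t C y hcon.le
  have h2 : ev F y0 t ≤ ev F y t := hy0 (by rw [mem_closedBall_zero_iff]; exact h1)
  have h3 : C ≤ x * ev F y0 t := by rwa [div_le_iff₀ hpos] at hx
  have h4 : x * ev F y0 t ≤ x * ev F y t := mul_le_mul_of_nonneg_left h2 hx0
  have hE : Even (D + 2) := hD.add (by decide)
  have h5 : 0 ≤ ∑ j, y j ^ (D + 2) := Finset.sum_nonneg fun j _ => hE.pow_nonneg _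
  have h6 : 0 ≤ x * ev F y t := mul_nonneg hx0 (hnn y t)
  rw [G_def] at hcon
  have h7 : x * ev F y t ≤ ((D + 2 : ℕ) : ℝ) * x * ev F y t := by
    have : (1 : ℝ) ≤ ((D + 2 : ℕ) : ℝ) := by push_cast; linarith [(Nat.cast_nonneg D : (0:ℝ) ≤ D)]
    nlinarith
  linarith

/-- The region of parameters. -/
def Region (H k : ℕ) (t : Fin 2 → ℝ) : Prop :=
  0 < t 1 ∧ t 1 * (2 * H) ≤ 1 ∧ 0 < t 0 ∧ t 0 * (2 * H) ≤ t 1 ^ k

theorem gap_path (F : MvPolynomial (ι ⊕ Fin 2) ℤ) (D B : ℕ) (hD : Even D) (hB : 1 ≤ B)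
    (hF : F.totalDegree ≤ D + 1) (hFB : l1 F ≤ B)
    (hnn : ∀ y t, 0 ≤ ev F y t) (t : ℝ → Fin 2 → ℝ) (ht : Continuous t)
    (hR : ∀ l ∈ Set.Icc (0 : ℝ) 1, Region (hBd (Fintype.card ι) D B) (kBd (Fintype.card ι) D) (t l))
    (hT : ∃ y, ev F y (t 0) = 0) : ∃ y, ev F y (t 1) = 0 := by
  obtain ⟨P, hP0, hPk, hPH, hPv⟩ := exists_annihilator B hB hF hFB
  set H := hBd (Fintype.card ι) D B with hHdef
  set k := kBd (Fintype.card ι) D with hkdef
  by_contra hcon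
  obtain ⟨ya, hya⟩ := hT
  -- lower bounds on the path
  obtain ⟨l0, hl0, hmin0⟩ := (isCompact_Icc (a := (0 : ℝ)) (b := 1)).exists_isMinOn
    ⟨0, by simp⟩ (f := fun l => t l 1 * t l 0) (by fun_prop)
  set c := t l0 1 * t l0 0 with hc
  have hcpos : 0 < c := mul_pos (hR l0 hl0).1 (hR l0 hl0).2.2.1
  set C : ℝ := max (∑ i, ya i ^ (D + 2)) (2 * H / c ^ k) with hC
  obtain ⟨x0, hx0⟩ := G_large F D hD hnn (t 1) hcon C
  set x : ℝ := max (max x0 0) (2 * H * C ^ k / c ^ k) with hx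
  have hxpos : 0 ≤ x := (le_max_right x0 0).trans (le_max_left _ _)
  have ha : G F D ya x (t 0) ≤ C := by
    rw [G_def]
    rw [hya, mul_zero, zero_add]
    exact le_max_left _ _
  obtain ⟨l, hl, y0, hy0, hmin⟩ := exists_min_eq F D hD hnn x hxpos C t ht ⟨ya, ha⟩
    (hx0 x ((le_max_left _ _).trans (le_max_left _ _)) hxpos)
  have hcrit := crit_of_min F D y0 x (t l) (by rw [hy0]; exact hmin)
  have hv := hPv y0 x (t l) hcrit
  rw [hy0] at hv
  obtain ⟨h1, h2, h3, h4⟩ := hR l hl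
  have hcl : c ≤ t l 1 * t l 0 := hmin0 hl
  have hpow : c ^ k ≤ (t l 1 * t l 0) ^ k := pow_le_pow_left₀ hcpos.le hcl k
  have hck : 0 < c ^ k := pow_pos hcpos k
  have hC0 : 2 * (H : ℝ) / c ^ k ≤ C := le_max_right _ _
  have hCnn : 0 ≤ C := le_trans (by positivity) hC0
  refine lex_nonvanish P hP0 k H hPk hPH (t l 1) (t l 0) C x h1 h2 h3 h4 ?_ ?_ hv
  · rw [div_le_iff₀ hck] at hC0
    exact hC0.trans (mul_le_mul_of_nonneg_left hpow hCnn)
  · have hx1 : 2 * (H : ℝ) * C ^ k / c ^ k ≤ x := le_max_right _ _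
    rw [div_le_iff₀ hck] at hx1
    exact hx1.trans (mul_le_mul_of_nonneg_left hpow hxpos)

theorem gap_vertical (F : MvPolynomial (ι ⊕ Fin 2) ℤ) (D B : ℕ) (hD : Even D) (hB : 1 ≤ B)
    (hF : F.totalDegree ≤ D + 1) (hFB : l1 F ≤ B) (hnn : ∀ y t, 0 ≤ ev F y t) (δ ε ε' : ℝ)
    (h : Region (hBd (Fintype.card ι) D B) (kBd (Fintype.card ι) D) ![ε, δ])
    (h' : Region (hBd (Fintype.card ι) D B) (kBd (Fintype.card ι) D) ![ε', δ])
    (hT : ∃ y, ev F y ![ε, δ] = 0) : ∃ y, ev F y ![ε', δ] = 0 := by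
  have key := gap_path F D B hD hB hF hFB hnn (fun l => ![(1 - l) * ε + l * ε', δ])
    (by fun_prop) ?_ (by simpa using hT)
  · simpa using key
  · intro l hl
    obtain ⟨a1, a2, a3, a4⟩ := h
    obtain ⟨b1, b2, b3, b4⟩ := h'
    simp only [Matrix.cons_val_zero, Matrix.cons_val_one] at a1 a2 a3 a4 b1 b2 b3 b4
    obtain ⟨hl0, hl1⟩ := hl
    have hl1' : 0 ≤ 1 - l := by linarith
    refine ⟨?_, ?_, ?_, ?_⟩ <;> simp only [Matrix.cons_val_zero, Matrix.cons_val_one]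
    · exact a1
    · exact a2
    · rcases eq_or_lt_of_le hl0 with h | h
      · subst h; simpa using a3
      · have : 0 < l * ε' := mul_pos h b3
        have : 0 ≤ (1 - l) * ε := mul_nonneg hl1' a3.le
        linarith
    · nlinarith

theorem gap_horizontal (F : MvPolynomial (ι ⊕ Fin 2) ℤ) (D B : ℕ) (hD : Even D) (hB : 1 ≤ B)
    (hF : F.totalDegree ≤ D + 1) (hFB : l1 F ≤ B) (hnn : ∀ y t, 0 ≤ ev F y t) (δ δ' ε : ℝ)
    (h : Region (hBd (Fintype.card ι) D B) (kBd (Fintype.card ι) D) ![ε, δ])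
    (h' : Region (hBd (Fintype.card ι) D B) (kBd (Fintype.card ι) D) ![ε, δ'])
    (hT : ∃ y, ev F y ![ε, δ] = 0) : ∃ y, ev F y ![ε, δ'] = 0 := by
  have key := gap_path F D B hD hB hF hFB hnn (fun l => ![ε, (1 - l) * δ + l * δ'])
    (by fun_prop) ?_ (by simpa using hT)
  · simpa using key
  · intro l hl
    obtain ⟨a1, a2, a3, a4⟩ := h
    obtain ⟨b1, b2, b3, b4⟩ := h'
    simp only [Matrix.cons_val_zero, Matrix.cons_val_one] at a1 a2 a3 a4 b1 b2 b3 b4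
    obtain ⟨hl0, hl1⟩ := hl
    have hl1' : 0 ≤ 1 - l := by linarith
    refine ⟨?_, ?_, ?_, ?_⟩ <;> simp only [Matrix.cons_val_zero, Matrix.cons_val_one]
    · rcases eq_or_lt_of_le hl0 with h | h
      · subst h; simpa using a1
      · have : 0 < l * δ' := mul_pos h b1
        have : 0 ≤ (1 - l) * δ := mul_nonneg hl1' a1.le
        linarith
    · nlinarith
    · exact a3
    · rcases le_total δ δ' with hle | hle
      · have : δ ≤ (1 - l) * δ + l * δ' := by nlinarith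
        exact a4.trans (pow_le_pow_left₀ a1.le this _)
      · have : δ' ≤ (1 - l) * δ + l * δ' := by nlinarith
        exact b4.trans (pow_le_pow_left₀ b1.le this _)

/-- The truth value of `∃ y, F = 0` is constant on the region. -/
theorem gap_region (F : MvPolynomial (ι ⊕ Fin 2) ℤ) (D B : ℕ) (hD : Even D) (hB : 1 ≤ B)
    (hF : F.totalDegree ≤ D + 1) (hFB : l1 F ≤ B) (hnn : ∀ y t, 0 ≤ ev F y t)
    (δ δ' ε ε' : ℝ)
    (h : Region (hBd (Fintype.card ι) D B) (kBd (Fintype.card ι) D) ![ε, δ])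
    (h' : Region (hBd (Fintype.card ι) D B) (kBd (Fintype.card ι) D) ![ε', δ'])
    (hT : ∃ y, ev F y ![ε, δ] = 0) : ∃ y, ev F y ![ε', δ'] = 0 := by
  have hm : 0 < min ε ε' := lt_min h.2.2.1 h'.2.2.1
  have h1 : Region (hBd (Fintype.card ι) D B) (kBd (Fintype.card ι) D) ![min ε ε', δ] := by
    obtain ⟨a1, a2, a3, a4⟩ := h
    simp only [Matrix.cons_val_zero, Matrix.cons_val_one] at a1 a2 a3 a4
    refine ⟨a1, a2, hm, ?_⟩
    simp only [Matrix.cons_val_zero, Matrix.cons_val_one]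
    exact (mul_le_mul_of_nonneg_right (min_le_left _ _) (by positivity)).trans a4
  have h2 : Region (hBd (Fintype.card ι) D B) (kBd (Fintype.card ι) D) ![min ε ε', δ'] := by
    obtain ⟨a1, a2, a3, a4⟩ := h'
    simp only [Matrix.cons_val_zero, Matrix.cons_val_one] at a1 a2 a3 a4
    refine ⟨a1, a2, hm, ?_⟩
    simp only [Matrix.cons_val_zero, Matrix.cons_val_one]
    exact (mul_le_mul_of_nonneg_right (min_le_right _ _) (by positivity)).trans a4
  exact gap_vertical F D B hD hB hF hFB hnn δ' _ _ h2 h'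
    (gap_horizontal F D B hD hB hF hFB hnn δ δ' _ h1 h2
      (gap_vertical F D B hD hB hF hFB hnn δ _ _ h h1 hT))

end Pool.Agent.H90.Closed
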