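import Pool.Agent.H90.Closed.Basic

set_option autoImplicit false

namespace Pool.Agent.H90.Closed

/-! ### The encoding of instances is injective -/

theorem span_unique (P : Tok → Bool) {l l' X X' : List Tok} (hl : ∀ t ∈ l, P t = true)
    (hl' : ∀ t ∈ l', P t = true) (hX : ∀ t ∈ X.head?, P t = false)
    (hX' : ∀ t ∈ X'.head?, P t = false) (h : l ++ X = l' ++ X') : l = l' ∧ X = X' := by
  induction l generalizing l' with
  | nil =>
    cases l' with
    | nil => exact ⟨rfl, h⟩
    | cons t l' =>
      rw [List.nil_append, List.cons_append] at h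
      have h1 := hX t (by rw [h]; simp)
      have h2 := hl' t (by simp)
      rw [h1] at h2
      exact absurd h2 (by simp)
  | cons t l ih =>
    cases l' with
    | nil =>
      rw [List.nil_append, List.cons_append] at h
      have h1 := hX' t (by rw [← h]; simp)
      have h2 := hl t (by simp)
      rw [h1] at h2
      exact absurd h2 (by simp)
    | cons t' l' =>
      rw [List.cons_append, List.cons_append, List.cons.injEq] at h
      obtain ⟨h1, h2⟩ := ih (fun t ht => hl t (by simp [ht])) (fun t ht => hl' t (by simp [ht])) h.2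
      exact ⟨by rw [h.1, h1], h2⟩

/-- Tokens that are binary digits. -/
def isDig (t : Tok) : Bool := decide (t = .b0 ∨ t = .b1)

/-- Tokens equal to `one`. -/
def isOn (t : Tok) : Bool := decide (t = .one)

theorem encNat_dig (k : ℕ) : ∀ t ∈ encNat k, isDig t = true := by
  intro t ht
  unfold encNat at ht
  obtain ⟨b, _, rfl⟩ := List.mem_map.1 ht
  cases b <;> simp [isDig]

theorem encNat_injective : Function.Injective encNat := by
  intro a b h
  unfold encNat at h
  have hinj : Function.Injective fun b : Bool => if b then Tok.b1 else Tok.b0 := by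
    intro x y hxy
    cases x <;> cases y <;> simp at hxy <;> rfl
  have h1 : a.bits = b.bits := List.map_injective_iff.2 hinj h
  have e : ∀ n : ℕ, n.bits.foldr Nat.bit 0 = n := by
    intro n
    induction n using Nat.binaryRec' with
    | zero => simp
    | bit b n hb ih =>
      rw [Nat.bits_append_bit n b hb, List.foldr_cons, ih]
  rw [← e a, ← e b, h1]

/-- Words that do not begin with a binary digit, `one`. -/
def Clean (X : List Tok) : Prop := ∀ t ∈ X.head?, isDig t = false ∧ isOn t = false

/-- Words that do not begin with a binary digit, `one` or `tvar`. -/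
def Clean' (X : List Tok) : Prop := ∀ t ∈ X.head?, isDig t = false ∧ isOn t = false ∧ t ≠ .tvar

theorem encNat_unique {a b : ℕ} {X X' : List Tok} (hX : Clean X) (hX' : Clean X')
    (h : encNat a ++ X = encNat b ++ X') : a = b ∧ X = X' := by
  obtain ⟨h1, h2⟩ := span_unique isDig (encNat_dig a) (encNat_dig b)
    (fun t ht => (hX t ht).1) (fun t ht => (hX' t ht).1) h
  exact ⟨encNat_injective h1, h2⟩

theorem encNat_hd (k : ℕ) {X : List Tok} (hX : Clean X) :
    ∀ t ∈ (encNat k ++ X).head?, isOn t = false := by
  intro t ht
  cases h : encNat k with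
  | nil => rw [h] at ht; exact (hX t ht).2
  | cons u l =>
    rw [h] at ht
    have h1 := encNat_dig k u (by rw [h]; simp)
    simp only [List.cons_append, List.head?_cons, Option.mem_def, Option.some.injEq] at ht
    subst ht
    unfold isDig at h1
    unfold isOn
    simp only [decide_eq_true_eq] at h1
    rcases h1 with h1 | h1 <;> simp [h1]

theorem encFactor_unique {f g : ℕ × ℕ} {X X' : List Tok} (hX : Clean X) (hX' : Clean X')
    (h : encFactor f ++ X = encFactor g ++ X') : f = g ∧ X = X' := by
  unfold encFactor at h
  rw [List.cons_append, List.cons_append, List.cons.injEq, List.append_assoc,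
    List.append_assoc] at h
  obtain ⟨h1, h2⟩ := span_unique isOn
    (fun t ht => by rw [List.eq_of_mem_replicate ht]; rfl)
    (fun t ht => by rw [List.eq_of_mem_replicate ht]; rfl)
    (encNat_hd f.2 hX) (encNat_hd g.2 hX') h.2
  obtain ⟨h3, h4⟩ := encNat_unique hX hX' h2
  have h5 : f.1 = g.1 := by
    have := congrArg List.length h1
    simpa using this
  exact ⟨Prod.ext h5 h3, h4⟩

theorem clean_facs (l : List (ℕ × ℕ)) {X : List Tok} (hX : Clean' X) :
    Clean (l.flatMap encFactor ++ X) := by
  cases l with
  | nil => exact fun t ht => ⟨(hX t ht).1, (hX t ht).2.1⟩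
  | cons f l =>
    intro t ht
    simp only [List.flatMap_cons, encFactor, List.cons_append, List.head?_cons, Option.mem_def,
      Option.some.injEq] at ht
    subst ht
    exact ⟨rfl, rfl⟩

theorem factors_unique {l l' : List (ℕ × ℕ)} {X X' : List Tok} (hX : Clean' X) (hX' : Clean' X')
    (h : l.flatMap encFactor ++ X = l'.flatMap encFactor ++ X') : l = l' ∧ X = X' := by
  induction l generalizing l' with
  | nil =>
    cases l' with
    | nil => exact ⟨rfl, h⟩
    | cons g l' =>
      exfalso
      have := (hX .tvar (by
        have h2 : X = (g :: l').flatMap encFactor ++ X' := h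
        rw [h2]
        simp [encFactor])).2.2
      exact this rfl
  | cons f l ih =>
    cases l' with
    | nil =>
      exfalso
      have := (hX' .tvar (by
        have h2 : (f :: l).flatMap encFactor ++ X = X' := h
        rw [← h2]
        simp [encFactor])).2.2
      exact this rfl
    | cons g l' =>
      rw [List.flatMap_cons, List.flatMap_cons, List.append_assoc, List.append_assoc] at h
      obtain ⟨h1, h2⟩ := encFactor_unique (clean_facs l hX) (clean_facs l' hX') h
      obtain ⟨h3, h4⟩ := ih h2
      exact ⟨by rw [h1, h3], h4⟩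

theorem encMono_unique {m m' : Mono} {X X' : List Tok} (hX : Clean' X) (hX' : Clean' X')
    (h : encMono m ++ X = encMono m' ++ X') : m = m' ∧ X = X' := by
  unfold encMono at h
  rw [List.cons_append, List.cons_append, List.cons.injEq, List.append_assoc,
    List.append_assoc] at h
  obtain ⟨h1, h2⟩ := encNat_unique (clean_facs _ hX) (clean_facs _ hX') h.2
  obtain ⟨h3, h4⟩ := factors_unique hX hX' h2
  have h5 : m.1 = m'.1 := by
    have h6 := h.1
    by_cases a : m.1 < 0 <;> by_cases b : m'.1 < 0
    · omega
    · simp [a, b] at h6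
    · simp [a, b] at h6
    · omega
  exact ⟨Prod.ext h5 h3, h4⟩

theorem clean_poly (p : Poly) (X : List Tok) : Clean' (encPoly p ++ X) := by
  intro t ht
  cases p with
  | nil =>
    simp only [encPoly, List.flatMap_nil, List.nil_append, List.cons_append, List.head?_cons,
      Option.mem_def, Option.some.injEq] at ht
    subst ht
    exact ⟨rfl, rfl, by simp⟩
  | cons m p =>
    simp only [encPoly, List.flatMap_cons, encMono, List.cons_append, List.head?_cons,
      Option.mem_def, Option.some.injEq] at ht
    subst ht
    by_cases h : m.1 < 0 <;> simp [h, isDig, isOn]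

theorem encPoly_unique {p q : Poly} {X X' : List Tok}
    (h : encPoly p ++ X = encPoly q ++ X') : p = q ∧ X = X' := by
  have key : ∀ (m : Mono) (p : Poly) (X : List Tok),
      encPoly (m :: p) ++ X = encMono m ++ (encPoly p ++ X) := by
    intro m p X
    simp [encPoly]
  have nk : ∀ X : List Tok, encPoly [] ++ X = .tend :: X := fun X => rfl
  have hd : ∀ m : Mono, ∀ Y : List Tok, encMono m ++ Y ≠ .tend :: X := by
    intro m Y h
    unfold encMono at h
    rw [List.cons_append, List.cons.injEq] at h
    by_cases a : m.1 < 0 <;> simp [a] at h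
  have hd' : ∀ m : Mono, ∀ Y : List Tok, encMono m ++ Y ≠ .tend :: X' := by
    intro m Y h
    unfold encMono at h
    rw [List.cons_append, List.cons.injEq] at h
    by_cases a : m.1 < 0 <;> simp [a] at h
  induction p generalizing q with
  | nil =>
    cases q with
    | nil => exact ⟨rfl, by rw [nk, nk, List.cons.injEq] at h; exact h.2⟩
    | cons m q => rw [nk, key] at h; exact absurd h.symm (hd _ _)
  | cons m p ih =>
    cases q with
    | nil => rw [nk, key] at h; exact absurd h (hd' _ _)
    | cons m' q =>
      rw [key, key] at h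
      obtain ⟨h1, h2⟩ := encMono_unique (clean_poly p X) (clean_poly q X') h
      obtain ⟨h3, h4⟩ := ih h2
      exact ⟨by rw [h1, h3], h4⟩

theorem fml_unique {φ ψ : Fml} {X X' : List Tok} (h : φ.enc ++ X = ψ.enc ++ X') :
    φ = ψ ∧ X = X' := by
  induction φ generalizing ψ X X' with
  | eq p =>
    cases ψ <;> simp only [Fml.enc, List.cons_append, List.cons.injEq, reduceCtorEq, false_and] at h
    obtain ⟨h1, h2⟩ := encPoly_unique h.2
    exact ⟨by rw [h1], h2⟩
  | gt p =>
    cases ψ <;> simp only [Fml.enc, List.cons_append, List.cons.injEq, reduceCtorEq, false_and] at h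
    obtain ⟨h1, h2⟩ := encPoly_unique h.2
    exact ⟨by rw [h1], h2⟩
  | ge p =>
    cases ψ <;> simp only [Fml.enc, List.cons_append, List.cons.injEq, reduceCtorEq, false_and] at h
    obtain ⟨h1, h2⟩ := encPoly_unique h.2
    exact ⟨by rw [h1], h2⟩
  | not φ ih =>
    cases ψ <;> simp only [Fml.enc, List.cons_append, List.cons.injEq, reduceCtorEq, false_and] at h
    obtain ⟨h1, h2⟩ := ih h.2
    exact ⟨by rw [h1], h2⟩
  | and φ1 φ2 ih1 ih2 =>
    cases ψ <;> simp only [Fml.enc, List.cons_append, List.cons.injEq, reduceCtorEq, false_and] at h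
    have h' := h.2
    rw [List.append_assoc, List.append_assoc] at h'
    obtain ⟨h1, h2⟩ := ih1 h'
    obtain ⟨h3, h4⟩ := ih2 h2
    exact ⟨by rw [h1, h3], h4⟩
  | or φ1 φ2 ih1 ih2 =>
    cases ψ <;> simp only [Fml.enc, List.cons_append, List.cons.injEq, reduceCtorEq, false_and] at h
    have h' := h.2
    rw [List.append_assoc, List.append_assoc] at h'
    obtain ⟨h1, h2⟩ := ih1 h'
    obtain ⟨h3, h4⟩ := ih2 h2
    exact ⟨by rw [h1, h3], h4⟩

theorem Inst.enc_injective (E : Set ℕ) : Function.Injective (Inst.enc (E := E)) := by
  intro I J h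
  unfold Inst.enc at h
  obtain ⟨h1, h2⟩ := span_unique isOn
    (fun t ht => by rw [List.eq_of_mem_replicate ht]; rfl)
    (fun t ht => by rw [List.eq_of_mem_replicate ht]; rfl)
    (by simp [isOn]) (by simp [isOn]) h
  have h3 : I.n = J.n := by
    have := congrArg List.length h1
    simpa using this
  rw [List.cons.injEq] at h2
  have h4 : I.φ.enc ++ [] = J.φ.enc ++ [] := by rw [h2.2]
  obtain ⟨h5, _⟩ := fml_unique h4
  rcases I with ⟨n, φ, w⟩
  rcases J with ⟨n', φ', w'⟩
  simp only at h3 h5
  subst h3
  subst h5
  rfl

end Pool.Agent.H90.Closed
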