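import Mathlib

set_option autoImplicit false

namespace Pool.Agent.H90.Closed

open MvPolynomial

/-- The sum of the absolute values of the coefficients. -/
noncomputable def l1 {σ : Type*} (P : MvPolynomial σ ℤ) : ℕ :=
  ∑ m ∈ P.support, (P.coeff m).natAbs

variable {σ τ : Type*}

theorem l1_eq_sum_of_subset (P : MvPolynomial σ ℤ) (U : Finset (σ →₀ ℕ)) (h : P.support ⊆ U) :
    l1 P = ∑ m ∈ U, (P.coeff m).natAbs := by
  unfold l1
  apply Finset.sum_subset h
  intro x _ hx
  rw [MvPolynomial.notMem_support_iff] at hx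
  simp [hx]

@[simp] theorem l1_zero : l1 (0 : MvPolynomial σ ℤ) = 0 := by
  simp [l1]

theorem l1_add_le (P Q : MvPolynomial σ ℤ) : l1 (P + Q) ≤ l1 P + l1 Q := by
  classical
  rw [l1_eq_sum_of_subset (P + Q) (P.support ∪ Q.support) MvPolynomial.support_add,
    l1_eq_sum_of_subset P (P.support ∪ Q.support) Finset.subset_union_left,
    l1_eq_sum_of_subset Q (P.support ∪ Q.support) Finset.subset_union_right,
    ← Finset.sum_add_distrib]
  apply Finset.sum_le_sum
  intro m _
  rw [MvPolynomial.coeff_add]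
  exact Int.natAbs_add_le _ _

@[simp] theorem l1_neg (P : MvPolynomial σ ℤ) : l1 (-P) = l1 P := by
  simp [l1]

theorem l1_sub_le (P Q : MvPolynomial σ ℤ) : l1 (P - Q) ≤ l1 P + l1 Q := by
  rw [sub_eq_add_neg]
  exact (l1_add_le _ _).trans (by rw [l1_neg])

theorem l1_monomial_le (m : σ →₀ ℕ) (c : ℤ) : l1 (monomial m c) ≤ c.natAbs := by
  classical
  rw [l1_eq_sum_of_subset _ {m} MvPolynomial.support_monomial_subset]
  simp

theorem l1_C_le (c : ℤ) : l1 (C c : MvPolynomial σ ℤ) ≤ c.natAbs := l1_monomial_le _ _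

theorem l1_one_le : l1 (1 : MvPolynomial σ ℤ) ≤ 1 := by
  have := l1_C_le (σ := σ) 1
  simpa using this

theorem l1_X_le (i : σ) : l1 (X i : MvPolynomial σ ℤ) ≤ 1 := by
  have := l1_monomial_le (Finsupp.single i 1) 1
  simpa [X] using this

theorem l1_sum_le {ι : Type*} (s : Finset ι) (f : ι → MvPolynomial σ ℤ) :
    l1 (∑ i ∈ s, f i) ≤ ∑ i ∈ s, l1 (f i) := by
  classical
  induction s using Finset.induction_on with
  | empty => simp
  | insert a s ha ih =>
    rw [Finset.sum_insert ha, Finset.sum_insert ha]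
    exact (l1_add_le _ _).trans (by omega)

theorem l1_mul_le (P Q : MvPolynomial σ ℤ) : l1 (P * Q) ≤ l1 P * l1 Q := by
  classical
  have h : P * Q = ∑ m ∈ P.support, ∑ m' ∈ Q.support,
      monomial (m + m') (P.coeff m * Q.coeff m') := by
    conv_lhs => rw [P.as_sum, Q.as_sum]
    rw [Finset.sum_mul]
    refine Finset.sum_congr rfl fun m _ => ?_
    rw [Finset.mul_sum]
    refine Finset.sum_congr rfl fun m' _ => ?_
    rw [monomial_mul]
  rw [h]
  refine (l1_sum_le _ _).trans ?_
  have : l1 P * l1 Q = ∑ m ∈ P.support, ∑ m' ∈ Q.support,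
      (P.coeff m).natAbs * (Q.coeff m').natAbs := by
    unfold l1
    rw [Finset.sum_mul_sum]
  rw [this]
  refine Finset.sum_le_sum fun m _ => ?_
  refine (l1_sum_le _ _).trans ?_
  refine Finset.sum_le_sum fun m' _ => ?_
  refine (l1_monomial_le _ _).trans ?_
  rw [Int.natAbs_mul]

theorem l1_prod_le {ι : Type*} (s : Finset ι) (f : ι → MvPolynomial σ ℤ) :
    l1 (∏ i ∈ s, f i) ≤ ∏ i ∈ s, l1 (f i) := by
  classical
  induction s using Finset.induction_on with
  | empty => simpa using l1_one_le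
  | insert a s ha ih =>
    rw [Finset.prod_insert ha, Finset.prod_insert ha]
    exact (l1_mul_le _ _).trans (Nat.mul_le_mul_left _ ih)

theorem l1_pow_le (P : MvPolynomial σ ℤ) (n : ℕ) : l1 (P ^ n) ≤ l1 P ^ n := by
  induction n with
  | zero => simpa using l1_one_le
  | succ n ih =>
    rw [pow_succ, pow_succ]
    exact (l1_mul_le _ _).trans (Nat.mul_le_mul_right _ ih)

theorem l1_rename_le (f : σ → τ) (P : MvPolynomial σ ℤ) : l1 (rename f P) ≤ l1 P := by
  classical
  conv_lhs => rw [P.as_sum]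
  rw [map_sum]
  refine (l1_sum_le _ _).trans ?_
  unfold l1
  refine Finset.sum_le_sum fun m _ => ?_
  rw [rename_monomial]
  exact l1_monomial_le _ _

theorem l1_pderiv_le [DecidableEq σ] (i : σ) (P : MvPolynomial σ ℤ) (d : ℕ) (hd : P.totalDegree ≤ d) :
    l1 (pderiv i P) ≤ l1 P * d := by
  classical
  conv_lhs => rw [P.as_sum]
  rw [map_sum]
  refine (l1_sum_le _ _).trans ?_
  unfold l1
  rw [Finset.sum_mul]
  refine Finset.sum_le_sum fun m hm => ?_
  rw [pderiv_monomial]
  refine (l1_monomial_le _ _).trans ?_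
  rw [Int.natAbs_mul]
  refine Nat.mul_le_mul_left _ ?_
  have h1 : m i ≤ m.sum fun _ e => e := by
    by_cases h : m i = 0
    · omega
    · have : i ∈ m.support := by simpa using h
      exact Finset.single_le_sum (f := fun j => m j) (fun _ _ => Nat.zero_le _) this
  have h2 := MvPolynomial.le_totalDegree hm
  have h3 : ((m i : ℕ) : ℤ).natAbs = m i := by simp
  rw [h3]
  exact h1.trans (h2.trans hd)

end Pool.Agent.H90.Closed
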