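import Pool.Agent.H90.Closed.Pieces

set_option autoImplicit false

namespace Pool.Agent.H90.Closed

/-- A loop body which emits `w j` and increments the counter (by four). -/
def BodySpec (body : Cmd) (w : ℕ → List Tok) (C J L : ℕ) : Prop :=
  ∀ (s : Sx) (j : ℕ), j < J → s.cnt = ones (4 * j) → s.ell = ones L → s.tmp = [] →
    Run body s { s with acc := (w j).reverse ++ s.acc, cnt := ones (4 * (j + 1)) } C

/-- The inner loop. -/
def innerC (body : Cmd) : Cmd :=
  .seq (.loop .r3 Option.isSome (.seq (.move .r3 .r4) body)) (moveAll .r4 .r3)

/-- The outer loop. -/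
def outerC (body : Cmd) : Cmd :=
  .seq (.loop .r1 Option.isSome (.seq (.move .r1 .r2) (innerC body))) (moveAll .r2 .r1)

theorem run_innerLoop {body : Cmd} {w : ℕ → List Tok} {C J L : ℕ} (h : BodySpec body w C J L)
    (X : List Tok) : ∀ (s : Sx) (j : ℕ), j + X.length ≤ J → s.r3 = X → s.cnt = ones (4 * j) →
      s.ell = ones L → s.tmp = [] →
      Run (.loop .r3 Option.isSome (.seq (.move .r3 .r4) body)) s
        { s with
            acc := ((List.range' j X.length).flatMap w).reverse ++ s.acc,
            cnt := ones (4 * (j + X.length)),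
            r3 := [],
            r4 := X.reverse ++ s.r4 } ((C + 2) * X.length + 1) := by
  induction X with
  | nil =>
    intro s j _ h3 h4 _ _
    refine (Run.loop_done (k := .r3) (by simp [Sx.get, h3])).cast ?_ (by simp)
    apply Sx.ext <;> simp_all
  | cons t X ih =>
    intro s j hj h3 h4 h5 h6
    simp only [List.length_cons] at hj
    have a1 : Run (.move .r3 .r4) s { s with r3 := X, r4 := t :: s.r4 } 1 := by
      refine (Run.move .r3 .r4 s).cast ?_ le_rfl
      simp only [doMove, Sx.get, h3]
      rfl
    have a2 := h { s with r3 := X, r4 := t :: s.r4 } j (by omega) h4 h5 h6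
    have a3 := ih { s with
        r3 := X
        r4 := t :: s.r4
        acc := (w j).reverse ++ s.acc
        cnt := ones (4 * (j + 1)) } (j + 1) (by omega) rfl rfl h5 h6
    refine (Run.loop_step (k := .r3) (by simp [Sx.get, h3]) (Run.seq a1 a2) a3).cast ?_ ?_
    · have e1 : List.range' j (t :: X).length = j :: List.range' (j + 1) X.length := by
        rw [List.length_cons, List.range'_succ]
      rw [e1]
      have e2 : 4 * (j + 1 + X.length) = 4 * (j + (t :: X).length) := by
        simp only [List.length_cons]; ring
      rw [e2]
      apply Sx.ext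
      case acc => rw [List.flatMap_cons, List.reverse_append, List.append_assoc]
      all_goals simp
    · simp only [List.length_cons]
      ring_nf
      omega

theorem run_inner {body : Cmd} {w : ℕ → List Tok} {C J L : ℕ} (h : BodySpec body w C J L)
    (a : ℕ) (s : Sx) (j : ℕ) (hj : j + a ≤ J) (h3 : s.r3 = ones a) (h4 : s.r4 = [])
    (h5 : s.cnt = ones (4 * j)) (h6 : s.ell = ones L) (h7 : s.tmp = []) :
    Run (innerC body) s
      { s with
          acc := ((List.range' j a).flatMap w).reverse ++ s.acc,
          cnt := ones (4 * (j + a)) } ((C + 4) * a + 2) := by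
  have a1 := run_innerLoop h (ones a) s j (by simpa using hj) h3 h5 h6 h7
  simp only [List.length_replicate, List.reverse_replicate, h4, List.append_nil] at a1
  set s1 : Sx := { s with
            acc := ((List.range' j a).flatMap w).reverse ++ s.acc,
            cnt := ones (4 * (j + a)),
            r3 := [],
            r4 := ones a } with hs1
  have a2 := run_moveAll_aux .r4 .r3 (by decide) (ones a) s1 rfl
  refine (Run.seq a1 a2).cast ?_ ?_
  · rw [hs1]
    apply Sx.ext <;> simp [Sx.get, Sx.set, h3, h4]
  · simp only [List.length_replicate]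
    ring_nf
    omega

theorem run_outerLoop {body : Cmd} {w : ℕ → List Tok} {C J L : ℕ} (h : BodySpec body w C J L)
    (a : ℕ) (X : List Tok) : ∀ (s : Sx) (j : ℕ), j + X.length * a ≤ J → s.r1 = X → s.r3 = ones a →
      s.r4 = [] → s.cnt = ones (4 * j) → s.ell = ones L → s.tmp = [] →
      Run (.loop .r1 Option.isSome (.seq (.move .r1 .r2) (innerC body))) s
        { s with
            acc := ((List.range' j (X.length * a)).flatMap w).reverse ++ s.acc,
            cnt := ones (4 * (j + X.length * a)),
            r1 := [],
            r2 := X.reverse ++ s.r2 } (((C + 4) * a + 4) * X.length + 1) := by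
  induction X with
  | nil =>
    intro s j _ h1 h3 h4 h5 h6 h7
    refine (Run.loop_done (k := .r1) (by simp [Sx.get, h1])).cast ?_ (by simp)
    apply Sx.ext <;> simp_all
  | cons t X ih =>
    intro s j hj h1 h3 h4 h5 h6 h7
    simp only [List.length_cons] at hj
    have hj' : j + a + X.length * a ≤ J := by rw [add_mul, one_mul] at hj; omega
    have a1 : Run (.move .r1 .r2) s { s with r1 := X, r2 := t :: s.r2 } 1 := by
      refine (Run.move .r1 .r2 s).cast ?_ le_rfl
      simp only [doMove, Sx.get, h1]
      rfl
    have a2 := run_inner h a { s with r1 := X, r2 := t :: s.r2 } j (by omega) h3 h4 h5 h6 h7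
    have a3 := ih { s with
        r1 := X
        r2 := t :: s.r2
        acc := ((List.range' j a).flatMap w).reverse ++ s.acc
        cnt := ones (4 * (j + a)) } (j + a) hj' rfl h3 h4 rfl h6 h7
    refine (Run.loop_step (k := .r1) (by simp [Sx.get, h1]) (Run.seq a1 a2) a3).cast ?_ ?_
    · have e1 : List.range' j ((t :: X).length * a) =
          List.range' j a ++ List.range' (j + a) (X.length * a) := by
        rw [List.range'_append_1]
        congr 1
        simp only [List.length_cons]
        ring
      rw [e1]
      have e2 : 4 * (j + a + X.length * a) = 4 * (j + (t :: X).length * a) := by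
        simp only [List.length_cons]; ring
      rw [e2]
      apply Sx.ext
      case acc => rw [List.flatMap_append, List.reverse_append, List.append_assoc]
      all_goals simp
    · simp only [List.length_cons]
      ring_nf
      omega

theorem run_outer {body : Cmd} {w : ℕ → List Tok} {C J L : ℕ} (h : BodySpec body w C J L)
    (a b : ℕ) (s : Sx) (j : ℕ) (hj : j + b * a ≤ J) (h1 : s.r1 = ones b) (h2 : s.r2 = [])
    (h3 : s.r3 = ones a) (h4 : s.r4 = [])
    (h5 : s.cnt = ones (4 * j)) (h6 : s.ell = ones L) (h7 : s.tmp = []) :
    Run (outerC body) s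
      { s with
          acc := ((List.range' j (b * a)).flatMap w).reverse ++ s.acc,
          cnt := ones (4 * (j + b * a)) } (((C + 4) * a + 6) * b + 2) := by
  have a1 := run_outerLoop h a (ones b) s j (by simpa using hj) h1 h3 h4 h5 h6 h7
  simp only [List.length_replicate, List.reverse_replicate, h2, List.append_nil] at a1
  set s1 : Sx := { s with
            acc := ((List.range' j (b * a)).flatMap w).reverse ++ s.acc,
            cnt := ones (4 * (j + b * a)),
            r1 := [],
            r2 := ones b } with hs1
  have a2 := run_moveAll_aux .r2 .r1 (by decide) (ones b) s1 rfl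
  refine (Run.seq a1 a2).cast ?_ ?_
  · rw [hs1]
    apply Sx.ext <;> simp [Sx.get, Sx.set, h1, h2]
  · simp only [List.length_replicate]
    ring_nf
    omega

/-- Four ones pushed on a stack. -/
def push4 (k : Stk) : Cmd := .seq (.push k .one) (.seq (.push k .one) (.seq (.push k .one) (.push k .one)))

theorem run_push4 (k : Stk) (s : Sx) : Run (push4 k) s (s.set k (ones 4 ++ s.get k)) 4 := by
  have h := fun s => Run.push k .one s
  refine (Run.seq (h s) (Run.seq (h _) (Run.seq (h _) (h _)))).cast ?_ le_rfl
  simp only [Sx.set_set_same, Sx.get_set_same]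
  rfl

theorem bodySpec_pieces (p : Piece) (l : List Piece) (J L C : ℕ)
    (hC : ((p :: l).map Piece.sz).sum + 8 * (4 * J + L) * (p :: l).length + 4 ≤ C) :
    BodySpec (.seq (progL p l) (push4 .cnt)) (fun j => (p :: l).flatMap (Piece.tok j L)) C J L := by
  intro s j hj h1 h2 h3
  have a1 := emits_progL p l j L s h1 h2 h3
  have a2 := run_push4 .cnt { s with acc := ((p :: l).flatMap (Piece.tok j L)).reverse ++ s.acc }
  refine (Run.seq a1 a2).cast ?_ ?_
  · have e1 : ones 4 ++ ones (4 * j) = ones (4 * (j + 1)) := by
      rw [← List.replicate_add]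
      congr 1
      ring
    apply Sx.ext
    case cnt => simpa only [Sx.get, Sx.set, h1] using e1
    all_goals simp [Sx.get, Sx.set]
  · refine le_trans ?_ hC
    have : 8 * (4 * j + L) * (p :: l).length ≤ 8 * (4 * J + L) * (p :: l).length := by
      apply Nat.mul_le_mul_right
      omega
    omega

end Pool.Agent.H90.Closed
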