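import Pool.Agent.H90.Closed.L1

set_option autoImplicit false
set_option linter.unusedSectionVars false

namespace Pool.Agent.H90.Closed

open MvPolynomial

variable {ι : Type} [Fintype ι] [DecidableEq ι]

/-- The real value of `F` at `y` and the parameters `t`. -/
noncomputable def ev (F : MvPolynomial (ι ⊕ Fin 2) ℤ) (y : ι → ℝ) (t : Fin 2 → ℝ) : ℝ :=
  aeval (Sum.elim y t) F

theorem ev_eq (F : MvPolynomial (ι ⊕ Fin 2) ℤ) (y : ι → ℝ) (t : Fin 2 → ℝ) :
    ev F y t = ∑ m ∈ F.support, ((F.coeff m : ℤ) : ℝ) *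
      ((∏ i, y i ^ m (Sum.inl i)) * (t 0 ^ m (Sum.inr 0) * t 1 ^ m (Sum.inr 1))) := by
  unfold ev
  rw [MvPolynomial.aeval_def, MvPolynomial.eval₂_eq']
  refine Finset.sum_congr rfl fun m _ => ?_
  rw [Fintype.prod_sum_type]
  simp

/-- The critical point equations. -/
def Crit (F : MvPolynomial (ι ⊕ Fin 2) ℤ) (D : ℕ) (y : ι → ℝ) (x : ℝ) (t : Fin 2 → ℝ) : Prop :=
  ∀ i, y i ^ (D + 1) = - x * ev (pderiv (Sum.inl i) F) y t

/-- `g` has a normal form with coefficients of size at most `B` and degree at most `E`. -/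
def NF (F : MvPolynomial (ι ⊕ Fin 2) ℤ) (D : ℕ) (g : (ι → ℝ) → ℝ → (Fin 2 → ℝ) → ℝ)
    (B E : ℕ) : Prop :=
  ∃ c : (ι → Fin (D + 1)) → MvPolynomial (Fin 3) ℤ,
    (∀ k, l1 (c k) ≤ B) ∧ (∀ k, (c k).totalDegree ≤ E) ∧
    ∀ y x t, Crit F D y x t →
      g y x t = ∑ k, aeval (Matrix.vecCons x t : Fin 3 → ℝ) (c k) * ∏ i, y i ^ (k i : ℕ)

variable {F : MvPolynomial (ι ⊕ Fin 2) ℤ} {D : ℕ}

theorem NF.mono {g : (ι → ℝ) → ℝ → (Fin 2 → ℝ) → ℝ} {B B' E E' : ℕ} (h : NF F D g B E)
    (hB : B ≤ B') (hE : E ≤ E') : NF F D g B' E' := by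
  obtain ⟨c, h1, h2, h3⟩ := h
  exact ⟨c, fun k => (h1 k).trans hB, fun k => (h2 k).trans hE, h3⟩

theorem NF.zero (B E : ℕ) : NF F D (fun _ _ _ => 0) B E :=
  ⟨fun _ => 0, fun k => by simp, fun k => by simp, fun y x t _ => by simp⟩

theorem NF.add {g g' : (ι → ℝ) → ℝ → (Fin 2 → ℝ) → ℝ} {B B' E : ℕ} (h : NF F D g B E)
    (h' : NF F D g' B' E) : NF F D (fun y x t => g y x t + g' y x t) (B + B') E := by
  obtain ⟨c, h1, h2, h3⟩ := h
  obtain ⟨c', h1', h2', h3'⟩ := h'
  refine ⟨fun k => c k + c' k, fun k => (l1_add_le _ _).trans (by have := h1 k; have := h1' k; omega),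
    fun k => (totalDegree_add _ _).trans (max_le (h2 k) (h2' k)), fun y x t hc => ?_⟩
  dsimp only
  rw [h3 y x t hc, h3' y x t hc, ← Finset.sum_add_distrib]
  refine Finset.sum_congr rfl fun k _ => ?_
  rw [map_add]; ring

theorem NF.sum {α : Type*} (s : Finset α) (g : α → (ι → ℝ) → ℝ → (Fin 2 → ℝ) → ℝ)
    (B : α → ℕ) (E : ℕ) (h : ∀ a ∈ s, NF F D (g a) (B a) E) :
    NF F D (fun y x t => ∑ a ∈ s, g a y x t) (∑ a ∈ s, B a) E := by
  classical
  induction s using Finset.induction_on with
  | empty => simpa using NF.zero 0 E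
  | insert a s ha ih =>
    simp only [Finset.sum_insert ha]
    exact NF.add (h a (Finset.mem_insert_self _ _))
      (ih fun b hb => h b (Finset.mem_insert_of_mem hb))

theorem NF.cmul {g : (ι → ℝ) → ℝ → (Fin 2 → ℝ) → ℝ} {B E : ℕ} (q : MvPolynomial (Fin 3) ℤ)
    (h : NF F D g B E) :
    NF F D (fun y x t => aeval (Matrix.vecCons x t : Fin 3 → ℝ) q * g y x t) (l1 q * B)
      (q.totalDegree + E) := by
  obtain ⟨c, h1, h2, h3⟩ := h
  refine ⟨fun k => q * c k, fun k => (l1_mul_le _ _).trans (Nat.mul_le_mul_left _ (h1 k)),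
    fun k => (totalDegree_mul _ _).trans (Nat.add_le_add_left (h2 k) _), fun y x t hc => ?_⟩
  dsimp only
  rw [h3 y x t hc, Finset.mul_sum]
  refine Finset.sum_congr rfl fun k _ => ?_
  rw [map_mul]; ring

theorem NF.congr {g g' : (ι → ℝ) → ℝ → (Fin 2 → ℝ) → ℝ} {B E : ℕ} (h : NF F D g B E)
    (hg : ∀ y x t, Crit F D y x t → g' y x t = g y x t) : NF F D g' B E := by
  obtain ⟨c, h1, h2, h3⟩ := h
  exact ⟨c, h1, h2, fun y x t hc => (hg y x t hc).trans (h3 y x t hc)⟩

theorem NF.basis (a : ι → ℕ) (ha : ∀ i, a i < D + 1) :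
    NF F D (fun y _ _ => ∏ i, y i ^ a i) 1 0 := by
  refine ⟨fun k => if k = (fun i => ⟨a i, ha i⟩) then 1 else 0, fun k => ?_, fun k => ?_,
    fun y x t _ => ?_⟩
  · dsimp only
    split_ifs
    · exact l1_one_le
    · simp
  · dsimp only
    split_ifs <;> simp
  · rw [Finset.sum_eq_single (fun i => (⟨a i, ha i⟩ : Fin (D + 1)))]
    · simp
    · intro k _ hk
      simp [hk]
    · intro h; exact absurd (Finset.mem_univ _) h

theorem degree_pderiv_le (i : ι) (hF : F.totalDegree ≤ D + 1) (m : (ι ⊕ Fin 2) →₀ ℕ)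
    (hm : m ∈ (pderiv (Sum.inl i) F).support) :
    (∑ j, m (Sum.inl j)) + (m (Sum.inr 0) + m (Sum.inr 1)) ≤ D := by
  rw [MvPolynomial.mem_support_iff, coeff_pderiv] at hm
  have h1 : m + Finsupp.single (Sum.inl i) 1 ∈ F.support := by
    rw [MvPolynomial.mem_support_iff]
    intro h; apply hm; rw [h]; simp
  have h2 := MvPolynomial.le_totalDegree h1
  rw [Finsupp.sum_fintype _ _ (fun _ => rfl)] at h2
  simp only [Finsupp.add_apply, Finset.sum_add_distrib] at h2
  rw [Fintype.sum_sum_type, Fintype.sum_sum_type] at h2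
  simp only [Fin.sum_univ_two] at h2
  have h3 : (∑ j : ι, (Finsupp.single (Sum.inl i : ι ⊕ Fin 2) 1) (Sum.inl j)) = 1 := by
    rw [Finset.sum_eq_single i]
    · simp
    · intro b _ hb
      simp [Finsupp.single_apply]
      exact fun h => hb h.symm
    · simp
  rw [h3] at h2
  simp at h2
  omega

/-- A monomial in the parameters. -/
theorem param_monomial (c : ℤ) (e0 e1 : ℕ) :
    ∃ q : MvPolynomial (Fin 3) ℤ, l1 q ≤ c.natAbs ∧ q.totalDegree ≤ e0 + e1 ∧
      ∀ (x : ℝ) (t : Fin 2 → ℝ), aeval (Matrix.vecCons x t : Fin 3 → ℝ) q =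
        (c : ℝ) * (t 0 ^ e0 * t 1 ^ e1) := by
  refine ⟨monomial (Finsupp.single 1 e0 + Finsupp.single 2 e1) c, l1_monomial_le _ _, ?_, ?_⟩
  · refine (totalDegree_monomial_le _ _).trans ?_
    rw [Finsupp.sum_fintype _ _ (fun _ => rfl)]
    simp [Fin.sum_univ_three]
  · intro x t
    rw [aeval_monomial]
    rw [Finsupp.prod_add_index' (by simp) (by intros; rw [pow_add])]
    simp [Finsupp.prod_single_index]

theorem NF.monomial_aux (b : ℕ) (hb : 1 ≤ b) (hF : F.totalDegree ≤ D + 1)
    (hbF : ∀ i : ι, l1 (pderiv (Sum.inl i) F) ≤ b) (N : ℕ) :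
    ∀ a : ι → ℕ, (∑ i, a i) ≤ N → NF F D (fun y _ _ => ∏ i, y i ^ a i) (b ^ N) ((D + 1) * N) := by
  induction N with
  | zero =>
    intro a ha
    refine (NF.basis a fun i => ?_).mono (by simp) (by simp)
    have : a i ≤ ∑ i, a i := Finset.single_le_sum (f := a) (fun _ _ => Nat.zero_le _) (Finset.mem_univ i)
    omega
  | succ N ih =>
    intro a ha
    by_cases hsmall : ∀ i, a i < D + 1
    · exact (NF.basis a hsmall).mono (Nat.one_le_pow _ _ hb) (Nat.zero_le _)
    · push Not at hsmall
      obtain ⟨i, hi⟩ := hsmall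
      -- remove `D+1` from the exponent of `y i`
      have hterm : ∀ m ∈ (pderiv (Sum.inl i) F).support,
          NF F D (fun y x t => (- x * (((pderiv (Sum.inl i) F).coeff m : ℤ) : ℝ) *
            (t 0 ^ m (Sum.inr 0) * t 1 ^ m (Sum.inr 1))) *
            ∏ j, y j ^ (Function.update a i (a i - (D + 1)) j + m (Sum.inl j)))
            (((pderiv (Sum.inl i) F).coeff m).natAbs * b ^ N) ((D + 1) * (N + 1)) := by
        intro m hm
        have hdeg := degree_pderiv_le i hF m hm
        obtain ⟨q, hq1, hq2, hq3⟩ := param_monomial ((pderiv (Sum.inl i) F).coeff m)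
          (m (Sum.inr 0)) (m (Sum.inr 1))
        have hsum : (∑ j, (Function.update a i (a i - (D + 1)) j + m (Sum.inl j))) ≤ N := by
          rw [Finset.sum_add_distrib]
          have h1 : (∑ j, Function.update a i (a i - (D + 1)) j) + (D + 1) = ∑ j, a j := by
            rw [← Finset.add_sum_erase _ _ (Finset.mem_univ i),
              ← Finset.add_sum_erase _ a (Finset.mem_univ i)]
            have h2 : ∑ x ∈ Finset.univ.erase i, Function.update a i (a i - (D + 1)) x =
                ∑ x ∈ Finset.univ.erase i, a x := by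
              refine Finset.sum_congr rfl fun x hx => ?_
              rw [Function.update_of_ne (Finset.ne_of_mem_erase hx)]
            rw [h2, Function.update_self]
            omega
          omega
        have h4 := (ih _ hsum).cmul (-(X 0) * q)
        refine (h4.congr ?_).mono ?_ ?_
        · intro y x t _
          rw [map_mul, hq3, map_neg, aeval_X]
          simp only [Matrix.cons_val_zero]
          ring
        · refine Nat.mul_le_mul_right _ ?_
          refine (l1_mul_le _ _).trans ?_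
          rw [l1_neg]
          calc l1 (X 0 : MvPolynomial (Fin 3) ℤ) * l1 q ≤ 1 * l1 q :=
                Nat.mul_le_mul_right _ (l1_X_le _)
            _ ≤ _ := by rw [one_mul]; exact hq1
        · have h5 : (-(X 0) * q : MvPolynomial (Fin 3) ℤ).totalDegree ≤ 1 + D := by
            refine (totalDegree_mul _ _).trans ?_
            rw [totalDegree_neg, totalDegree_X]
            omega
          calc _ ≤ (1 + D) + (D + 1) * N := Nat.add_le_add_right h5 _
            _ = _ := by ring
      have hsumNF := NF.sum _ _ _ _ hterm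
      refine (hsumNF.congr ?_).mono ?_ le_rfl
      · intro y x t hc
        have h6 : (∏ j, y j ^ a j) = (∏ j, y j ^ Function.update a i (a i - (D + 1)) j) *
            y i ^ (D + 1) := by
          rw [← Finset.mul_prod_erase _ _ (Finset.mem_univ i),
            ← Finset.mul_prod_erase _ (fun j => y j ^ Function.update a i (a i - (D + 1)) j)
              (Finset.mem_univ i)]
          have h7 : ∏ x ∈ Finset.univ.erase i, y x ^ Function.update a i (a i - (D + 1)) x =
              ∏ x ∈ Finset.univ.erase i, y x ^ a x := by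
            refine Finset.prod_congr rfl fun x hx => ?_
            rw [Function.update_of_ne (Finset.ne_of_mem_erase hx)]
          rw [h7]
          simp only [Function.update_self]
          have h8 : a i = (a i - (D + 1)) + (D + 1) := by omega
          conv_lhs => rw [h8, pow_add]
          ring
        rw [h6, hc i, ev_eq, Finset.mul_sum, Finset.mul_sum]
        refine Finset.sum_congr rfl fun m _ => ?_
        simp only [pow_add, Finset.prod_mul_distrib]
        ring
      · rw [← Finset.sum_mul, pow_succ]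
        calc _ = l1 (pderiv (Sum.inl i) F) * b ^ N := rfl
          _ ≤ b * b ^ N := Nat.mul_le_mul_right _ (hbF i)
          _ = _ := by ring

end Pool.Agent.H90.Closed
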