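import Pool.Agent.H90.Closed.CharPoly

set_option autoImplicit false
set_option linter.unusedSectionVars false

namespace Pool.Agent.H90.Closed

/-- The length of the auxiliary counter. -/
def LL (m : ℕ) : ℕ := 4 * (m + 1)

theorem mul6_le (m : ℕ) : 6 * m ≤ 2 ^ (m + 3) := by
  have : m < 2 ^ m := Nat.lt_two_pow_self
  rw [pow_add]; omega

theorem D_le (m : ℕ) : 2 ^ (m + 3) + 2 ≤ 2 ^ (m + 4) := by
  have : 1 ≤ 2 ^ m := Nat.one_le_two_pow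
  rw [pow_add, pow_add]; omega

theorem M_le (m N : ℕ) (hN : N ≤ 6 * m) : (2 ^ (m + 3) + 1) ^ N ≤ 2 ^ (6 * m ^ 2 + 24 * m) := by
  have h := D_le m
  calc (2 ^ (m + 3) + 1) ^ N ≤ (2 ^ (m + 4)) ^ N := Nat.pow_le_pow_left (by omega) _
    _ ≤ (2 ^ (m + 4)) ^ (6 * m) := Nat.pow_le_pow_right (by positivity) hN
    _ = 2 ^ (6 * m ^ 2 + 24 * m) := by rw [← pow_mul]; congr 1; ring

theorem expo_le (m N : ℕ) (hN : N ≤ 6 * m) :
    2 ^ (m + 3) + 2 + N * 2 ^ (m + 3) ≤ 2 ^ (2 * m + 7) := by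
  have h1 := D_le m
  have h2 := mul6_le m
  have h3 : N * 2 ^ (m + 3) ≤ 2 ^ (m + 3) * 2 ^ (m + 3) := Nat.mul_le_mul_right _ (by omega)
  have h4 : 2 ^ (m + 3) * 2 ^ (m + 3) = 2 ^ (2 * m + 6) := by rw [← pow_add]; congr 1; ring
  have h5 : 2 ^ (m + 4) ≤ 2 ^ (2 * m + 6) := Nat.pow_le_pow_right (by norm_num) (by omega)
  have h6 : 2 ^ (2 * m + 7) = 2 ^ (2 * m + 6) + 2 ^ (2 * m + 6) := by rw [pow_succ]; ring
  omega

theorem degBd_le (m N : ℕ) (hN : N ≤ 6 * m) : degBd N (2 ^ (m + 3)) ≤ 2 ^ (3 * m + 12) := by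
  unfold degBd
  have h1 := D_le m
  have h2 := expo_le m N hN
  have h3 : (2 ^ (m + 3) + 1) * (2 ^ (m + 3) + 2 + N * 2 ^ (m + 3)) ≤ 2 ^ (m + 4) * 2 ^ (2 * m + 7) :=
    Nat.mul_le_mul (by omega) h2
  have h4 : 2 ^ (m + 4) * 2 ^ (2 * m + 7) = 2 ^ (3 * m + 11) := by rw [← pow_add]; congr 1; ring
  have h5 : 2 ^ (m + 4) ≤ 2 ^ (3 * m + 11) := Nat.pow_le_pow_right (by norm_num) (by omega)
  have h6 : 2 ^ (3 * m + 12) = 2 ^ (3 * m + 11) + 2 ^ (3 * m + 11) := by rw [pow_succ]; ring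
  omega

theorem kBd_le (m N : ℕ) (hN : N ≤ 6 * m) :
    kBd N (2 ^ (m + 3)) + 1 ≤ 2 ^ (LL m * LL m) := by
  unfold kBd
  have h1 : (2 ^ (m + 3) + 1) ^ N * degBd N (2 ^ (m + 3)) ≤
      2 ^ (6 * m ^ 2 + 24 * m) * 2 ^ (3 * m + 12) := Nat.mul_le_mul (M_le m N hN) (degBd_le m N hN)
  have h2 : 2 ^ (6 * m ^ 2 + 24 * m) * 2 ^ (3 * m + 12) = 2 ^ (6 * m ^ 2 + 27 * m + 12) := by
    rw [← pow_add]; congr 1; ring
  have h3 : 2 ^ (6 * m ^ 2 + 27 * m + 13) =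
      2 ^ (6 * m ^ 2 + 27 * m + 12) + 2 ^ (6 * m ^ 2 + 27 * m + 12) := by
    rw [pow_succ]; ring
  have h4 : 1 ≤ 2 ^ (6 * m ^ 2 + 27 * m + 12) := Nat.one_le_two_pow
  have h5 : 2 ^ (6 * m ^ 2 + 27 * m + 13) ≤ 2 ^ (LL m * LL m) := by
    apply Nat.pow_le_pow_right (by norm_num)
    unfold LL
    nlinarith
  omega

theorem betaBd_le (m N : ℕ) (hN : N ≤ 6 * m) :
    1 + betaBd N (2 ^ (m + 3)) (2 ^ (3 * m + 8)) ≤ 2 ^ (2 ^ (3 * m + 12) + 1) := by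
  unfold betaBd
  have h0 : m < 2 ^ m := Nat.lt_two_pow_self
  have h1 := D_le m
  have h2 := expo_le m N hN
  have h3 := mul6_le m
  have h4 : (2 ^ (m + 3) + 2) * 2 ^ (3 * m + 8) ≤ 2 ^ (4 * m + 12) := by
    calc _ ≤ 2 ^ (m + 4) * 2 ^ (3 * m + 8) := Nat.mul_le_mul_right _ h1
      _ = _ := by rw [← pow_add]; congr 1; ring
  have h5 : (2 ^ (m + 3) + 1) * 2 ^ (3 * m + 8) ≤ 2 ^ (4 * m + 12) := by
    refine le_trans (Nat.mul_le_mul_right _ (by omega)) h4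
  have h6 : (2 ^ (m + 3) + 2) * 2 ^ (3 * m + 8) + N ≤ 2 ^ (4 * m + 13) := by
    have : 2 ^ (m + 3) ≤ 2 ^ (4 * m + 12) := Nat.pow_le_pow_right (by norm_num) (by omega)
    have h7 : 2 ^ (4 * m + 13) = 2 ^ (4 * m + 12) + 2 ^ (4 * m + 12) := by rw [pow_succ]; ring
    omega
  have h7 : ((2 ^ (m + 3) + 1) * 2 ^ (3 * m + 8)) ^ (2 ^ (m + 3) + 2 + N * 2 ^ (m + 3)) ≤
      (2 ^ (4 * m + 12)) ^ (2 ^ (2 * m + 7)) := by
    refine (Nat.pow_le_pow_left h5 _).trans (Nat.pow_le_pow_right (by positivity) h2)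
  have h8 : ((2 ^ (m + 3) + 2) * 2 ^ (3 * m + 8) + N) *
      ((2 ^ (m + 3) + 1) * 2 ^ (3 * m + 8)) ^ (2 ^ (m + 3) + 2 + N * 2 ^ (m + 3)) ≤
      2 ^ (2 ^ (3 * m + 12)) := by
    refine (Nat.mul_le_mul h6 h7).trans ?_
    rw [← pow_mul, ← pow_add]
    apply Nat.pow_le_pow_right (by norm_num)
    have h9 : 4 * m + 13 ≤ 2 ^ (m + 4) := by rw [pow_add]; omega
    have h10 : 1 ≤ 2 ^ (2 * m + 7) := Nat.one_le_two_pow
    calc 4 * m + 13 + (4 * m + 12) * 2 ^ (2 * m + 7)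
        ≤ (4 * m + 13) * 2 ^ (2 * m + 7) + (4 * m + 13) * 2 ^ (2 * m + 7) := by nlinarith
      _ = (4 * m + 13) * 2 ^ (2 * m + 8) := by ring
      _ ≤ 2 ^ (m + 4) * 2 ^ (2 * m + 8) := Nat.mul_le_mul_right _ h9
      _ = 2 ^ (3 * m + 12) := by rw [← pow_add]; congr 1; ring
  have h9 : 1 ≤ 2 ^ (2 ^ (3 * m + 12)) := Nat.one_le_two_pow
  rw [pow_succ 2 (2 ^ (3 * m + 12))]
  generalize 2 ^ (2 ^ (3 * m + 12)) = Z at *
  omega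

theorem hBd_le (m N : ℕ) (hN : N ≤ 6 * m) :
    2 * hBd N (2 ^ (m + 3)) (2 ^ (3 * m + 8)) ≤ 2 ^ (2 ^ (LL m * LL m)) := by
  unfold hBd
  have h0 : m < 2 ^ m := Nat.lt_two_pow_self
  have hM := M_le m N hN
  have hb := betaBd_le m N hN
  set M := (2 ^ (m + 3) + 1) ^ N with hMdef
  have h1 : M.factorial ≤ M ^ M := Nat.factorial_le_pow M
  have h2 : M * (1 + betaBd N (2 ^ (m + 3)) (2 ^ (3 * m + 8))) ≤ 2 ^ (2 ^ (3 * m + 13)) := by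
    refine (Nat.mul_le_mul hM hb).trans ?_
    rw [← pow_add]
    apply Nat.pow_le_pow_right (by norm_num)
    have h3 : 6 * m ^ 2 + 24 * m + 1 ≤ 2 ^ (3 * m + 12) := by
      have h4 : 2 ^ (3 * m + 12) = 4096 * (2 ^ m * (2 ^ m * 2 ^ m)) := by ring
      rw [h4]
      have h5 : 1 ≤ 2 ^ m := Nat.one_le_two_pow
      have h6 : m ^ 2 ≤ 2 ^ m * (2 ^ m * 2 ^ m) := by
        calc m ^ 2 = m * m := by ring
          _ ≤ 2 ^ m * (2 ^ m * 2 ^ m) := by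
            refine Nat.mul_le_mul h0.le ?_
            nlinarith
      have h7 : m ≤ 2 ^ m * (2 ^ m * 2 ^ m) := by nlinarith
      have h8 : 1 ≤ 2 ^ m * (2 ^ m * 2 ^ m) := by nlinarith
      omega
    have h6 : 2 ^ (3 * m + 13) = 2 ^ (3 * m + 12) + 2 ^ (3 * m + 12) := by rw [pow_succ]; ring
    omega
  have h3 : M.factorial * (1 + betaBd N (2 ^ (m + 3)) (2 ^ (3 * m + 8))) ^ M ≤
      2 ^ (2 ^ (6 * m ^ 2 + 27 * m + 13)) := by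
    calc _ ≤ M ^ M * (1 + betaBd N (2 ^ (m + 3)) (2 ^ (3 * m + 8))) ^ M := Nat.mul_le_mul_right _ h1
      _ = (M * (1 + betaBd N (2 ^ (m + 3)) (2 ^ (3 * m + 8)))) ^ M := by rw [mul_pow]
      _ ≤ (2 ^ (2 ^ (3 * m + 13))) ^ M := Nat.pow_le_pow_left h2 _
      _ ≤ (2 ^ (2 ^ (3 * m + 13))) ^ (2 ^ (6 * m ^ 2 + 24 * m)) :=
          Nat.pow_le_pow_right (by positivity) hM
      _ = 2 ^ (2 ^ (6 * m ^ 2 + 27 * m + 13)) := by
          rw [← pow_mul, ← pow_add]; congr 2; ring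
  have h4 : 2 * 2 ^ (2 ^ (6 * m ^ 2 + 27 * m + 13)) ≤ 2 ^ (2 ^ (LL m * LL m)) := by
    rw [← pow_succ']
    apply Nat.pow_le_pow_right (by norm_num)
    have h5 : 2 ^ (6 * m ^ 2 + 27 * m + 14) ≤ 2 ^ (LL m * LL m) := by
      apply Nat.pow_le_pow_right (by norm_num)
      unfold LL
      nlinarith
    have h6 : 2 ^ (6 * m ^ 2 + 27 * m + 14) =
        2 ^ (6 * m ^ 2 + 27 * m + 13) + 2 ^ (6 * m ^ 2 + 27 * m + 13) := by
      rw [pow_succ]; ring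
    have h7 : 1 ≤ 2 ^ (6 * m ^ 2 + 27 * m + 13) := Nat.one_le_two_pow
    omega
  exact (Nat.mul_le_mul_left 2 h3).trans h4

end Pool.Agent.H90.Closed
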