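import Pool.Agent.H90.Closed.Core
import Pool.Agent.H90.Closed.Numeric

set_option autoImplicit false
set_option linter.unusedSectionVars false

namespace Pool.Agent.H90.Closed

/-! ### Translation of factors: `x_i ^ e` becomes a product of variables `x_{i + L j} = x_i ^ (2 ^ j)`. -/

/-- The factors for the binary digits of an exponent, from position `j` on. -/
def trBits (L c i : ℕ) : List Bool → ℕ → List (ℕ × ℕ)
  | [], _ => []
  | b :: bs, j => (if b then [(4 * (i + L * j) + c, 1)] else []) ++ trBits L c i bs (j + 1)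

def trFactor (L c : ℕ) (f : ℕ × ℕ) : List (ℕ × ℕ) := trBits L c f.1 (Nat.bits f.2) 0

def trMono (L c : ℕ) (m : Mono) : Mono := (m.1, m.2.flatMap (trFactor L c))

def trPoly (L c : ℕ) (p : Poly) : Poly := p.map (trMono L c)

def Fml.tr (L c : ℕ) : Fml → Fml
  | .eq p => .eq (trPoly L c p)
  | .gt p => .gt (trPoly L c p)
  | .ge p => .ge (trPoly L c p)
  | .not φ => .not (φ.tr L c)
  | .and φ ψ => .and (φ.tr L c) (ψ.tr L c)
  | .or φ ψ => .or (φ.tr L c) (ψ.tr L c)

/-- `p(x) = 0` or `p(x) ≥ δ` or `p(x) ≤ -δ`. -/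
def sepF (L : ℕ) (p : Poly) : Fml :=
  .or (.eq (trPoly L 2 p)) (.or (.ge (trPoly L 2 p ++ [(-1, [(0, 1)])]))
    (.not (.gt (trPoly L 2 p ++ [(1, [(0, 1)])]))))

/-- The bounds for the unknowns of index `i`. -/
def boundsF (i : ℕ) : List Fml :=
  [.ge [(1, [(1, 1)]), (-1, [(4 * i + 2, 1)]), (1, [(4 * i + 3, 1)])],
   .ge [(1, [(1, 1)]), (1, [(4 * i + 2, 1)]), (-1, [(4 * i + 3, 1)])],
   .ge [(1, []), (-1, [(0, 1), (4 * i + 2, 1)])],
   .ge [(1, []), (1, [(0, 1), (4 * i + 2, 1)])]]

/-- The squaring equations of index `k`. -/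
def blockF (L k : ℕ) : List Fml :=
  [.eq [(1, [(4 * k, 1)]), (-1, [(4 * k + 4, 1), (4 * k + 4, 1)])],
   .eq [(1, [(4 * k + 1, 1)]), (-1, [(4 * k + 5, 1), (4 * k + 5, 1)])],
   .eq [(1, [(4 * k + 4 * L + 2, 1)]), (-1, [(4 * k + 2, 1), (4 * k + 2, 1)])],
   .eq [(1, [(4 * k + 4 * L + 3, 1)]), (-1, [(4 * k + 3, 1), (4 * k + 3, 1)])]]

/-- The equations at the end of the chains. -/
def finalF (K : ℕ) : List Fml :=
  [.eq [(2, [(4 * K, 1)]), (-1, [])], .eq [(1, [(4 * K + 1, 1)]), (-1, [(0, 1)])]]

def outList (L : ℕ) (φ : Fml) : List Fml :=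
  (List.range L).flatMap boundsF ++ ((List.range (L * L)).flatMap (blockF L) ++
    (finalF (L * L) ++ (φ.tr L 3 :: .not (φ.tr L 2) :: φ.atoms.map (sepF L))))

/-- The conjunction of a list of formulas. -/
def andAll (l : List Fml) : Fml := l.foldr Fml.and (.eq [])

theorem andAll_holds (l : List Fml) (v : ℕ → ℝ) : (andAll l).Holds v ↔ ∀ φ ∈ l, φ.Holds v := by
  induction l with
  | nil => simp [andAll, Fml.Holds, polyVal]
  | cons a l ih =>
    have : andAll (a :: l) = .and a (andAll l) := rfl
    rw [this]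
    simp only [Fml.Holds, ih, List.mem_cons, forall_eq_or_imp]

/-! ### Semantics of the translation -/

/-- `v` satisfies the power relations for the component `c`. -/
def Powers (L c : ℕ) (v : ℕ → ℝ) (x : ℕ → ℝ) (N J : ℕ) : Prop :=
  ∀ i, i < N → ∀ j, j < J → v (4 * (i + L * j) + c) = x i ^ (2 ^ j)

theorem val_trBits (L c i N J : ℕ) (v x : ℕ → ℝ) (h : Powers L c v x N J) (hi : i < N)
    (bs : List Bool) (j : ℕ) (hj : j + bs.length ≤ J) :
    ((trBits L c i bs j).map fun f => v f.1 ^ f.2).prod =
      (x i) ^ (2 ^ j * Nat.ofDigits 2 (bs.map fun b => if b then 1 else 0)) := by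
  induction bs generalizing j with
  | nil => simp [trBits]
  | cons b bs ih =>
    rw [trBits, List.map_append, List.prod_append]
    rw [ih (j + 1) (by simp at hj; omega)]
    have hj' : j < J := by simp at hj; omega
    cases b with
    | true =>
      simp only [if_true, List.map_cons, List.map_nil, List.prod_cons, List.prod_nil, mul_one,
        pow_one, Nat.ofDigits_cons]
      rw [h i hi j hj', ← pow_add]
      congr 1
      push_cast
      ring
    | false =>
      simp only [Bool.false_eq_true, if_false, List.map_nil, List.prod_nil, one_mul,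
        List.map_cons, Nat.ofDigits_cons]
      congr 1
      push_cast
      ring

theorem ofDigits_bits (e : ℕ) :
    Nat.ofDigits 2 ((Nat.bits e).map fun b => if b then 1 else 0) = e := by
  have h := Nat.digits_two_eq_bits e
  have h2 : ((Nat.bits e).map fun b => if b then 1 else 0) = Nat.digits 2 e := by
    rw [h]
    refine List.map_congr_left fun b _ => ?_
    cases b <;> rfl
  rw [h2, Nat.ofDigits_digits]

theorem val_trFactor (L c N J : ℕ) (v x : ℕ → ℝ) (h : Powers L c v x N J) (f : ℕ × ℕ)
    (hi : f.1 < N) (hJ : (Nat.bits f.2).length ≤ J) :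
    ((trFactor L c f).map fun f => v f.1 ^ f.2).prod = x f.1 ^ f.2 := by
  unfold trFactor
  rw [val_trBits L c f.1 N J v x h hi _ 0 (by omega), ofDigits_bits]
  simp

theorem val_trPoly (L c N J : ℕ) (v x : ℕ → ℝ) (h : Powers L c v x N J) (p : Poly)
    (hp : ∀ m ∈ p, ∀ f ∈ m.2, f.1 < N ∧ (Nat.bits f.2).length ≤ J) :
    polyVal (trPoly L c p) v = polyVal p x := by
  unfold polyVal trPoly
  rw [List.map_map]
  congr 1
  refine List.map_congr_left fun m hm => ?_
  simp only [Function.comp, monoVal, trMono]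
  congr 1
  have hm' := hp m hm
  generalize m.2 = l at hm'
  induction l with
  | nil => simp
  | cons f l ih =>
    rw [List.flatMap_cons, List.map_append, List.prod_append, List.map_cons, List.prod_cons]
    rw [ih fun g hg => hm' g (by simp [hg])]
    rw [val_trFactor L c N J v x h f (hm' f (by simp)).1 (hm' f (by simp)).2]

theorem holds_tr (L c N J : ℕ) (v x : ℕ → ℝ) (h : Powers L c v x N J) (φ : Fml)
    (hp : ∀ p ∈ φ.atoms, ∀ m ∈ p, ∀ f ∈ m.2, f.1 < N ∧ (Nat.bits f.2).length ≤ J) :
    (φ.tr L c).Holds v ↔ φ.Holds x := by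
  induction φ with
  | eq p =>
    simp only [Fml.tr, Fml.Holds]
    rw [val_trPoly L c N J v x h p (hp p (by simp [Fml.atoms]))]
  | gt p =>
    simp only [Fml.tr, Fml.Holds]
    rw [val_trPoly L c N J v x h p (hp p (by simp [Fml.atoms]))]
  | ge p =>
    simp only [Fml.tr, Fml.Holds]
    rw [val_trPoly L c N J v x h p (hp p (by simp [Fml.atoms]))]
  | not φ ih => exact not_congr (ih hp)
  | and φ ψ ih1 ih2 =>
    exact and_congr (ih1 fun p hq => hp p (by simp [Fml.atoms, hq]))
      (ih2 fun p hq => hp p (by simp [Fml.atoms, hq]))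
  | or φ ψ ih1 ih2 =>
    exact or_congr (ih1 fun p hq => hp p (by simp [Fml.atoms, hq]))
      (ih2 fun p hq => hp p (by simp [Fml.atoms, hq]))

/-- From the squaring equations to the power relations. -/
theorem powers_of_squares (L c : ℕ) (v : ℕ → ℝ) (hL : 0 < L)
    (h : ∀ k, k < L * L → v (4 * k + 4 * L + c) = v (4 * k + c) * v (4 * k + c)) :
    Powers L c v (fun i => v (4 * i + c)) L (L + 1) := by
  intro i hi j
  induction j with
  | zero => intro _; simp
  | succ j ih =>
    intro hj
    have h1 := ih (by omega)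
    have h2 : i + L * j < L * L := by
      have : L * j ≤ L * (L - 1) := Nat.mul_le_mul_left _ (by omega)
      have h3 : L * (L - 1) + L = L * L := by
        obtain ⟨c, rfl⟩ : ∃ c, L = c + 1 := ⟨L - 1, by omega⟩
        simp; ring
      omega
    have h3 := h _ h2
    have h4 : 4 * (i + L * (j + 1)) + c = 4 * (i + L * j) + 4 * L + c := by ring
    rw [h4, h3, h1, pow_succ, pow_mul, sq]

/-- The chain of squares. -/
theorem chain_val (K c : ℕ) (v : ℕ → ℝ)
    (h : ∀ k, k < K → v (4 * k + c) = v (4 * k + 4 + c) * v (4 * k + 4 + c)) :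
    ∀ j, j ≤ K → v (4 * (K - j) + c) = v (4 * K + c) ^ (2 ^ j) := by
  intro j
  induction j with
  | zero => intro _; simp
  | succ j ih =>
    intro hj
    have h1 := ih (by omega)
    have h2 := h (K - (j + 1)) (by omega)
    have h3 : 4 * (K - (j + 1)) + 4 + c = 4 * (K - j) + c := by omega
    rw [h3, h1] at h2
    rw [h2, ← sq, ← pow_mul, pow_succ]

/-- The small parameters. -/
noncomputable def del (K : ℕ) : ℝ := (1 / 2) ^ (2 ^ K)

noncomputable def eps (K : ℕ) : ℝ := del K ^ (2 ^ K)

theorem polyVal_nil (v : ℕ → ℝ) : polyVal [] v = 0 := by simp [polyVal]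

theorem polyVal_cons (m : Mono) (p : Poly) (v : ℕ → ℝ) :
    polyVal (m :: p) v = monoVal m v + polyVal p v := by simp [polyVal]

theorem polyVal_append (p q : Poly) (v : ℕ → ℝ) :
    polyVal (p ++ q) v = polyVal p v + polyVal q v := by simp [polyVal]

theorem outList_holds_iff (L : ℕ) (φ : Fml) (v : ℕ → ℝ) :
    (∀ ψ ∈ outList L φ, ψ.Holds v) ↔
      (∀ i < L, ∀ ψ ∈ boundsF i, ψ.Holds v) ∧ (∀ k < L * L, ∀ ψ ∈ blockF L k, ψ.Holds v) ∧
      (∀ ψ ∈ finalF (L * L), ψ.Holds v) ∧ (φ.tr L 3).Holds v ∧ ¬ (φ.tr L 2).Holds v ∧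
      (∀ p ∈ φ.atoms, (sepF L p).Holds v) := by
  unfold outList
  constructor
  · intro h
    refine ⟨?_, ?_, ?_, ?_, ?_, ?_⟩
    · intro i hi ψ hψ
      apply h
      simp only [List.mem_append, List.mem_flatMap, List.mem_range]
      exact Or.inl ⟨i, hi, hψ⟩
    · intro k hk ψ hψ
      apply h
      simp only [List.mem_append, List.mem_flatMap, List.mem_range]
      exact Or.inr (Or.inl ⟨k, hk, hψ⟩)
    · intro ψ hψ
      apply h
      simp only [List.mem_append]
      exact Or.inr (Or.inr (Or.inl hψ))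
    · apply h; simp
    · have := h (.not (φ.tr L 2)) (by simp)
      exact this
    · intro p hp
      apply h
      simp only [List.mem_append, List.mem_cons, List.mem_map]
      exact Or.inr (Or.inr (Or.inr (Or.inr (Or.inr ⟨p, hp, rfl⟩))))
  · rintro ⟨h1, h2, h3, h4, h5, h6⟩ ψ hψ
    simp only [List.mem_append, List.mem_flatMap, List.mem_range, List.mem_cons,
      List.mem_map] at hψ
    rcases hψ with ⟨i, hi, hψ⟩ | ⟨k, hk, hψ⟩ | hψ | hψ | hψ | ⟨p, hp, rfl⟩
    · exact h1 i hi ψ hψ
    · exact h2 k hk ψ hψ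
    · exact h3 ψ hψ
    · rw [hψ]; exact h4
    · rw [hψ]; exact h5
    · exact h6 p hp

theorem sepF_holds (L N J : ℕ) (v x : ℕ → ℝ) (h : Powers L 2 v x N J) (p : Poly)
    (hp : ∀ m ∈ p, ∀ f ∈ m.2, f.1 < N ∧ (Nat.bits f.2).length ≤ J) :
    (sepF L p).Holds v ↔ (polyVal p x = 0 ∨ v 0 ≤ polyVal p x ∨ polyVal p x ≤ - v 0) := by
  unfold sepF
  simp only [Fml.Holds, polyVal_append, polyVal_cons, polyVal_nil,
    val_trPoly L 2 N J v x h p hp, monoVal]
  simp only [List.map_cons, List.map_nil, List.prod_cons, List.prod_nil, pow_one, mul_one]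
  push_cast
  constructor
  · rintro (h1 | h1 | h1)
    · exact Or.inl h1
    · exact Or.inr (Or.inl (by linarith))
    · exact Or.inr (Or.inr (by linarith))
  · rintro (h1 | h1 | h1)
    · exact Or.inl h1
    · exact Or.inr (Or.inl (by linarith))
    · exact Or.inr (Or.inr (by linarith))

theorem out_iff_TT (L n : ℕ) (φ : Fml) (hL : 0 < L) (hn : n ≤ L)
    (hφ : ∀ p ∈ φ.atoms, ∀ m ∈ p, ∀ f ∈ m.2, f.1 < n ∧ (Nat.bits f.2).length ≤ L + 1) :
    (∃ v, (andAll (outList L φ)).Holds v) ↔ TT n φ (eps (L * L)) (del (L * L)) := by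
  constructor
  · rintro ⟨v, hv⟩
    rw [andAll_holds, outList_holds_iff] at hv
    obtain ⟨h1, h2, h3, h4, h5, h6⟩ := hv
    simp only [boundsF, blockF, finalF, List.mem_cons, List.not_mem_nil, or_false, forall_eq_or_imp,
      forall_eq, Fml.Holds, polyVal_cons, polyVal_nil, monoVal, List.map_cons, List.map_nil,
      List.prod_cons, List.prod_nil, pow_one, mul_one] at h1 h2 h3
    push_cast at h1 h2 h3
    have hd : ∀ k, k < L * L → v (4 * k + 0) = v (4 * k + 4 + 0) * v (4 * k + 4 + 0) := by
      intro k hk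
      have := (h2 k hk).1
      simp only [add_zero]
      linarith
    have he : ∀ k, k < L * L → v (4 * k + 1) = v (4 * k + 4 + 1) * v (4 * k + 4 + 1) := by
      intro k hk
      have := (h2 k hk).2.1
      simp only [add_assoc]
      norm_num
      linarith
    have hdK := chain_val (L * L) 0 v hd (L * L) le_rfl
    have heK := chain_val (L * L) 1 v he (L * L) le_rfl
    simp only [Nat.sub_self, mul_zero, zero_add, add_zero] at hdK heK
    have hv0 : v 0 = del (L * L) := by
      rw [hdK, del]
      congr 1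
      linarith [h3.1]
    have hv1 : v 1 = eps (L * L) := by
      rw [heK, eps, ← hv0]
      congr 1
      linarith [h3.2]
    have hX := powers_of_squares L 2 v hL (by
      intro k hk
      have := (h2 k hk).2.2.1
      linarith)
    have hY := powers_of_squares L 3 v hL (by
      intro k hk
      have := (h2 k hk).2.2.2
      linarith)
    have hφ' : ∀ p ∈ φ.atoms, ∀ m ∈ p, ∀ f ∈ m.2, f.1 < L ∧ (Nat.bits f.2).length ≤ L + 1 :=
      fun p hp m hm f hf => ⟨(hφ p hp m hm f hf).1.trans_le hn, (hφ p hp m hm f hf).2⟩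
    -- restriction to the first `n` variables
    have hrestr : ∀ (c : ℕ) (p : Poly), p ∈ φ.atoms → polyVal p (fun i => v (4 * i + c)) =
        polyVal p (extend fun i : Fin n => v (4 * (i : ℕ) + c)) := by
      intro c p hp
      unfold polyVal
      congr 1
      refine List.map_congr_left fun m hm => ?_
      unfold monoVal
      congr 2
      refine List.map_congr_left fun f hf => ?_
      have := (hφ p hp m hm f hf).1
      simp [extend, this]
    have hrestrF : ∀ c : ℕ, φ.Holds (fun i => v (4 * i + c)) ↔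
        φ.Holds (extend fun i : Fin n => v (4 * (i : ℕ) + c)) := by
      intro c
      exact φ.holds_congr _ _ fun p hp => by rw [hrestr c p hp]
    refine ⟨fun i => v (4 * (i : ℕ) + 2), fun i => v (4 * (i : ℕ) + 3), ?_, ?_, ?_, ?_, ?_⟩
    · rw [← hrestrF 3]
      exact (holds_tr L 3 L (L + 1) v _ hY φ hφ').mp h4
    · rw [← hrestrF 2]
      exact fun h => h5 ((holds_tr L 2 L (L + 1) v _ hX φ hφ').mpr h)
    · intro p hp
      rw [← hrestr 2 p hp, ← hv0]
      exact (sepF_holds L L (L + 1) v _ hX p (hφ' p hp)).mp (h6 p hp)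
    · intro i
      have := h1 i (i.2.trans_le hn)
      rw [← hv1, abs_le]
      constructor <;> linarith [this.1, this.2.1]
    · intro i
      have := h1 i (i.2.trans_le hn)
      rw [← hv0, abs_le]
      constructor <;> linarith [this.2.2.1, this.2.2.2]
  · rintro ⟨x, y, h1, h2, h3, h4, h5⟩
    -- the assignment
    set K := L * L with hK
    set v : ℕ → ℝ := fun i =>
      if i % 4 = 0 then (1 / 2) ^ (2 ^ (K - i / 4))
      else if i % 4 = 1 then del K ^ (2 ^ (K - i / 4))
      else if i % 4 = 2 then extend x (i / 4 % L) ^ (2 ^ (i / 4 / L))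
      else extend y (i / 4 % L) ^ (2 ^ (i / 4 / L)) with hv
    have v0 : ∀ k, v (4 * k) = (1 / 2) ^ (2 ^ (K - k)) := by
      intro k
      have e1 : 4 * k % 4 = 0 := by omega
      have e2 : 4 * k / 4 = k := by omega
      simp only [hv, e1, e2, if_true]
    have v1 : ∀ k, v (4 * k + 1) = del K ^ (2 ^ (K - k)) := by
      intro k
      have e1 : (4 * k + 1) % 4 = 1 := by omega
      have e2 : (4 * k + 1) / 4 = k := by omega
      simp only [hv, e1, e2]
      norm_num
    have v2 : ∀ k, v (4 * k + 2) = extend x (k % L) ^ (2 ^ (k / L)) := by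
      intro k
      have e1 : (4 * k + 2) % 4 = 2 := by omega
      have e2 : (4 * k + 2) / 4 = k := by omega
      simp only [hv, e1, e2]
      norm_num
    have v3 : ∀ k, v (4 * k + 3) = extend y (k % L) ^ (2 ^ (k / L)) := by
      intro k
      have e1 : (4 * k + 3) % 4 = 3 := by omega
      have e2 : (4 * k + 3) / 4 = k := by omega
      simp only [hv, e1, e2]
      norm_num
    have hv0 : v 0 = del K := by
      have := v0 0
      simpa [del] using this
    have hv1 : v 1 = eps K := by
      have := v1 0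
      simpa [eps] using this
    have hX : Powers L 2 v (extend x) n (L + 1) := by
      intro i hi j _
      rw [v2]
      have e1 : (i + L * j) % L = i := by
        rw [Nat.add_mul_mod_self_left]; exact Nat.mod_eq_of_lt (by omega)
      have e2 : (i + L * j) / L = j := by
        rw [Nat.add_mul_div_left _ _ hL, Nat.div_eq_of_lt (by omega)]; simp
      rw [e1, e2]
    have hY : Powers L 3 v (extend y) n (L + 1) := by
      intro i hi j _
      rw [v3]
      have e1 : (i + L * j) % L = i := by
        rw [Nat.add_mul_mod_self_left]; exact Nat.mod_eq_of_lt (by omega)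
      have e2 : (i + L * j) / L = j := by
        rw [Nat.add_mul_div_left _ _ hL, Nat.div_eq_of_lt (by omega)]; simp
      rw [e1, e2]
    refine ⟨v, ?_⟩
    rw [andAll_holds, outList_holds_iff]
    refine ⟨?_, ?_, ?_, ?_, ?_, ?_⟩
    · intro i hi ψ hψ
      have e1 : v (4 * i + 2) = extend x i := by
        rw [v2, Nat.mod_eq_of_lt hi, Nat.div_eq_of_lt hi]; simp
      have e2 : v (4 * i + 3) = extend y i := by
        rw [v3, Nat.mod_eq_of_lt hi, Nat.div_eq_of_lt hi]; simp
      have e3 : |extend x i - extend y i| ≤ eps K := by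
        by_cases h : i < n
        · have := h4 ⟨i, h⟩
          simpa [extend, h] using this
        · have : 0 ≤ eps K := by unfold eps del; positivity
          simpa [extend, h] using this
      have e4 : |del K * extend x i| ≤ 1 := by
        by_cases h : i < n
        · have := h5 ⟨i, h⟩
          simpa [extend, h] using this
        · simp [extend, h]
      rw [abs_le] at e3 e4
      simp only [boundsF, List.mem_cons, List.not_mem_nil, or_false] at hψ
      rcases hψ with rfl | rfl | rfl | rfl <;>
      · simp only [Fml.Holds, polyVal_cons, polyVal_nil, monoVal, List.map_cons, List.map_nil,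
          List.prod_cons, List.prod_nil, pow_one, mul_one, hv0, hv1, e1, e2]
        push_cast
        linarith [e3.1, e3.2, e4.1, e4.2]
    · intro k hk ψ hψ
      have d1 : v (4 * k) = v (4 * k + 4) * v (4 * k + 4) := by
        have e1 : 4 * k + 4 = 4 * (k + 1) := by ring
        rw [e1, v0, v0, ← sq, ← pow_mul, ← pow_succ]
        congr 2
        omega
      have d2 : v (4 * k + 1) = v (4 * k + 5) * v (4 * k + 5) := by
        have e1 : 4 * k + 5 = 4 * (k + 1) + 1 := by ring
        rw [e1, v1, v1, ← sq, ← pow_mul, ← pow_succ]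
        congr 2
        omega
      have d3 : v (4 * k + 4 * L + 2) = v (4 * k + 2) * v (4 * k + 2) := by
        have e1 : 4 * k + 4 * L + 2 = 4 * (k + L) + 2 := by ring
        rw [e1, v2, v2, ← sq, ← pow_mul, ← pow_succ]
        have e2 : (k + L) % L = k % L := Nat.add_mod_right k L
        have e3 : (k + L) / L = k / L + 1 := Nat.add_div_right k hL
        rw [e2, e3]
      have d4 : v (4 * k + 4 * L + 3) = v (4 * k + 3) * v (4 * k + 3) := by
        have e1 : 4 * k + 4 * L + 3 = 4 * (k + L) + 3 := by ring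
        rw [e1, v3, v3, ← sq, ← pow_mul, ← pow_succ]
        have e2 : (k + L) % L = k % L := Nat.add_mod_right k L
        have e3 : (k + L) / L = k / L + 1 := Nat.add_div_right k hL
        rw [e2, e3]
      simp only [blockF, List.mem_cons, List.not_mem_nil, or_false] at hψ
      rcases hψ with rfl | rfl | rfl | rfl <;>
      · simp only [Fml.Holds, polyVal_cons, polyVal_nil, monoVal, List.map_cons, List.map_nil,
          List.prod_cons, List.prod_nil, pow_one, mul_one]
        push_cast
        linarith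
    · intro ψ hψ
      have f1 : v (4 * K) = 1 / 2 := by rw [v0]; simp
      have f2 : v (4 * K + 1) = del K := by rw [v1]; simp
      simp only [finalF, List.mem_cons, List.not_mem_nil, or_false] at hψ
      rcases hψ with rfl | rfl <;>
      · simp only [Fml.Holds, polyVal_cons, polyVal_nil, monoVal, List.map_cons, List.map_nil,
          List.prod_cons, List.prod_nil, pow_one, mul_one, hv0, f1, f2]
        push_cast
        linarith
    · exact (holds_tr L 3 n (L + 1) v _ hY φ hφ).mpr h1
    · exact fun h => h2 ((holds_tr L 2 n (L + 1) v _ hX φ hφ).mp h)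
    · intro p hp
      rw [sepF_holds L n (L + 1) v _ hX p (hφ p hp), hv0]
      exact h3 p hp

end Pool.Agent.H90.Closed
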