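import Pool.Agent.H90.Closed.Prog
import Pool.Agent.H90.Closed.Reduction

set_option autoImplicit false

namespace Pool.Agent.H90.Closed

/-- Pieces of text depending on the counter. -/
inductive Piece : Type
  | lit (t : Tok) (l : List Tok) : Piece
  | va (c : ℕ) : Piece
  | vb (c : ℕ) : Piece

def Piece.tok (k L : ℕ) : Piece → List Tok
  | .lit t l => t :: l
  | .va c => encFactor (4 * k + c, 1)
  | .vb c => encFactor (4 * k + 4 * L + c, 1)

def Piece.prog : Piece → Cmd
  | .lit t l => emitL t l
  | .va c => .seq (emitL .tvar (ones c)) (.seq (copy1 .cnt) (emitL .b1 []))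
  | .vb c => .seq (emitL .tvar (ones c)) (.seq (copy1 .cnt) (.seq (copy4 .ell) (emitL .b1 [])))

def Piece.sz : Piece → ℕ
  | .lit _ l => l.length + 1
  | .va c => c + 4
  | .vb c => c + 6

theorem encNat_one : encNat 1 = [Tok.b1] := by
  simp [encNat]

theorem encFactor_one (i : ℕ) : encFactor (i, 1) = Tok.tvar :: (ones i ++ [Tok.b1]) := by
  simp [encFactor, encNat_one]

theorem emits_piece (p : Piece) (k L : ℕ) (s : Sx) (h1 : s.cnt = ones (4 * k)) (h2 : s.ell = ones L)
    (h3 : s.tmp = []) : Emits p.prog s (p.tok k L) (p.sz + 8 * (4 * k + L)) := by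
  cases p with
  | lit t l =>
    exact (emits_emitL t l s).mono (by simp [Piece.sz])
  | va c =>
    have a1 := emits_emitL .tvar (ones c) s
    have a2 := emits_copy1 .cnt (by decide) (by decide) (4 * k)
      { s with acc := (Tok.tvar :: ones c).reverse ++ s.acc } h1 h3
    have a3 := emits_emitL .b1 [] { s with acc := (ones (4 * k)).reverse ++ ((Tok.tvar :: ones c).reverse ++ s.acc) }
    have a4 := Emits.seq a1 (Emits.seq a2 a3)
    have e : (Tok.tvar :: ones c) ++ (ones (4 * k) ++ [Tok.b1]) = (Piece.va c).tok k L := by
      simp only [Piece.tok, encFactor_one, List.cons_append, ← List.append_assoc, ← List.replicate_add]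
      rw [add_comm]
    rw [e] at a4
    refine a4.mono ?_
    simp only [Piece.sz, List.length_replicate, List.length_nil]
    omega
  | vb c =>
    have a1 := emits_emitL .tvar (ones c) s
    have a2 := emits_copy1 .cnt (by decide) (by decide) (4 * k)
      { s with acc := (Tok.tvar :: ones c).reverse ++ s.acc } h1 h3
    have a3 := emits_copy4 .ell (by decide) (by decide) L
      { s with acc := (ones (4 * k)).reverse ++ ((Tok.tvar :: ones c).reverse ++ s.acc) } h2 h3
    have a4 := emits_emitL .b1 []
      { s with acc := (ones (4 * L)).reverse ++ ((ones (4 * k)).reverse ++ ((Tok.tvar :: ones c).reverse ++ s.acc)) }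
    have a5 := Emits.seq a1 (Emits.seq a2 (Emits.seq a3 a4))
    have e : (Tok.tvar :: ones c) ++ (ones (4 * k) ++ (ones (4 * L) ++ [Tok.b1])) =
        (Piece.vb c).tok k L := by
      simp only [Piece.tok, encFactor_one, List.cons_append, ← List.append_assoc, ← List.replicate_add]
      congr 3
      ring
    rw [e] at a5
    refine a5.mono ?_
    simp only [Piece.sz, List.length_replicate, List.length_nil]
    omega

def progL : Piece → List Piece → Cmd
  | p, [] => p.prog
  | p, q :: l => .seq p.prog (progL q l)

theorem emits_progL (p : Piece) (l : List Piece) (k L : ℕ) : ∀ (s : Sx), s.cnt = ones (4 * k) →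
    s.ell = ones L → s.tmp = [] →
    Emits (progL p l) s ((p :: l).flatMap (Piece.tok k L))
      (((p :: l).map Piece.sz).sum + 8 * (4 * k + L) * (p :: l).length) := by
  induction l generalizing p with
  | nil =>
    intro s h1 h2 h3
    have := emits_piece p k L s h1 h2 h3
    simpa [progL] using this
  | cons q l ih =>
    intro s h1 h2 h3
    have a1 := emits_piece p k L s h1 h2 h3
    have a2 := ih q { s with acc := (p.tok k L).reverse ++ s.acc } h1 h2 h3
    refine (Emits.seq a1 a2).mono ?_
    simp only [List.map_cons, List.sum_cons, List.length_cons]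
    ring_nf
    omega

/-- The text of a list of conjuncts. -/
def encC (l : List Fml) : List Tok := l.flatMap fun ψ => Tok.tand :: ψ.enc

theorem encC_append (l l' : List Fml) : encC (l ++ l') = encC l ++ encC l' := by
  simp [encC]

theorem andAll_enc (l : List Fml) : (andAll l).enc = encC l ++ [Tok.teq, Tok.tend] := by
  induction l with
  | nil => rfl
  | cons a l ih =>
    have h1 : andAll (a :: l) = .and a (andAll l) := rfl
    rw [h1]
    simp only [Fml.enc, ih, encC, List.flatMap_cons, List.cons_append, List.append_assoc]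

def boundsP : List Piece :=
  [.lit .tand [.tge, .plus, .b1, .tvar, .one, .b1, .minus, .b1], .va 2, .lit .plus [.b1], .va 3,
   .lit .tend [.tand, .tge, .plus, .b1, .tvar, .one, .b1, .plus, .b1], .va 2, .lit .minus [.b1],
   .va 3,
   .lit .tend [.tand, .tge, .plus, .b1, .minus, .b1, .tvar, .b1], .va 2,
   .lit .tend [.tand, .tge, .plus, .b1, .plus, .b1, .tvar, .b1], .va 2, .lit .tend []]

def blockP : List Piece :=
  [.lit .tand [.teq, .plus, .b1], .va 0, .lit .minus [.b1], .va 4, .va 4,
   .lit .tend [.tand, .teq, .plus, .b1], .va 1, .lit .minus [.b1], .va 5, .va 5,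
   .lit .tend [.tand, .teq, .plus, .b1], .vb 2, .lit .minus [.b1], .va 2, .va 2,
   .lit .tend [.tand, .teq, .plus, .b1], .vb 3, .lit .minus [.b1], .va 3, .va 3,
   .lit .tend []]

def finalP : List Piece :=
  [.lit .tand [.teq, .plus, .b0, .b1], .va 0, .lit .minus [.b1, .tend],
   .lit .tand [.teq, .plus, .b1], .va 1, .lit .minus [.b1, .tvar, .b1, .tend]]

theorem encNat_zero : encNat 0 = [] := by simp [encNat]

theorem encNat_two : encNat 2 = [Tok.b0, Tok.b1] := by
  have : Nat.bits 2 = [false, true] := by
    have h := Nat.bit0_bits 1 (by norm_num)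
    simpa using h
  simp [encNat, this]

theorem boundsP_tok (i L : ℕ) : boundsP.flatMap (Piece.tok i L) = encC (boundsF i) := by
  simp [boundsP, boundsF, encC, Piece.tok, Fml.enc, encPoly, encMono, encFactor_one, encNat_one,
    List.replicate_succ]

theorem blockP_tok (k L : ℕ) : blockP.flatMap (Piece.tok k L) = encC (blockF L k) := by
  simp [blockP, blockF, encC, Piece.tok, Fml.enc, encPoly, encMono, encFactor_one, encNat_one]

theorem finalP_tok (K L : ℕ) : finalP.flatMap (Piece.tok K L) = encC (finalF K) := by
  simp [finalP, finalF, encC, Piece.tok, Fml.enc, encPoly, encMono, encFactor_one, encNat_one,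
    encNat_two]

end Pool.Agent.H90.Closed
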