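import Pool.Agent.H90.Closed.Final

set_option autoImplicit false

namespace Pool.Agent.H90.Closed

/-- Functions that coincide with polynomials. -/
def IsPol (f : ℕ → ℕ) : Prop := ∃ P : Polynomial ℕ, ∀ m, f m = P.eval m

theorem IsPol.const (c : ℕ) : IsPol fun _ => c := ⟨Polynomial.C c, fun m => by simp⟩

theorem IsPol.id : IsPol fun m => m := ⟨Polynomial.X, fun m => by simp⟩

theorem IsPol.add {f g : ℕ → ℕ} (hf : IsPol f) (hg : IsPol g) : IsPol fun m => f m + g m := by
  obtain ⟨P, hP⟩ := hf
  obtain ⟨Q, hQ⟩ := hg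
  exact ⟨P + Q, fun m => by show f m + g m = _; rw [Polynomial.eval_add, hP, hQ]⟩

theorem IsPol.mul {f g : ℕ → ℕ} (hf : IsPol f) (hg : IsPol g) : IsPol fun m => f m * g m := by
  obtain ⟨P, hP⟩ := hf
  obtain ⟨Q, hQ⟩ := hg
  exact ⟨P * Q, fun m => by show f m * g m = _; rw [Polynomial.eval_mul, hP, hQ]⟩

theorem IsPol.pow {f : ℕ → ℕ} (hf : IsPol f) (k : ℕ) : IsPol fun m => f m ^ k := by
  obtain ⟨P, hP⟩ := hf
  exact ⟨P ^ k, fun m => by show f m ^ k = _; rw [Polynomial.eval_pow, hP]⟩

theorem isPol_LL : IsPol LL := by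
  unfold LL
  exact (IsPol.const _).mul (IsPol.id.add (IsPol.const _))

theorem IsPol.costB (l : List Piece) {J L : ℕ → ℕ} (hJ : IsPol J) (hL : IsPol L) :
    IsPol fun m => costB l (J m) (L m) := by
  unfold Closed.costB
  exact ((IsPol.const _).add (((IsPol.const _).mul (((IsPol.const _).mul hJ).add hL)).mul
    (IsPol.const _))).add (IsPol.const _)

theorem IsPol.facCost {L : ℕ → ℕ} (hL : IsPol L) : IsPol fun m => facCost (L m) := by
  unfold Closed.facCost
  exact (IsPol.const _).mul ((hL.add (IsPol.const _)).pow 3)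

theorem IsPol.atomCost {L : ℕ → ℕ} (hL : IsPol L) : IsPol fun m => atomCost (L m) := by
  unfold Closed.atomCost
  exact (((IsPol.const _).mul (((hL.facCost.add (IsPol.const _)).mul hL).add
    (IsPol.const _))).add ((IsPol.const _).mul hL)).add (IsPol.const _)

theorem IsPol.cost2 {L : ℕ → ℕ} (hL : IsPol L) : IsPol fun m => cost2 (L m) := by
  unfold Closed.cost2
  have c := IsPol.const
  exact (((c _).mul hL).add (c _)).add ((((((c _).mul hL).add (c _)).mul hL).add (c _)).add
    ((((c _).mul (hL.add (hL.mul hL))).add (c _)).add (c _)))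

theorem IsPol.cost3 {L : ℕ → ℕ} (hL : IsPol L) : IsPol fun m => cost3 (L m) := by
  unfold Closed.cost3
  have c := IsPol.const
  have hLL := hL.mul hL
  exact ((((IsPol.costB _ hL hL).add (c _)).mul hL).add (c _)).add
    ((((c _).mul hL).add (c _)).add
      ((((((((IsPol.costB _ hLL hL).add (c _)).mul hL).add (c _)).mul hL).add (c _))).add
        ((IsPol.costB _ hLL hL).add (((c _).mul hLL).add (c _)))))

theorem IsPol.cost5 {L : ℕ → ℕ} (hL : IsPol L) : IsPol fun m => cost5 (L m) := by
  unfold Closed.cost5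
  have c := IsPol.const
  have h1 : IsPol fun m => (Closed.facCost (L m) + 4) * L m + 2 :=
    ((hL.facCost.add (c _)).mul hL).add (c _)
  have h2 : IsPol fun m => (Closed.atomCost (L m) + 5) * L m + 1 :=
    ((hL.atomCost.add (c _)).mul hL).add (c _)
  exact (c _).add (h1.add ((c _).add (h1.add (h2.add (c _)))))

theorem isPol_costM : IsPol costM := by
  unfold costM
  have c := IsPol.const
  exact (((c _).mul IsPol.id).add (c _)).add (isPol_LL.cost2.add (isPol_LL.cost3.add
    ((((c _).mul IsPol.id).add (c _)).add (isPol_LL.cost5.add (((c _).mul isPol_LL).add (c _))))))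

/-- The reduction `red` is computable in polynomial time. -/
theorem red_polyTime (E : Set ℕ) :
    Nonempty (Turing.TM2ComputableInPolyTime (Inst.enc (E := E)) (Inst.enc (E := {1}))
      (red (E := E))) := by
  obtain ⟨P, hP⟩ := ((IsPol.const 3).mul isPol_costM).add (IsPol.const 1)
  refine polyTime_of_exec _ _ _ redProg P fun I => ?_
  obtain ⟨n, h1, h2⟩ := run_redProg I
  exact ⟨n, by rw [← hP]; exact h1, h2⟩

end Pool.Agent.H90.Closed
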