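import Pool.Agent.H90.Closed.Injective

set_option autoImplicit false

namespace Pool.Agent.H90.Closed

/-- A decision problem: a type of inputs, written as words over a finite alphabet, and a set of
inputs for which the answer is yes. -/
structure DecProblem where
  /-- the inputs -/
  Input : Type
  /-- the alphabet -/
  Letter : Type
  /-- the alphabet is finite -/
  letterFinite : Finite Letter
  /-- the word that is written for an input -/
  enc : Input → List Letter
  /-- different inputs are written differently -/
  enc_injective : Function.Injective enc
  /-- the inputs for which the answer is yes -/
  Yes : Input → Prop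

/-- The complement of a decision problem: the same inputs, with the answers yes and no exchanged. -/
def DecProblem.compl (P : DecProblem) : DecProblem :=
  { P with Yes := fun x => ¬ P.Yes x }

/-- Polynomial-time many-one reducibility; the computability in polynomial time is the one of
Mathlib (by Turing machines with several stacks). -/
def Reduces (P Q : DecProblem) : Prop :=
  ∃ f : P.Input → Q.Input, Nonempty (Turing.TM2ComputableInPolyTime P.enc Q.enc f) ∧
    ∀ x, P.Yes x ↔ Q.Yes (f x)

/-- The existential theory of the reals: given `n` and a quantifier-free formula `φ` in the variables
`x_0, ..., x_{n-1}`, decide whether some point of `ℝ^n` satisfies `φ`. The exponents that are written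
in the monomials are restricted to the set `E`. -/
def ETR (E : Set ℕ) : DecProblem where
  Input := Inst E
  Letter := Tok
  letterFinite := inferInstance
  enc := Inst.enc
  enc_injective := Inst.enc_injective E
  Yes := fun I => ∃ x : Fin I.n → ℝ, I.φ.Holds (extend x)

/-- The problem CLOSEDNESS: given `n` and a quantifier-free formula `φ` in the variables
`x_0, ..., x_{n-1}`, decide whether the set of the points of `ℝ^n` that satisfy `φ` is closed.
The exponents that are written in the monomials are restricted to the set `E`. -/
def Closedness (E : Set ℕ) : DecProblem where
  Input := Inst E
  Letter := Tok
  letterFinite := inferInstance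
  enc := Inst.enc
  enc_injective := Inst.enc_injective E
  Yes := fun I => IsClosed I.set

/-- The class `∃ℝ`: the decision problems that are reducible to the existential theory of the
reals. -/
def ExistsR (E : Set ℕ) : Set DecProblem := {P | Reduces P (ETR E)}

/-- The class `∀ℝ`: the complements of the problems in `∃ℝ`. -/
def ForallR (E : Set ℕ) : Set DecProblem := {P | P.compl ∈ ExistsR E}

/-- A decision problem is `∀ℝ`-complete if it is in `∀ℝ` and every problem in `∀ℝ` is reducible
to it. -/
def ForallRComplete (E : Set ℕ) (P : DecProblem) : Prop :=
  P ∈ ForallR E ∧ ∀ Q ∈ ForallR E, Reduces Q P

end Pool.Agent.H90.Closed
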