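import Pool.Agent.H90.Closed.Cmd

set_option autoImplicit false

namespace Pool.Agent.H90.Closed

/-- Execution in at most `n` steps. -/
def Run (c : Cmd) (s s' : Sx) (n : ℕ) : Prop := ∃ n' ≤ n, Exec c s s' n'

theorem Run.mono {c : Cmd} {s s' : Sx} {n m : ℕ} (h : Run c s s' n) (hnm : n ≤ m) :
    Run c s s' m := by
  obtain ⟨n', h1, h2⟩ := h
  exact ⟨n', h1.trans hnm, h2⟩

theorem Run.seq {c1 c2 : Cmd} {s s1 s2 : Sx} {n1 n2 : ℕ} (h1 : Run c1 s s1 n1)
    (h2 : Run c2 s1 s2 n2) : Run (.seq c1 c2) s s2 (n1 + n2) := by
  obtain ⟨m1, a1, b1⟩ := h1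
  obtain ⟨m2, a2, b2⟩ := h2
  exact ⟨m2 + m1, by omega, .seq b1 b2⟩

theorem Run.push (k : Stk) (t : Tok) (s : Sx) : Run (.push k t) s (s.set k (t :: s.get k)) 1 :=
  ⟨1, le_rfl, .push k t s⟩

theorem Run.drop (k : Stk) (s : Sx) : Run (.drop k) s (s.set k (s.get k).tail) 1 :=
  ⟨1, le_rfl, .drop k s⟩

theorem Run.move (k k' : Stk) (s : Sx) : Run (.move k k') s (doMove s k k') 1 :=
  ⟨1, le_rfl, .move k k' s⟩

theorem Run.copyTop (k k' : Stk) (s : Sx) : Run (.copyTop k k') s (doCopy s k k') 1 :=
  ⟨1, le_rfl, .copyTop k k' s⟩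

theorem Run.ite_true {k : Stk} {p : Option Tok → Bool} {c1 c2 : Cmd} {s s' : Sx} {n : ℕ}
    (hp : p (s.get k).head? = true) (h : Run c1 s s' n) : Run (.ite k p c1 c2) s s' (n + 1) := by
  obtain ⟨m1, a1, b1⟩ := h
  exact ⟨m1 + 1, by omega, .ite_true hp b1⟩

theorem Run.ite_false {k : Stk} {p : Option Tok → Bool} {c1 c2 : Cmd} {s s' : Sx} {n : ℕ}
    (hp : p (s.get k).head? = false) (h : Run c2 s s' n) : Run (.ite k p c1 c2) s s' (n + 1) := by
  obtain ⟨m1, a1, b1⟩ := h
  exact ⟨m1 + 1, by omega, .ite_false hp b1⟩

theorem Run.loop_done {k : Stk} {p : Option Tok → Bool} {c : Cmd} {s : Sx}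
    (hp : p (s.get k).head? = false) : Run (.loop k p c) s s 1 :=
  ⟨1, le_rfl, .loop_done hp⟩

theorem Run.loop_step {k : Stk} {p : Option Tok → Bool} {c : Cmd} {s s1 s2 : Sx} {n1 n2 : ℕ}
    (hp : p (s.get k).head? = true) (h1 : Run c s s1 n1) (h2 : Run (.loop k p c) s1 s2 n2) :
    Run (.loop k p c) s s2 (n1 + n2 + 1) := by
  obtain ⟨m1, a1, b1⟩ := h1
  obtain ⟨m2, a2, b2⟩ := h2
  exact ⟨m2 + m1 + 1, by omega, .loop_step hp b1 b2⟩

theorem Run.cast {c : Cmd} {s s' s'' : Sx} {n m : ℕ} (h : Run c s s' n) (hs : s' = s'')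
    (hnm : n ≤ m) : Run c s s'' m := by
  subst hs; exact h.mono hnm

/-! ### Moving whole stacks -/

theorem Sx.get_set_same (s : Sx) (k : Stk) (x : List Tok) : (s.set k x).get k = x := by
  cases k <;> rfl

theorem Sx.get_set_ne (s : Sx) {k j : Stk} (h : j ≠ k) (x : List Tok) :
    (s.set k x).get j = s.get j := by
  cases k <;> cases j <;> first | rfl | exact absurd rfl h

theorem Sx.set_set_same (s : Sx) (k : Stk) (x y : List Tok) : (s.set k x).set k y = s.set k y := by
  cases k <;> rfl

theorem Sx.set_comm (s : Sx) {k j : Stk} (h : j ≠ k) (x y : List Tok) :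
    (s.set k x).set j y = (s.set j y).set k x := by
  cases k <;> cases j <;> first | rfl | exact absurd rfl h

theorem Sx.set_get (s : Sx) (k : Stk) : s.set k (s.get k) = s := by
  cases k <;> rfl

/-- Move the whole stack `k` to the stack `k'`. -/
def moveAll (k k' : Stk) : Cmd := .loop k Option.isSome (.move k k')

theorem run_moveAll_aux (k k' : Stk) (hk : k ≠ k') (X : List Tok) : ∀ (s : Sx), s.get k = X →
    Run (moveAll k k') s ((s.set k []).set k' (X.reverse ++ s.get k')) (2 * X.length + 1) := by
  induction X with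
  | nil =>
    intro s hs
    refine (Run.loop_done (by rw [hs]; rfl)).cast ?_ (by simp)
    have h1 : s.set k [] = s := by rw [← hs, Sx.set_get]
    rw [h1, List.reverse_nil, List.nil_append, Sx.set_get]
  | cons t X ih =>
    intro s hs
    have h1 : Run (.move k k') s ((s.set k X).set k' (t :: s.get k')) 1 := by
      refine (Run.move k k' s).cast ?_ le_rfl
      unfold doMove
      rw [hs]
      simp only
      rw [Sx.get_set_ne _ hk.symm]
    have h2 := ih ((s.set k X).set k' (t :: s.get k'))
      (by rw [Sx.get_set_ne _ hk, Sx.get_set_same])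
    refine (Run.loop_step (by rw [hs]; rfl) h1 h2).cast ?_ (by simp only [List.length_cons]; omega)
    rw [Sx.get_set_same, Sx.set_comm _ hk, Sx.set_set_same, Sx.set_set_same]
    simp

/-- Remove the whole stack `k`. -/
def clearStk (k : Stk) : Cmd := .loop k Option.isSome (.drop k)

theorem run_clear (k : Stk) (X : List Tok) : ∀ (s : Sx), s.get k = X →
    Run (clearStk k) s (s.set k []) (2 * X.length + 1) := by
  induction X with
  | nil =>
    intro s hs
    refine (Run.loop_done (by rw [hs]; rfl)).cast ?_ (by simp)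
    rw [← hs, Sx.set_get]
  | cons t X ih =>
    intro s hs
    have h1 : Run (.drop k) s (s.set k X) 1 := by
      refine (Run.drop k s).cast ?_ le_rfl
      rw [hs]; rfl
    have h2 := ih (s.set k X) (by rw [Sx.get_set_same])
    refine (Run.loop_step (by rw [hs]; rfl) h1 h2).cast ?_ (by simp only [List.length_cons]; omega)
    rw [Sx.set_set_same]

/-! ### Emitting tokens -/

/-- The program `c` pushes the tokens `w` (in this order) on the stack `acc`, in at most `n` steps. -/
def Emits (c : Cmd) (s : Sx) (w : List Tok) (n : ℕ) : Prop :=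
  Run c s { s with acc := w.reverse ++ s.acc } n

theorem Emits.mono {c : Cmd} {s : Sx} {w : List Tok} {n m : ℕ} (h : Emits c s w n) (hnm : n ≤ m) :
    Emits c s w m := Run.mono h hnm

theorem Emits.seq {c1 c2 : Cmd} {s : Sx} {w1 w2 : List Tok} {n1 n2 : ℕ} (h1 : Emits c1 s w1 n1)
    (h2 : Emits c2 { s with acc := w1.reverse ++ s.acc } w2 n2) :
    Emits (.seq c1 c2) s (w1 ++ w2) (n1 + n2) := by
  refine (Run.seq h1 h2).cast ?_ le_rfl
  simp

/-- Emit the tokens `t :: l`. -/
def emitL (t : Tok) : List Tok → Cmd
  | [] => .push .acc t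
  | t' :: l => .seq (.push .acc t) (emitL t' l)

theorem emits_emitL (t : Tok) (l : List Tok) : ∀ s, Emits (emitL t l) s (t :: l) (l.length + 1) := by
  induction l generalizing t with
  | nil =>
    intro s
    exact Run.push .acc t s
  | cons t' l ih =>
    intro s
    have h1 : Emits (.push .acc t) s [t] 1 := Run.push .acc t s
    have h2 := Emits.seq h1 (ih t' { s with acc := [t].reverse ++ s.acc })
    exact Emits.mono h2 (by simp only [List.length_cons]; omega)

/-- Emit the tokens `t :: l` once for each element of the stack `k`. -/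
def copyStk (k : Stk) (t : Tok) (l : List Tok) : Cmd :=
  .seq (.loop k Option.isSome (.seq (.move k .tmp) (emitL t l))) (moveAll .tmp k)

theorem run_copy_aux (k : Stk) (hk1 : k ≠ .tmp) (hk2 : k ≠ .acc) (t : Tok) (l X : List Tok) :
    ∀ (s : Sx), s.get k = X →
    Run (.loop k Option.isSome (.seq (.move k .tmp) (emitL t l))) s
      (({ s with tmp := X.reverse ++ s.tmp,
                 acc := (List.replicate X.length (t :: l)).flatten.reverse ++ s.acc } : Sx).set k [])
      ((l.length + 3) * X.length + 1) := by
  induction X with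
  | nil =>
    intro s hs
    refine (Run.loop_done (by rw [hs]; rfl)).cast ?_ (by simp)
    have h1 : s.set k [] = s := by rw [← hs, Sx.set_get]
    simp only [List.reverse_nil, List.nil_append, List.length_nil, List.replicate_zero,
      List.flatten_nil]
    exact h1.symm
  | cons u X ih =>
    intro s hs
    have h1 : Run (.move k .tmp) s (({ s with tmp := u :: s.tmp } : Sx).set k X) 1 := by
      refine (Run.move k .tmp s).cast ?_ le_rfl
      unfold doMove
      rw [hs]
      simp only
      rw [Sx.get_set_ne _ hk1.symm, Sx.set_comm _ hk1.symm]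
      rfl
    have h2 := emits_emitL t l (({ s with tmp := u :: s.tmp } : Sx).set k X)
    have h3 := Run.seq h1 h2
    set s1 : Sx := { (({ s with tmp := u :: s.tmp } : Sx).set k X) with
      acc := (t :: l).reverse ++ (({ s with tmp := u :: s.tmp } : Sx).set k X).acc } with hs1
    have e1 : s1 = ({ s with tmp := u :: s.tmp, acc := (t :: l).reverse ++ s.acc } : Sx).set k X := by
      cases k <;> first | rfl | exact absurd rfl hk1 | exact absurd rfl hk2
    rw [e1] at h3
    have h4 := ih (({ s with tmp := u :: s.tmp, acc := (t :: l).reverse ++ s.acc } : Sx).set k X)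
      (by rw [Sx.get_set_same])
    refine (Run.loop_step (by rw [hs]; rfl) h3 h4).cast ?_ ?_
    · have e2 : ∀ (a b : List Tok), (List.replicate (u :: X).length (t :: l)).flatten.reverse ++ a =
          (List.replicate X.length (t :: l)).flatten.reverse ++ ((t :: l).reverse ++ a) := by
        intro a _
        rw [List.length_cons, List.replicate_succ, List.flatten_cons, List.reverse_append,
          List.append_assoc]
      rw [e2 _ []]
      cases k <;> first | exact absurd rfl hk1 | exact absurd rfl hk2 |
        simp [Sx.set]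
    · simp only [List.length_cons]
      ring_nf
      omega

theorem emits_copyStk (k : Stk) (hk1 : k ≠ .tmp) (hk2 : k ≠ .acc) (t : Tok) (l X : List Tok)
    (s : Sx) (hs : s.get k = X) (ht : s.tmp = []) :
    Emits (copyStk k t l) s (List.replicate X.length (t :: l)).flatten
      ((l.length + 5) * X.length + 2) := by
  have h1 := run_copy_aux k hk1 hk2 t l X s hs
  set s1 : Sx := (({ s with
                       tmp := X.reverse ++ s.tmp,
                       acc := (List.replicate X.length (t :: l)).flatten.reverse ++ s.acc } : Sx).set k []) with hs1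
  have e1 : s1.get .tmp = X.reverse := by
    rw [hs1, Sx.get_set_ne _ hk1.symm, ht]
    simp [Sx.get]
  have h2 := run_moveAll_aux .tmp k hk1.symm X.reverse s1 e1
  refine (Run.seq h1 h2).cast ?_ ?_
  · rw [hs1, List.reverse_reverse, Sx.get_set_same, List.append_nil]
    subst hs
    cases k <;> first | exact absurd rfl hk1 | exact absurd rfl hk2 |
      simp [Sx.set, Sx.get, ht]
  · rw [List.length_reverse]
    ring_nf
    omega

theorem flatten_replicate_one (n : ℕ) (a : ℕ) :
    (List.replicate n (List.replicate a Tok.one)).flatten = List.replicate (n * a) Tok.one := by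
  induction n with
  | zero => simp
  | succ n ih =>
    rw [List.replicate_succ, List.flatten_cons, ih, ← List.replicate_add]
    congr 1
    ring

abbrev ones (n : ℕ) : List Tok := List.replicate n Tok.one

/-- Emit as many ones as there are in the stack `k`. -/
def copy1 (k : Stk) : Cmd := copyStk k .one []

/-- Emit four times as many ones as there are in the stack `k`. -/
def copy4 (k : Stk) : Cmd := copyStk k .one [.one, .one, .one]

theorem emits_copy1 (k : Stk) (hk1 : k ≠ .tmp) (hk2 : k ≠ .acc) (a : ℕ) (s : Sx)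
    (hs : s.get k = ones a) (ht : s.tmp = []) : Emits (copy1 k) s (ones a) (5 * a + 2) := by
  have h := emits_copyStk k hk1 hk2 .one [] (ones a) s hs ht
  have e : (List.replicate (ones a).length [Tok.one]).flatten = ones a := by
    have := flatten_replicate_one a 1
    rw [List.length_replicate]
    simpa using this
  rw [e] at h
  exact h.mono (by rw [List.length_replicate]; simp)

theorem emits_copy4 (k : Stk) (hk1 : k ≠ .tmp) (hk2 : k ≠ .acc) (a : ℕ) (s : Sx)
    (hs : s.get k = ones a) (ht : s.tmp = []) : Emits (copy4 k) s (ones (4 * a)) (8 * a + 2) := by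
  have h := emits_copyStk k hk1 hk2 .one [.one, .one, .one] (ones a) s hs ht
  have e : (List.replicate (ones a).length [Tok.one, Tok.one, Tok.one, Tok.one]).flatten =
      ones (4 * a) := by
    have := flatten_replicate_one a 4
    rw [List.length_replicate]
    rw [mul_comm 4 a]
    exact this
  rw [e] at h
  exact h.mono (by rw [List.length_replicate]; simp)

end Pool.Agent.H90.Closed
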