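import Pool.Agent.H90.Closed.Trans

set_option autoImplicit false

namespace Pool.Agent.H90.Closed

/-! ### Items of polynomials and formulas -/

def signTok (c : ℤ) : Tok := if c < 0 then Tok.minus else Tok.plus

def itemsMono (m : Mono) : List Item :=
  Sum.inl (signTok m.1) :: ((encNat m.1.natAbs).map Sum.inl ++ m.2.map Sum.inr)

def itemsPoly (p : Poly) : List Item := p.flatMap itemsMono

def Fml.items : Fml → List Item
  | .eq p => Sum.inl .teq :: (itemsPoly p ++ [Sum.inl .tend])
  | .gt p => Sum.inl .tgt :: (itemsPoly p ++ [Sum.inl .tend])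
  | .ge p => Sum.inl .tge :: (itemsPoly p ++ [Sum.inl .tend])
  | .not φ => Sum.inl .tnot :: φ.items
  | .and φ ψ => Sum.inl .tand :: (φ.items ++ ψ.items)
  | .or φ ψ => Sum.inl .tor :: (φ.items ++ ψ.items)

theorem flatMap_inl_enc (l : List Tok) : (l.map (Sum.inl : Tok → Item)).flatMap encItem = l := by
  induction l with
  | nil => rfl
  | cons a l ih => rw [List.map_cons, List.flatMap_cons, ih]; rfl

theorem flatMap_inl_tr (L c : ℕ) (l : List Tok) :
    (l.map (Sum.inl : Tok → Item)).flatMap (trItem L c) = l := by
  induction l with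
  | nil => rfl
  | cons a l ih => rw [List.map_cons, List.flatMap_cons, ih]; rfl

theorem itemsMono_enc (m : Mono) : (itemsMono m).flatMap encItem = encMono m := by
  unfold itemsMono encMono signTok
  rw [List.flatMap_cons, List.flatMap_append, flatMap_inl_enc, List.flatMap_map]
  rfl

theorem itemsMono_tr (L c : ℕ) (m : Mono) :
    (itemsMono m).flatMap (trItem L c) = encMono (trMono L c m) := by
  unfold itemsMono encMono signTok trMono
  rw [List.flatMap_cons, List.flatMap_append, flatMap_inl_tr, List.flatMap_map]
  simp only [trItem, List.flatMap_assoc]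
  rfl

theorem itemsPoly_enc (p : Poly) : (itemsPoly p).flatMap encItem = p.flatMap encMono := by
  unfold itemsPoly
  rw [List.flatMap_assoc]
  congr 1
  funext m
  exact itemsMono_enc m

theorem itemsPoly_tr (L c : ℕ) (p : Poly) :
    (itemsPoly p).flatMap (trItem L c) = (trPoly L c p).flatMap encMono := by
  unfold itemsPoly trPoly
  rw [List.flatMap_assoc, List.flatMap_map]
  congr 1
  funext m
  exact itemsMono_tr L c m

theorem items_enc (φ : Fml) : φ.items.flatMap encItem = φ.enc := by
  induction φ with
  | eq p => simp [Fml.items, Fml.enc, encPoly, itemsPoly_enc, encItem]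
  | gt p => simp [Fml.items, Fml.enc, encPoly, itemsPoly_enc, encItem]
  | ge p => simp [Fml.items, Fml.enc, encPoly, itemsPoly_enc, encItem]
  | not φ ih => simp [Fml.items, Fml.enc, ih, encItem]
  | and φ ψ ih1 ih2 => simp [Fml.items, Fml.enc, ih1, ih2, encItem]
  | or φ ψ ih1 ih2 => simp [Fml.items, Fml.enc, ih1, ih2, encItem]

theorem items_tr (L c : ℕ) (φ : Fml) : φ.items.flatMap (trItem L c) = (φ.tr L c).enc := by
  induction φ with
  | eq p => simp [Fml.items, Fml.tr, Fml.enc, encPoly, itemsPoly_tr, trItem]
  | gt p => simp [Fml.items, Fml.tr, Fml.enc, encPoly, itemsPoly_tr, trItem]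
  | ge p => simp [Fml.items, Fml.tr, Fml.enc, encPoly, itemsPoly_tr, trItem]
  | not φ ih => simp [Fml.items, Fml.tr, Fml.enc, ih, trItem]
  | and φ ψ ih1 ih2 => simp [Fml.items, Fml.tr, Fml.enc, ih1, ih2, trItem]
  | or φ ψ ih1 ih2 => simp [Fml.items, Fml.tr, Fml.enc, ih1, ih2, trItem]

def GoodH : List Item → List Tok → Prop
  | [], _ => True
  | .inl t :: is, rest => t ≠ .tvar ∧ GoodH is rest
  | .inr _ :: is, rest => headOK (is.flatMap encItem ++ rest) ∧ GoodH is rest

theorem good_of_goodH (p : Option Tok → Bool) (is : List Item) (rest : List Tok)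
    (h1 : GoodH is rest) (h2 : ∀ t, Sum.inl t ∈ is → p (some t) = true)
    (h3 : p rest.head? = false) : Good p is rest := by
  induction is with
  | nil => exact h3
  | cons it is ih =>
    cases it with
    | inl t => exact ⟨h1.1, h2 t (by simp), ih h1.2 fun t ht => h2 t (by simp [ht])⟩
    | inr f => exact ⟨h1.1, ih h1.2 fun t ht => h2 t (by simp [ht])⟩

theorem goodH_append (a b : List Item) (rest : List Tok)
    (h1 : GoodH a (b.flatMap encItem ++ rest)) (h2 : GoodH b rest) : GoodH (a ++ b) rest := by
  induction a with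
  | nil => exact h2
  | cons it a ih =>
    cases it with
    | inl t => exact ⟨h1.1, ih h1.2⟩
    | inr f =>
      refine ⟨?_, ih h1.2⟩
      have := h1.1
      show headOK (List.flatMap encItem (a ++ b) ++ rest)
      rw [List.flatMap_append, List.append_assoc]
      exact this

theorem goodH_inl (l : List Tok) (rest : List Tok) (h : ∀ t ∈ l, t ≠ .tvar) :
    GoodH (l.map Sum.inl) rest := by
  induction l with
  | nil => trivial
  | cons a l ih => exact ⟨h a (by simp), ih fun t ht => h t (by simp [ht])⟩

theorem mem_encNat (k : ℕ) (t : Tok) (ht : t ∈ encNat k) : t = .b0 ∨ t = .b1 := by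
  unfold encNat at ht
  rw [List.mem_map] at ht
  obtain ⟨b, _, rfl⟩ := ht
  cases b <;> simp

theorem signTok_eq (c : ℤ) : signTok c = .minus ∨ signTok c = .plus := by
  unfold signTok
  split_ifs <;> simp

theorem goodH_factors (l : List (ℕ × ℕ)) (rest : List Tok) (h : headOK rest) :
    GoodH (l.map Sum.inr) rest := by
  induction l with
  | nil => trivial
  | cons f l ih =>
    refine ⟨?_, ih⟩
    cases l with
    | nil => simpa using h
    | cons g l =>
      have : List.flatMap encItem (List.map Sum.inr (g :: l)) ++ rest =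
        .tvar :: (List.replicate g.1 Tok.one ++ encNat g.2 ++ List.flatMap encItem (List.map Sum.inr l) ++ rest) := by
        simp [encItem, encFactor]
      rw [this]
      exact ⟨rfl, rfl⟩

theorem goodH_mono (m : Mono) (rest : List Tok) (h : headOK rest) : GoodH (itemsMono m) rest := by
  unfold itemsMono
  refine ⟨?_, ?_⟩
  · rcases signTok_eq m.1 with h | h <;> rw [h] <;> simp
  · refine goodH_append _ _ _ (goodH_inl _ _ ?_) (goodH_factors _ _ h)
    intro t ht
    rcases mem_encNat _ t ht with h | h <;> rw [h] <;> simp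

theorem goodH_poly (p : Poly) (rest : List Tok) (h : headOK rest) : GoodH (itemsPoly p) rest := by
  induction p with
  | nil => trivial
  | cons m p ih =>
    have e : itemsPoly (m :: p) = itemsMono m ++ itemsPoly p := by simp [itemsPoly]
    rw [e]
    refine goodH_append _ _ _ (goodH_mono m _ ?_) ih
    cases p with
    | nil => simpa [itemsPoly] using h
    | cons m' p =>
      rw [itemsPoly_enc, List.flatMap_cons]
      have : encMono m' ++ List.flatMap encMono p ++ rest =
          signTok m'.1 :: (encNat m'.1.natAbs ++ m'.2.flatMap encFactor ++ List.flatMap encMono p ++ rest) := by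
        simp [encMono, signTok]
      rw [this]
      rcases signTok_eq m'.1 with h | h <;> rw [h] <;> exact ⟨rfl, rfl⟩

theorem goodH_tend (rest : List Tok) : headOK (Tok.tend :: rest) := ⟨rfl, rfl⟩

theorem goodH_items (φ : Fml) : ∀ rest, GoodH φ.items rest := by
  induction φ with
  | eq p =>
    intro rest
    exact ⟨by simp, goodH_append _ _ _ (goodH_poly p _ (goodH_tend _)) ⟨by simp, trivial⟩⟩
  | gt p =>
    intro rest
    exact ⟨by simp, goodH_append _ _ _ (goodH_poly p _ (goodH_tend _)) ⟨by simp, trivial⟩⟩
  | ge p =>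
    intro rest
    exact ⟨by simp, goodH_append _ _ _ (goodH_poly p _ (goodH_tend _)) ⟨by simp, trivial⟩⟩
  | not φ ih => intro rest; exact ⟨by simp, ih _⟩
  | and φ ψ ih1 ih2 => intro rest; exact ⟨by simp, goodH_append _ _ _ (ih1 _) (ih2 _)⟩
  | or φ ψ ih1 ih2 => intro rest; exact ⟨by simp, goodH_append _ _ _ (ih1 _) (ih2 _)⟩

theorem mem_inr_length (is : List Item) (f : ℕ × ℕ) (hf : Sum.inr f ∈ is) :
    (encFactor f).length ≤ (is.flatMap encItem).length := by
  rw [List.length_flatMap]
  have h1 : (encItem (Sum.inr f)).length ∈ is.map fun a => (encItem a).length :=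
    List.mem_map_of_mem (f := fun a => (encItem a).length) hf
  exact List.le_sum_of_mem h1

theorem length_items_le (is : List Item) : is.length ≤ (is.flatMap encItem).length := by
  induction is with
  | nil => simp
  | cons it is ih =>
    rw [List.flatMap_cons, List.length_append, List.length_cons]
    have : 1 ≤ (encItem it).length := by
      cases it <;> simp [encItem, encFactor]
    omega

/-! ### The translation of a whole formula -/

theorem run_trAll (c L Q : ℕ) (hc : c ≤ 3) (hL : L ≤ Q) (φ : Fml) (s : Sx)
    (hQ : φ.enc.length ≤ Q) (h1 : s.inp = φ.enc) (h2 : s.ii = []) (h3 : s.jj = [])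
    (h4 : s.ell = ones L) (h5 : s.tmp = []) (h6 : s.out = []) (h7 : s.save = []) :
    Run (.seq (trLoop c Option.isSome) (moveAll .save .inp)) s
      { s with acc := (φ.tr L c).enc.reverse ++ s.acc } ((facCost Q + 4) * Q + 2) := by
  have a1 := run_trLoop c L Q hc hL Option.isSome rfl φ.items s []
    (good_of_goodH _ _ _ (goodH_items φ []) (fun t _ => rfl) rfl)
    (fun f hf => ((mem_inr_length _ _ hf).trans (by rw [items_enc])).trans hQ)
    (by rw [items_enc, List.append_nil]; exact h1) h2 h3 h4 h5 h6
  rw [items_enc, items_tr] at a1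
  have a2 := run_moveAll_aux .save .inp (by decide) (φ.enc.reverse) { s with
      inp := [],
      save := φ.enc.reverse ++ s.save,
      acc := (φ.tr L c).enc.reverse ++ s.acc } (by simp [Sx.get, h7])
  refine (Run.seq a1 a2).cast ?_ ?_
  · apply Sx.ext <;> simp [Sx.get, Sx.set, h1, h7]
  · have e1 : φ.items.length ≤ Q := (length_items_le _).trans (by rw [items_enc]; exact hQ)
    rw [List.length_reverse]
    have e2 : (facCost Q + 2) * φ.items.length ≤ (facCost Q + 2) * Q := Nat.mul_le_mul_left _ e1
    have e3 : (facCost Q + 4) * Q = (facCost Q + 2) * Q + 2 * Q := by ring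
    omega

/-! ### The separation conditions -/

def isAtomTok : Option Tok → Bool
  | some .teq => true
  | some .tgt => true
  | some .tge => true
  | _ => false

def notTend : Option Tok → Bool
  | some .tend => false
  | none => false
  | _ => true

def notAtom : Option Tok → Bool
  | some .teq => false
  | some .tgt => false
  | some .tge => false
  | none => false
  | _ => true

def rewind : Cmd := .loop .save notAtom (.move .save .inp)

theorem run_rewind (X : List Tok) : ∀ (s : Sx) (a : Tok) (Y : List Tok), s.save = X ++ (a :: Y) →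
    (∀ t ∈ X, notAtom (some t) = true) → notAtom (some a) = false →
    Run rewind s { s with save := a :: Y, inp := X.reverse ++ s.inp } (2 * X.length + 1) := by
  induction X with
  | nil =>
    intro s a Y h1 _ h3
    refine (Run.loop_done (k := .save) (by simp [Sx.get, h1, h3])).cast ?_ (by simp)
    apply Sx.ext <;> simp_all
  | cons t X ih =>
    intro s a Y h1 h2 h3
    have a1 : Run (.move .save .inp) s
        { s with save := X ++ (a :: Y), inp := t :: s.inp } 1 := by
      refine (Run.move .save .inp s).cast ?_ le_rfl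
      simp only [doMove, Sx.get, h1]
      rfl
    have a2 := ih { s with save := X ++ (a :: Y), inp := t :: s.inp } a Y rfl
      (fun t ht => h2 t (by simp [ht])) h3
    refine (Run.loop_step (k := .save) (by simp [Sx.get, h1, h2 t (by simp)]) a1 a2).cast ?_ ?_
    · apply Sx.ext <;> simp
    · simp only [List.length_cons]; omega

def atomProg : Cmd :=
  .seq (.move .inp .save) (.seq (emitL .tand [.tor, .teq]) (.seq (trLoop 2 notTend)
    (.seq (emitL .tend [.tor, .tge]) (.seq rewind (.seq (trLoop 2 notTend)
    (.seq (emitL .minus [.b1, .tvar, .b1, .tend, .tnot, .tgt]) (.seq rewind (.seq (trLoop 2 notTend)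
    (.seq (emitL .plus [.b1, .tvar, .b1, .tend]) (.move .inp .save))))))))))

theorem mem_itemsPoly_inl (p : Poly) (t : Tok) (ht : Sum.inl t ∈ itemsPoly p) :
    t = .minus ∨ t = .plus ∨ t = .b0 ∨ t = .b1 := by
  unfold itemsPoly at ht
  rw [List.mem_flatMap] at ht
  obtain ⟨m, _, ht⟩ := ht
  unfold itemsMono at ht
  simp only [List.mem_cons, List.mem_append, List.mem_map, Sum.inl.injEq, exists_eq_right,
    reduceCtorEq, and_false, exists_false, or_false] at ht
  rcases ht with ht | ht
  · rw [ht]
    rcases signTok_eq m.1 with h | h <;> rw [h] <;> simp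
  · rcases mem_encNat _ t ht with h | h <;> rw [h] <;> simp

theorem mem_encFactor (f : ℕ × ℕ) (t : Tok) (ht : t ∈ encFactor f) :
    t = .tvar ∨ t = .one ∨ t = .b0 ∨ t = .b1 := by
  simp only [encFactor, List.mem_cons, List.mem_append, List.mem_replicate] at ht
  rcases ht with h | h | h
  · exact Or.inl h
  · exact Or.inr (Or.inl h.2)
  · exact Or.inr (Or.inr (mem_encNat _ _ h))

theorem mem_polyBody (p : Poly) (t : Tok) (ht : t ∈ p.flatMap encMono) :
    notAtom (some t) = true := by
  rw [← itemsPoly_enc, List.mem_flatMap] at ht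
  obtain ⟨it, hit, ht⟩ := ht
  cases it with
  | inl u =>
    simp only [encItem, List.mem_singleton] at ht
    subst ht
    rcases mem_itemsPoly_inl p t hit with h | h | h | h <;> rw [h] <;> rfl
  | inr f =>
    rcases mem_encFactor f t ht with h | h | h | h <;> rw [h] <;> rfl

/-- Cost bound for one atom. -/
def atomCost (Q : ℕ) : ℕ := 3 * ((facCost Q + 2) * Q + 1) + 4 * Q + 40

theorem run_atomProg (L Q : ℕ) (hL : L ≤ Q) (p : Poly) (a : Tok) (ha : notAtom (some a) = false)
    (s : Sx) (rest : List Tok) (hQ : (encPoly p).length ≤ Q)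
    (h1 : s.inp = a :: (encPoly p ++ rest)) (h2 : s.ii = []) (h3 : s.jj = [])
    (h4 : s.ell = ones L) (h5 : s.tmp = []) (h6 : s.out = []) :
    Run atomProg s
      { s with
          inp := rest,
          save := (a :: encPoly p).reverse ++ s.save,
          acc := (Tok.tand :: (sepF L p).enc).reverse ++ s.acc } (atomCost Q) := by
  have hinp : s.inp = a :: (p.flatMap encMono ++ (Tok.tend :: rest)) := by
    rw [h1]; simp [encPoly]
  have hPQ : (p.flatMap encMono).length + 1 ≤ Q := by
    refine le_trans (le_of_eq ?_) hQ
    simp [encPoly]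
  have hPQ' : (p.flatMap encMono).length ≤ Q := by omega
  have hbody : ∀ t ∈ (p.flatMap encMono).reverse, notAtom (some t) = true := by
    intro t ht
    rw [List.mem_reverse] at ht
    exact mem_polyBody p t ht
  have hitems : (itemsPoly p).length ≤ Q := by
    refine (length_items_le _).trans ?_
    rw [itemsPoly_enc]
    exact hPQ'
  have hfac : ∀ f, Sum.inr f ∈ itemsPoly p → (encFactor f).length ≤ Q := by
    intro f hf
    refine (mem_inr_length _ _ hf).trans ?_
    rw [itemsPoly_enc]
    exact hPQ'
  set P := p.flatMap encMono with hP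
  set P' := (trPoly L 2 p).flatMap encMono with hP'
  -- the translation loop from a state with `inp = P ++ tend :: rest`
  have tr : ∀ (A S : List Tok), Run (trLoop 2 notTend)
      { s with inp := P ++ (Tok.tend :: rest), acc := A, save := S }
      { s with inp := Tok.tend :: rest, acc := P'.reverse ++ A, save := P.reverse ++ S }
      ((facCost Q + 2) * Q + 1) := by
    intro A S
    have b1 := run_trLoop 2 L Q (by omega) hL notTend rfl (itemsPoly p)
      { s with inp := P ++ (Tok.tend :: rest), acc := A, save := S } (Tok.tend :: rest)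
      (good_of_goodH _ _ _ (goodH_poly p _ (goodH_tend _)) (fun t ht => by
        rcases mem_itemsPoly_inl p t ht with h | h | h | h <;> rw [h] <;> rfl) rfl)
      hfac
      (by rw [itemsPoly_enc]) h2 h3 h4 h5 h6
    rw [itemsPoly_enc, itemsPoly_tr] at b1
    refine b1.cast rfl ?_
    have := Nat.mul_le_mul_left (facCost Q + 2) hitems
    omega
  have rw1 : ∀ (A S : List Tok), Run rewind
      { s with inp := Tok.tend :: rest, acc := A, save := P.reverse ++ (a :: S) }
      { s with inp := P ++ (Tok.tend :: rest), acc := A, save := a :: S } (2 * Q + 1) := by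
    intro A S
    refine (run_rewind P.reverse
      { s with inp := Tok.tend :: rest, acc := A, save := P.reverse ++ (a :: S) } a S rfl
      hbody ha).cast ?_ ?_
    · apply Sx.ext <;> simp
    · rw [List.length_reverse]; omega
  have a1 : Run (.move .inp .save) s
      { s with inp := P ++ (Tok.tend :: rest), acc := s.acc, save := a :: s.save } 1 := by
    refine (Run.move .inp .save s).cast ?_ le_rfl
    simp only [doMove, Sx.get, hinp]
    rfl
  have em : ∀ (t : Tok) (l I A S : List Tok), Run (emitL t l)
      { s with inp := I, acc := A, save := S }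
      { s with inp := I, acc := (t :: l).reverse ++ A, save := S } (l.length + 1) := by
    intro t l I A S
    exact emits_emitL t l { s with inp := I, acc := A, save := S }
  have a11 : ∀ A S : List Tok, Run (.move .inp .save)
      { s with inp := Tok.tend :: rest, acc := A, save := S }
      { s with inp := rest, acc := A, save := Tok.tend :: S } 1 := by
    intro A S
    exact (Run.move .inp .save _).cast rfl le_rfl
  refine (Run.seq a1 (Run.seq (em _ _ _ _ _) (Run.seq (tr _ _) (Run.seq (em _ _ _ _ _)
    (Run.seq (rw1 _ _) (Run.seq (tr _ _) (Run.seq (em _ _ _ _ _) (Run.seq (rw1 _ _)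
    (Run.seq (tr _ _) (Run.seq (em _ _ _ _ _) (a11 _ _))))))))))).cast ?_ ?_
  · apply Sx.ext
    case acc =>
      simp [sepF, Fml.enc, encPoly, encMono, encFactor, encNat_one, ← hP']
    case save =>
      simp [encPoly, ← hP]
    all_goals simp
  · unfold atomCost
    simp only [List.length_cons, List.length_nil]
    omega

/-- The loop for the separation conditions. -/
def sepLoop : Cmd := .loop .inp Option.isSome (.ite .inp isAtomTok atomProg (.move .inp .save))

theorem run_sepLoop (L Q : ℕ) (hL : L ≤ Q) (φ : Fml) : ∀ (s s' : Sx) (rest : List Tok) (n : ℕ),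
    φ.enc.length ≤ Q → s.inp = φ.enc ++ rest → s.ii = [] → s.jj = [] → s.ell = ones L →
    s.tmp = [] → s.out = [] →
    Run sepLoop { s with
        inp := rest,
        save := φ.enc.reverse ++ s.save,
        acc := (encC (φ.atoms.map (sepF L))).reverse ++ s.acc } s' n →
    Run sepLoop s s' ((atomCost Q + 5) * φ.enc.length + n) := by
  have atomCase : ∀ (p : Poly) (a : Tok) (ha1 : notAtom (some a) = false)
      (ha2 : isAtomTok (some a) = true) (s s' : Sx) (rest : List Tok) (n : ℕ),
      (a :: encPoly p).length ≤ Q → s.inp = (a :: encPoly p) ++ rest → s.ii = [] → s.jj = [] →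
      s.ell = ones L → s.tmp = [] → s.out = [] →
      Run sepLoop { s with
          inp := rest,
          save := (a :: encPoly p).reverse ++ s.save,
          acc := (encC [sepF L p]).reverse ++ s.acc } s' n →
      Run sepLoop s s' ((atomCost Q + 5) * (a :: encPoly p).length + n) := by
    intro p a ha1 ha2 s s' rest n hQ h1 h2 h3 h4 h5 h6 hrun
    have hQ' : (encPoly p).length ≤ Q := by simp only [List.length_cons] at hQ; omega
    have a1 := run_atomProg L Q hL p a ha1 s rest hQ' h1 h2 h3 h4 h5 h6
    have a2 : Run (.ite .inp isAtomTok atomProg (.move .inp .save)) s _ (atomCost Q + 1) :=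
      Run.ite_true (by simp [Sx.get, h1, ha2]) a1
    have e : encC [sepF L p] = Tok.tand :: (sepF L p).enc := by simp [encC]
    rw [e] at hrun
    refine (Run.loop_step (k := .inp) (by simp [Sx.get, h1]) a2 hrun).cast rfl ?_
    simp only [List.length_cons]
    have e2 : atomCost Q + 5 ≤ (atomCost Q + 5) * ((encPoly p).length + 1) :=
      Nat.le_mul_of_pos_right _ (by omega)
    omega
  have connCase : ∀ (a : Tok) (l : List Tok) (ha : isAtomTok (some a) = false) (s : Sx),
      s.inp = a :: l → Run (.ite .inp isAtomTok atomProg (.move .inp .save)) s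
        { s with inp := l, save := a :: s.save } 2 := by
    intro a l ha s h1
    refine (Run.ite_false (k := .inp) (by simp [Sx.get, h1, ha]) (Run.move .inp .save s)).cast ?_ le_rfl
    simp only [doMove, Sx.get, h1]
    rfl
  induction φ with
  | eq p =>
    intro s s' rest n hQ h1 h2 h3 h4 h5 h6 hrun
    exact atomCase p .teq rfl rfl s s' rest n hQ h1 h2 h3 h4 h5 h6 hrun
  | gt p =>
    intro s s' rest n hQ h1 h2 h3 h4 h5 h6 hrun
    exact atomCase p .tgt rfl rfl s s' rest n hQ h1 h2 h3 h4 h5 h6 hrun
  | ge p =>
    intro s s' rest n hQ h1 h2 h3 h4 h5 h6 hrun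
    exact atomCase p .tge rfl rfl s s' rest n hQ h1 h2 h3 h4 h5 h6 hrun
  | not φ ih =>
    intro s s' rest n hQ h1 h2 h3 h4 h5 h6 hrun
    simp only [Fml.enc, List.length_cons] at hQ
    have hinp : s.inp = .tnot :: (φ.enc ++ rest) := by rw [h1]; rfl
    have a1 := connCase .tnot (φ.enc ++ rest) rfl s hinp
    have a2 := ih { s with inp := φ.enc ++ rest, save := .tnot :: s.save } s' rest n (by omega) rfl
      h2 h3 h4 h5 h6 (by
        refine Eq.mp ?_ hrun
        congr 1
        apply Sx.ext <;> simp [Fml.enc, Fml.atoms])
    refine (Run.loop_step (k := .inp) (by simp [Sx.get, hinp]) a1 a2).cast rfl ?_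
    simp only [Fml.enc, List.length_cons]
    ring_nf
    omega
  | and φ ψ ih1 ih2 =>
    intro s s' rest n hQ h1 h2 h3 h4 h5 h6 hrun
    simp only [Fml.enc, List.length_cons, List.length_append] at hQ
    have hinp : s.inp = .tand :: (φ.enc ++ (ψ.enc ++ rest)) := by rw [h1]; simp [Fml.enc]
    have a1 := connCase .tand (φ.enc ++ (ψ.enc ++ rest)) rfl s hinp
    have a3 := ih2 { s with
        inp := ψ.enc ++ rest
        save := φ.enc.reverse ++ (.tand :: s.save)
        acc := (encC (φ.atoms.map (sepF L))).reverse ++ s.acc } s' rest n (by omega) rfl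
      h2 h3 h4 h5 h6 (by
        refine Eq.mp ?_ hrun
        congr 1
        apply Sx.ext <;> simp [Fml.enc, Fml.atoms, encC_append])
    have a2 := ih1 { s with inp := φ.enc ++ (ψ.enc ++ rest), save := .tand :: s.save } s'
      (ψ.enc ++ rest) _ (by omega) rfl h2 h3 h4 h5 h6 a3
    refine (Run.loop_step (k := .inp) (by simp [Sx.get, hinp]) a1 a2).cast rfl ?_
    simp only [Fml.enc, List.length_cons, List.length_append]
    ring_nf
    omega
  | or φ ψ ih1 ih2 =>
    intro s s' rest n hQ h1 h2 h3 h4 h5 h6 hrun
    simp only [Fml.enc, List.length_cons, List.length_append] at hQ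
    have hinp : s.inp = .tor :: (φ.enc ++ (ψ.enc ++ rest)) := by rw [h1]; simp [Fml.enc]
    have a1 := connCase .tor (φ.enc ++ (ψ.enc ++ rest)) rfl s hinp
    have a3 := ih2 { s with
        inp := ψ.enc ++ rest
        save := φ.enc.reverse ++ (.tor :: s.save)
        acc := (encC (φ.atoms.map (sepF L))).reverse ++ s.acc } s' rest n (by omega) rfl
      h2 h3 h4 h5 h6 (by
        refine Eq.mp ?_ hrun
        congr 1
        apply Sx.ext <;> simp [Fml.enc, Fml.atoms, encC_append])
    have a2 := ih1 { s with inp := φ.enc ++ (ψ.enc ++ rest), save := .tor :: s.save } s'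
      (ψ.enc ++ rest) _ (by omega) rfl h2 h3 h4 h5 h6 a3
    refine (Run.loop_step (k := .inp) (by simp [Sx.get, hinp]) a1 a2).cast rfl ?_
    simp only [Fml.enc, List.length_cons, List.length_append]
    ring_nf
    omega

end Pool.Agent.H90.Closed
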