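import Pool.Agent.H90.Closed.ToMv
import Pool.Agent.H90.Closed.Gap

set_option autoImplicit false
set_option linter.unusedSectionVars false

namespace Pool.Agent.H90.Closed

open MvPolynomial

section generic

variable {R : Type} [CommRing R]

def e1 (s : SignType) (p u : R) : R :=
  match s with
  | .zero => p
  | .pos => p * u ^ 2 - 1
  | .neg => p * u ^ 2 + 1

def e2 (s : SignType) (p u d : R) : R :=
  match s with
  | .zero => p
  | .pos => p - d - u ^ 2
  | .neg => p + d + u ^ 2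

def e3 (x y w e : R) : R := e ^ 2 - (x - y) ^ 2 - w ^ 2

def e4 (x w d : R) : R := 1 - (d * x) ^ 2 - w ^ 2

end generic

/-- The condition expressed by `e2`. -/
def Cond (s : SignType) (p d : ℝ) : Prop :=
  match s with
  | .zero => p = 0
  | .pos => d ≤ p
  | .neg => p ≤ -d

theorem exists_e1 (s : SignType) (p : ℝ) : (∃ u, e1 s p u = 0) ↔ SignType.sign p = s := by
  cases s with
  | zero =>
    simp only [e1, exists_const]
    exact sign_eq_zero_iff.symm
  | pos =>
    simp only [e1]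
    rw [show (SignType.pos) = (1 : SignType) from rfl, sign_eq_one_iff]
    constructor
    · rintro ⟨u, hu⟩
      by_contra hcon
      push Not at hcon
      nlinarith [sq_nonneg u]
    · intro hp
      refine ⟨Real.sqrt (1 / p), ?_⟩
      rw [Real.sq_sqrt (by positivity)]
      field_simp
      ring
  | neg =>
    simp only [e1]
    rw [show (SignType.neg) = (-1 : SignType) from rfl, sign_eq_neg_one_iff]
    constructor
    · rintro ⟨u, hu⟩
      by_contra hcon
      push Not at hcon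
      nlinarith [sq_nonneg u]
    · intro hp
      refine ⟨Real.sqrt (1 / (-p)), ?_⟩
      have h1 : 0 < -p := by linarith
      rw [Real.sq_sqrt (by positivity), one_div, inv_neg, mul_neg, mul_inv_cancel₀ hp.ne]
      ring

theorem exists_e2 (s : SignType) (p d : ℝ) : (∃ u, e2 s p u d = 0) ↔ Cond s p d := by
  cases s with
  | zero => simp only [e2, Cond, exists_const]
  | pos =>
    simp only [e2, Cond]
    constructor
    · rintro ⟨u, hu⟩; nlinarith [sq_nonneg u]
    · intro hp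
      refine ⟨Real.sqrt (p - d), ?_⟩
      rw [Real.sq_sqrt (by linarith)]
      ring
  | neg =>
    simp only [e2, Cond]
    constructor
    · rintro ⟨u, hu⟩; nlinarith [sq_nonneg u]
    · intro hp
      refine ⟨Real.sqrt (-p - d), ?_⟩
      rw [Real.sq_sqrt (by linarith)]
      ring

theorem exists_e3 (x y e : ℝ) (he : 0 ≤ e) : (∃ w, e3 x y w e = 0) ↔ |x - y| ≤ e := by
  unfold e3
  constructor
  · rintro ⟨w, hw⟩
    apply abs_le_of_sq_le_sq _ he
    nlinarith [sq_nonneg w]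
  · intro h
    refine ⟨Real.sqrt (e ^ 2 - (x - y) ^ 2), ?_⟩
    rw [Real.sq_sqrt]
    · ring
    · have := sq_le_sq' (by linarith [abs_le.mp h]) (abs_le.mp h).2
      linarith

theorem exists_e4 (x d : ℝ) : (∃ w, e4 x w d = 0) ↔ |d * x| ≤ 1 := by
  unfold e4
  constructor
  · rintro ⟨w, hw⟩
    apply abs_le_of_sq_le_sq _ (by norm_num)
    nlinarith [sq_nonneg w]
  · intro h
    refine ⟨Real.sqrt (1 - (d * x) ^ 2), ?_⟩
    rw [Real.sq_sqrt]
    · ring
    · have := sq_le_sq' (by linarith [abs_le.mp h]) (abs_le.mp h).2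
      linarith

/-- The index type of the unknowns. -/
abbrev Idx (n r : ℕ) : Type := (Fin 4 × Fin n) ⊕ (Fin 2 × Fin r)

theorem card_Idx (n r : ℕ) : Fintype.card (Idx n r) = 4 * n + 2 * r := by
  simp [Idx]

/-- The variable polynomials. -/
noncomputable def vx (n r : ℕ) (c : Fin 4) (i : ℕ) : MvPolynomial (Idx n r ⊕ Fin 2) ℤ :=
  if h : i < n then X (Sum.inl (Sum.inl (c, ⟨i, h⟩))) else 0

/-- The polynomial system for a pair of sign patterns. -/
noncomputable def sysF (n : ℕ) (l : List Poly) (σ τ : Fin l.length → SignType) :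
    MvPolynomial (Idx n l.length ⊕ Fin 2) ℤ :=
  (∑ a : Fin l.length, e1 (σ a) (toMv (vx n l.length 1) (l.get a)) (X (Sum.inl (Sum.inr (0, a)))) ^ 2) +
  (∑ a : Fin l.length, e2 (τ a) (toMv (vx n l.length 0) (l.get a)) (X (Sum.inl (Sum.inr (1, a))))
      (X (Sum.inr 1)) ^ 2) +
  (∑ i : Fin n, e3 (X (Sum.inl (Sum.inl (0, i)))) (X (Sum.inl (Sum.inl (1, i))))
      (X (Sum.inl (Sum.inl (2, i)))) (X (Sum.inr 0)) ^ 2) +
  (∑ i : Fin n, e4 (X (Sum.inl (Sum.inl (0, i)))) (X (Sum.inl (Sum.inl (3, i)))) (X (Sum.inr 1)) ^ 2)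

theorem map_e1 {R S : Type} [CommRing R] [CommRing S] (f : R →+* S) (s : SignType) (p u : R) :
    f (e1 s p u) = e1 s (f p) (f u) := by
  cases s <;> simp [e1]

theorem map_e2 {R S : Type} [CommRing R] [CommRing S] (f : R →+* S) (s : SignType) (p u d : R) :
    f (e2 s p u d) = e2 s (f p) (f u) (f d) := by
  cases s <;> simp [e2]

theorem map_e3 {R S : Type} [CommRing R] [CommRing S] (f : R →+* S) (x y w e : R) :
    f (e3 x y w e) = e3 (f x) (f y) (f w) (f e) := by
  simp [e3]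

theorem map_e4 {R S : Type} [CommRing R] [CommRing S] (f : R →+* S) (x w d : R) :
    f (e4 x w d) = e4 (f x) (f w) (f d) := by
  simp [e4]

theorem aeval_vx (n r : ℕ) (c : Fin 4) (Y : Idx n r → ℝ) (t : Fin 2 → ℝ) (i : ℕ) :
    aeval (Sum.elim Y t) (vx n r c i) = extend (fun j : Fin n => Y (Sum.inl (c, j))) i := by
  unfold vx extend
  split_ifs
  · simp
  · simp

theorem ev_sysF (n : ℕ) (l : List Poly) (σ τ : Fin l.length → SignType)
    (Y : Idx n l.length → ℝ) (t : Fin 2 → ℝ) :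
    ev (sysF n l σ τ) Y t =
      (∑ a : Fin l.length, e1 (σ a) (polyVal (l.get a) (extend fun j : Fin n => Y (Sum.inl (1, j))))
        (Y (Sum.inr (0, a))) ^ 2) +
      (∑ a : Fin l.length, e2 (τ a) (polyVal (l.get a) (extend fun j : Fin n => Y (Sum.inl (0, j))))
        (Y (Sum.inr (1, a))) (t 1) ^ 2) +
      (∑ i : Fin n, e3 (Y (Sum.inl (0, i))) (Y (Sum.inl (1, i))) (Y (Sum.inl (2, i))) (t 0) ^ 2) +
      (∑ i : Fin n, e4 (Y (Sum.inl (0, i))) (Y (Sum.inl (3, i))) (t 1) ^ 2) := by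
  have h1 : ∀ s (p u : MvPolynomial (Idx n l.length ⊕ Fin 2) ℤ),
      aeval (Sum.elim Y t) (e1 s p u) = e1 s (aeval (Sum.elim Y t) p) (aeval (Sum.elim Y t) u) :=
    fun s p u => map_e1 (aeval (Sum.elim Y t) : MvPolynomial (Idx n l.length ⊕ Fin 2) ℤ →ₐ[ℤ] ℝ).toRingHom s p u
  have h2 : ∀ s (p u d : MvPolynomial (Idx n l.length ⊕ Fin 2) ℤ),
      aeval (Sum.elim Y t) (e2 s p u d) =
        e2 s (aeval (Sum.elim Y t) p) (aeval (Sum.elim Y t) u) (aeval (Sum.elim Y t) d) :=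
    fun s p u d => map_e2 (aeval (Sum.elim Y t) : MvPolynomial (Idx n l.length ⊕ Fin 2) ℤ →ₐ[ℤ] ℝ).toRingHom s p u d
  have h3 : ∀ (x y w e : MvPolynomial (Idx n l.length ⊕ Fin 2) ℤ),
      aeval (Sum.elim Y t) (e3 x y w e) =
        e3 (aeval (Sum.elim Y t) x) (aeval (Sum.elim Y t) y) (aeval (Sum.elim Y t) w)
          (aeval (Sum.elim Y t) e) :=
    fun x y w e => map_e3 (aeval (Sum.elim Y t) : MvPolynomial (Idx n l.length ⊕ Fin 2) ℤ →ₐ[ℤ] ℝ).toRingHom x y w e
  have h4 : ∀ (x w d : MvPolynomial (Idx n l.length ⊕ Fin 2) ℤ),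
      aeval (Sum.elim Y t) (e4 x w d) =
        e4 (aeval (Sum.elim Y t) x) (aeval (Sum.elim Y t) w) (aeval (Sum.elim Y t) d) :=
    fun x w d => map_e4 (aeval (Sum.elim Y t) : MvPolynomial (Idx n l.length ⊕ Fin 2) ℤ →ₐ[ℤ] ℝ).toRingHom x w d
  unfold ev sysF
  simp only [map_add, map_sum, map_pow, h1, h2, h3, h4, aeval_X, Sum.elim_inl, Sum.elim_inr,
    aeval_toMv, aeval_vx]

theorem ev_sysF_nonneg (n : ℕ) (l : List Poly) (σ τ : Fin l.length → SignType)
    (Y : Idx n l.length → ℝ) (t : Fin 2 → ℝ) : 0 ≤ ev (sysF n l σ τ) Y t := by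
  rw [ev_sysF]
  positivity

/-- The truth of a pair of sign patterns for the parameters `ε`, `δ`. -/
def Pat (n : ℕ) (l : List Poly) (σ τ : Fin l.length → SignType) (ε δ : ℝ) : Prop :=
  ∃ x y : Fin n → ℝ, (∀ a, SignType.sign (polyVal (l.get a) (extend y)) = σ a) ∧
    (∀ a, Cond (τ a) (polyVal (l.get a) (extend x)) δ) ∧
    (∀ i, |x i - y i| ≤ ε) ∧ (∀ i, |δ * x i| ≤ 1)

theorem pat_iff (n : ℕ) (l : List Poly) (σ τ : Fin l.length → SignType) (ε δ : ℝ) (hε : 0 ≤ ε) :
    Pat n l σ τ ε δ ↔ ∃ Y, ev (sysF n l σ τ) Y ![ε, δ] = 0 := by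
  constructor
  · rintro ⟨x, y, h1, h2, h3, h4⟩
    choose u hu using fun a => (exists_e1 _ _).mpr (h1 a)
    choose u' hu' using fun a => (exists_e2 _ _ _).mpr (h2 a)
    choose w hw using fun i => (exists_e3 _ _ _ hε).mpr (h3 i)
    choose w' hw' using fun i => (exists_e4 _ _).mpr (h4 i)
    refine ⟨Sum.elim (fun p => ![x p.2, y p.2, w p.2, w' p.2] p.1) (fun p => ![u p.2, u' p.2] p.1), ?_⟩
    rw [ev_sysF]
    simp only [Sum.elim_inl, Sum.elim_inr, Matrix.cons_val_zero, Matrix.cons_val_one,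
      Matrix.cons_val, hu, hu', hw, hw']
    simp
  · rintro ⟨Y, hY⟩
    rw [ev_sysF] at hY
    have n1 : 0 ≤ (∑ a : Fin l.length, e1 (σ a) (polyVal (l.get a) (extend fun j : Fin n => Y (Sum.inl (1, j))))
        (Y (Sum.inr (0, a))) ^ 2) := by positivity
    have n2 : 0 ≤ (∑ a : Fin l.length, e2 (τ a) (polyVal (l.get a) (extend fun j : Fin n => Y (Sum.inl (0, j))))
        (Y (Sum.inr (1, a))) ((![ε, δ] : Fin 2 → ℝ) 1) ^ 2) := by positivity
    have n3 : 0 ≤ (∑ i : Fin n, e3 (Y (Sum.inl (0, i))) (Y (Sum.inl (1, i))) (Y (Sum.inl (2, i)))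
        ((![ε, δ] : Fin 2 → ℝ) 0) ^ 2) := by positivity
    have n4 : 0 ≤ (∑ i : Fin n, e4 (Y (Sum.inl (0, i))) (Y (Sum.inl (3, i)))
        ((![ε, δ] : Fin 2 → ℝ) 1) ^ 2) := by positivity
    have z1 := le_antisymm (by linarith) n1
    have z2 := le_antisymm (by linarith) n2
    have z3 := le_antisymm (by linarith) n3
    have z4 := le_antisymm (by linarith) n4
    rw [Finset.sum_eq_zero_iff_of_nonneg (fun _ _ => by positivity)] at z1 z2 z3 z4
    refine ⟨fun j => Y (Sum.inl (0, j)), fun j => Y (Sum.inl (1, j)), fun a => ?_, fun a => ?_,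
      fun i => ?_, fun i => ?_⟩
    · exact (exists_e1 _ _).mp ⟨_, pow_eq_zero_iff (two_ne_zero) |>.mp (z1 a (Finset.mem_univ _))⟩
    · exact (exists_e2 _ _ _).mp ⟨_, pow_eq_zero_iff (two_ne_zero) |>.mp (z2 a (Finset.mem_univ _))⟩
    · exact (exists_e3 _ _ _ hε).mp ⟨_, pow_eq_zero_iff (two_ne_zero) |>.mp (z3 i (Finset.mem_univ _))⟩
    · exact (exists_e4 _ _).mp ⟨_, pow_eq_zero_iff (two_ne_zero) |>.mp (z4 i (Finset.mem_univ _))⟩

/-! ### Size bounds -/

theorem l1_vx (n r : ℕ) (c : Fin 4) (i : ℕ) : l1 (vx n r c i) ≤ 1 := by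
  unfold vx
  split_ifs
  · exact l1_X_le _
  · simp

theorem totalDegree_vx (n r : ℕ) (c : Fin 4) (i : ℕ) : (vx n r c i).totalDegree ≤ 1 := by
  unfold vx
  split_ifs
  · rw [totalDegree_X]
  · simp

variable {σ : Type}

theorem l1_X_sq (i : σ) : l1 ((X i : MvPolynomial σ ℤ) ^ 2) ≤ 1 :=
  (l1_pow_le _ _).trans (pow_le_one₀ (Nat.zero_le _) (l1_X_le i))

theorem l1_e1 (s : SignType) (p : MvPolynomial σ ℤ) (i : σ) : l1 (e1 s p (X i)) ≤ l1 p + 1 := by
  have h1 : l1 (p * X i ^ 2) ≤ l1 p := by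
    refine (l1_mul_le _ _).trans ?_
    calc _ ≤ l1 p * 1 := Nat.mul_le_mul_left _ (l1_X_sq i)
      _ = _ := mul_one _
  have h2 := l1_one_le (σ := σ)
  cases s with
  | zero => simp [e1]
  | pos => exact (l1_sub_le _ _).trans (by omega)
  | neg => exact (l1_add_le _ _).trans (by omega)

theorem l1_e2 (s : SignType) (p : MvPolynomial σ ℤ) (i j : σ) :
    l1 (e2 s p (X i) (X j)) ≤ l1 p + 2 := by
  have h1 := l1_X_sq i
  have h2 := l1_X_le j
  cases s with
  | zero => simp [e2]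
  | pos =>
    refine (l1_sub_le _ _).trans ?_
    have := l1_sub_le p (X j)
    omega
  | neg =>
    refine (l1_add_le _ _).trans ?_
    have := l1_add_le p (X j)
    omega

theorem l1_e3 (i j k m : σ) :
    l1 (e3 (X i : MvPolynomial σ ℤ) (X j) (X k) (X m)) ≤ 6 := by
  have h1 := l1_X_sq (σ := σ) k
  have h2 := l1_X_sq (σ := σ) m
  have h3 : l1 ((X i - X j : MvPolynomial σ ℤ) ^ 2) ≤ 4 := by
    refine (l1_pow_le _ _).trans ?_
    have : l1 (X i - X j : MvPolynomial σ ℤ) ≤ 2 :=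
      (l1_sub_le _ _).trans (by have := l1_X_le (σ := σ) i; have := l1_X_le (σ := σ) j; omega)
    calc _ ≤ 2 ^ 2 := Nat.pow_le_pow_left this 2
      _ = 4 := rfl
  refine (l1_sub_le _ _).trans ?_
  have := l1_sub_le ((X m : MvPolynomial σ ℤ) ^ 2) ((X i - X j) ^ 2)
  omega

theorem l1_e4 (i j k : σ) :
    l1 (e4 (X i : MvPolynomial σ ℤ) (X j) (X k)) ≤ 3 := by
  have h1 := l1_X_sq (σ := σ) j
  have h3 : l1 ((X k * X i : MvPolynomial σ ℤ) ^ 2) ≤ 1 := by
    refine (l1_pow_le _ _).trans ?_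
    refine pow_le_one₀ (Nat.zero_le _) ((l1_mul_le _ _).trans ?_)
    calc _ ≤ 1 * 1 := Nat.mul_le_mul (l1_X_le _) (l1_X_le _)
      _ = 1 := rfl
  have h2 := l1_one_le (σ := σ)
  refine (l1_sub_le _ _).trans ?_
  have := l1_sub_le (1 : MvPolynomial σ ℤ) ((X k * X i) ^ 2)
  omega

theorem deg_X_sq (i : σ) : ((X i : MvPolynomial σ ℤ) ^ 2).totalDegree ≤ 2 := by
  refine (totalDegree_pow _ _).trans ?_
  rw [totalDegree_X]

theorem deg_e1 (s : SignType) (p : MvPolynomial σ ℤ) (i : σ) :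
    (e1 s p (X i)).totalDegree ≤ p.totalDegree + 2 := by
  have h1 : (p * X i ^ 2).totalDegree ≤ p.totalDegree + 2 :=
    (totalDegree_mul _ _).trans (Nat.add_le_add_left (deg_X_sq i) _)
  have h2 : (1 : MvPolynomial σ ℤ).totalDegree ≤ p.totalDegree + 2 := by simp
  cases s with
  | zero => simp [e1]
  | pos => exact (totalDegree_sub _ _).trans (max_le h1 h2)
  | neg => exact (totalDegree_add _ _).trans (max_le h1 h2)

theorem deg_e2 (s : SignType) (p : MvPolynomial σ ℤ) (i j : σ) :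
    (e2 s p (X i) (X j)).totalDegree ≤ p.totalDegree + 2 := by
  have h1 := deg_X_sq i
  have h2 : (X j : MvPolynomial σ ℤ).totalDegree ≤ 1 := by rw [totalDegree_X]
  cases s with
  | zero => simp [e2]
  | pos =>
    refine (totalDegree_sub _ _).trans (max_le ?_ (by omega))
    exact (totalDegree_sub _ _).trans (max_le (by omega) (by omega))
  | neg =>
    refine (totalDegree_add _ _).trans (max_le ?_ (by omega))
    exact (totalDegree_add _ _).trans (max_le (by omega) (by omega))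

theorem deg_e3 (i j k m : σ) :
    (e3 (X i : MvPolynomial σ ℤ) (X j) (X k) (X m)).totalDegree ≤ 4 := by
  have h1 := deg_X_sq k
  have h2 := deg_X_sq m
  have h3 : ((X i - X j : MvPolynomial σ ℤ) ^ 2).totalDegree ≤ 2 := by
    refine (totalDegree_pow _ _).trans ?_
    have : (X i - X j : MvPolynomial σ ℤ).totalDegree ≤ 1 := by
      refine (totalDegree_sub _ _).trans (max_le ?_ ?_) <;> rw [totalDegree_X]
    omega
  refine (totalDegree_sub _ _).trans (max_le ?_ (by omega))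
  exact (totalDegree_sub _ _).trans (max_le (by omega) (by omega))

theorem deg_e4 (i j k : σ) :
    (e4 (X i : MvPolynomial σ ℤ) (X j) (X k)).totalDegree ≤ 4 := by
  have h1 := deg_X_sq j
  have h3 : ((X k * X i : MvPolynomial σ ℤ) ^ 2).totalDegree ≤ 4 := by
    refine (totalDegree_pow _ _).trans ?_
    have : (X k * X i : MvPolynomial σ ℤ).totalDegree ≤ 2 := by
      refine (totalDegree_mul _ _).trans ?_
      rw [totalDegree_X, totalDegree_X]
    omega
  refine (totalDegree_sub _ _).trans (max_le ?_ (by omega))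
  exact (totalDegree_sub _ _).trans (max_le (by simp) (by omega))

theorem sysF_bounds (n : ℕ) (l : List Poly) (s t : Fin l.length → SignType) (m : ℕ)
    (hm : 1 ≤ m) (hn : n ≤ m) (hl : l.length ≤ m) (hnorm : ∀ p ∈ l, polyNorm p < 2 ^ m)
    (hdeg : ∀ p ∈ l, ∀ q ∈ p, monoDeg q ≤ 2 ^ m) :
    (sysF n l s t).totalDegree ≤ 2 ^ (m + 3) + 1 ∧ l1 (sysF n l s t) ≤ 2 ^ (3 * m + 8) := by
  have hm2 : 2 ≤ 2 ^ m := by
    calc 2 = 2 ^ 1 := rfl
      _ ≤ 2 ^ m := Nat.pow_le_pow_right (by norm_num) hm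
  have hp : ∀ (c : Fin 4) (a : Fin l.length),
      l1 (toMv (vx n l.length c) (l.get a)) < 2 ^ m ∧
      (toMv (vx n l.length c) (l.get a)).totalDegree ≤ 2 ^ m := by
    intro c a
    constructor
    · exact (l1_toMv_le _ (l1_vx _ _ _) _).trans_lt (hnorm _ (List.get_mem l a))
    · exact totalDegree_toMv_le _ (totalDegree_vx _ _ _) _ _ (hdeg _ (List.get_mem l a))
  constructor
  · have h8 : 2 * (2 ^ m + 2) ≤ 2 ^ (m + 3) + 1 := by rw [pow_add]; omega
    have h9 : 2 * 4 ≤ 2 ^ (m + 3) + 1 := by rw [pow_add]; omega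
    unfold sysF
    refine (totalDegree_add _ _).trans (max_le ?_ ?_)
    · refine (totalDegree_add _ _).trans (max_le ?_ ?_)
      · refine (totalDegree_add _ _).trans (max_le ?_ ?_)
        · apply totalDegree_finsetSum_le
          intro a _
          refine (totalDegree_pow _ _).trans ?_
          have := deg_e1 (s a) (toMv (vx n l.length 1) (l.get a)) (Sum.inl (Sum.inr (0, a)))
          have := (hp 1 a).2
          omega
        · apply totalDegree_finsetSum_le
          intro a _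
          refine (totalDegree_pow _ _).trans ?_
          have := deg_e2 (t a) (toMv (vx n l.length 0) (l.get a)) (Sum.inl (Sum.inr (1, a)))
            (Sum.inr 1)
          have := (hp 0 a).2
          omega
      · apply totalDegree_finsetSum_le
        intro i _
        refine (totalDegree_pow _ _).trans ?_
        exact (Nat.mul_le_mul_left _ (deg_e3 _ _ _ _)).trans h9
    · apply totalDegree_finsetSum_le
      intro i _
      refine (totalDegree_pow _ _).trans ?_
      exact (Nat.mul_le_mul_left _ (deg_e4 _ _ _)).trans h9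
  · have hsq : ∀ (q : MvPolynomial (Idx n l.length ⊕ Fin 2) ℤ), l1 q ≤ 2 ^ m + 5 →
        l1 (q ^ 2) ≤ 2 ^ (2 * m + 6) := by
      intro q hq
      refine (l1_pow_le _ _).trans ?_
      calc l1 q ^ 2 ≤ (2 ^ m * 8) ^ 2 := Nat.pow_le_pow_left (by omega) 2
        _ = 2 ^ (2 * m + 6) := by ring
    have hmlt : m < 2 ^ m := Nat.lt_two_pow_self
    have hsum : ∀ (k : ℕ) (f : Fin k → MvPolynomial (Idx n l.length ⊕ Fin 2) ℤ), k ≤ m →
        (∀ a, l1 (f a) ≤ 2 ^ (2 * m + 6)) → l1 (∑ a, f a) ≤ 2 ^ m * 2 ^ (2 * m + 6) := by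
      intro k f hk hf
      refine (l1_sum_le _ _).trans ?_
      calc _ ≤ ∑ _a : Fin k, 2 ^ (2 * m + 6) := Finset.sum_le_sum fun a _ => hf a
        _ = k * 2 ^ (2 * m + 6) := by simp
        _ ≤ _ := Nat.mul_le_mul_right _ (by omega)
    unfold sysF
    have b1 := hsum _ (fun a : Fin l.length => e1 (s a) (toMv (vx n l.length 1) (l.get a))
      (X (Sum.inl (Sum.inr (0, a)))) ^ 2) hl fun a => hsq _ ((l1_e1 _ _ _).trans (by
        have := (hp 1 a).1; omega))
    have b2 := hsum _ (fun a : Fin l.length => e2 (t a) (toMv (vx n l.length 0) (l.get a))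
      (X (Sum.inl (Sum.inr (1, a)))) (X (Sum.inr 1)) ^ 2) hl fun a => hsq _ ((l1_e2 _ _ _ _).trans (by
        have := (hp 0 a).1; omega))
    have b3 := hsum _ (fun i : Fin n => e3 (X (Sum.inl (Sum.inl (0, i)))) (X (Sum.inl (Sum.inl (1, i))))
      (X (Sum.inl (Sum.inl (2, i)))) (X (Sum.inr 0)) ^ 2) hn fun i => hsq _ ((l1_e3 _ _ _ _).trans (by
        omega))
    have b4 := hsum _ (fun i : Fin n => e4 (X (Sum.inl (Sum.inl (0, i))))
      (X (Sum.inl (Sum.inl (3, i)))) (X (Sum.inr 1)) ^ 2) hn fun i => hsq _ ((l1_e4 _ _ _).trans (by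
        omega))
    have h10 : 2 ^ (3 * m + 8) = 4 * (2 ^ m * 2 ^ (2 * m + 6)) := by ring
    rw [h10]
    refine (l1_add_le _ _).trans ?_
    have c1 := l1_add_le
      ((∑ a : Fin l.length, e1 (s a) (toMv (vx n l.length 1) (l.get a)) (X (Sum.inl (Sum.inr (0, a)))) ^ 2) +
        (∑ a : Fin l.length, e2 (t a) (toMv (vx n l.length 0) (l.get a)) (X (Sum.inl (Sum.inr (1, a))))
          (X (Sum.inr 1)) ^ 2))
      (∑ i : Fin n, e3 (X (Sum.inl (Sum.inl (0, i)))) (X (Sum.inl (Sum.inl (1, i))))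
        (X (Sum.inl (Sum.inl (2, i)))) (X (Sum.inr 0)) ^ 2)
    have c2 := l1_add_le
      (∑ a : Fin l.length, e1 (s a) (toMv (vx n l.length 1) (l.get a)) (X (Sum.inl (Sum.inr (0, a)))) ^ 2)
      (∑ a : Fin l.length, e2 (t a) (toMv (vx n l.length 0) (l.get a)) (X (Sum.inl (Sum.inr (1, a))))
          (X (Sum.inr 1)) ^ 2)
    omega

end Pool.Agent.H90.Closed
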