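import Pool.Agent.H90.Closed.Basic
import Pool.Agent.H90.Closed.L1

set_option autoImplicit false
set_option linter.unusedSectionVars false

namespace Pool.Agent.H90.Closed

open MvPolynomial

/-- The polynomials occurring in the atoms. -/
def Fml.atoms : Fml → List Poly
  | .eq p => [p]
  | .gt p => [p]
  | .ge p => [p]
  | .not φ => φ.atoms
  | .and φ ψ => φ.atoms ++ ψ.atoms
  | .or φ ψ => φ.atoms ++ ψ.atoms

theorem Fml.holds_congr (φ : Fml) (v w : ℕ → ℝ)
    (h : ∀ p ∈ φ.atoms, SignType.sign (polyVal p v) = SignType.sign (polyVal p w)) :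
    φ.Holds v ↔ φ.Holds w := by
  induction φ with
  | eq p =>
    have := h p (by simp [Fml.atoms])
    simp only [Fml.Holds]
    rw [← sign_eq_zero_iff (a := polyVal p v), ← sign_eq_zero_iff (a := polyVal p w), this]
  | gt p =>
    have := h p (by simp [Fml.atoms])
    simp only [Fml.Holds, gt_iff_lt]
    rw [← sign_eq_one_iff (a := polyVal p v), ← sign_eq_one_iff (a := polyVal p w), this]
  | ge p =>
    have := h p (by simp [Fml.atoms])
    simp only [Fml.Holds, ge_iff_le]
    rw [← sign_nonneg_iff (a := polyVal p v), ← sign_nonneg_iff (a := polyVal p w), this]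
  | not φ ih => exact not_congr (ih h)
  | and φ ψ ih1 ih2 =>
    exact and_congr (ih1 fun p hp => h p (by simp [Fml.atoms, hp]))
      (ih2 fun p hp => h p (by simp [Fml.atoms, hp]))
  | or φ ψ ih1 ih2 =>
    exact or_congr (ih1 fun p hp => h p (by simp [Fml.atoms, hp]))
      (ih2 fun p hp => h p (by simp [Fml.atoms, hp]))

variable {σ : Type}

/-- Conversion of a polynomial, with a polynomial substituted for each variable. -/
noncomputable def toMv (w : ℕ → MvPolynomial σ ℤ) (p : Poly) : MvPolynomial σ ℤ :=
  (p.map fun m => C m.1 * (m.2.map fun f => w f.1 ^ f.2).prod).sum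

theorem aeval_toMv (w : ℕ → MvPolynomial σ ℤ) (p : Poly) (v : σ → ℝ) :
    aeval v (toMv w p) = polyVal p (fun i => aeval v (w i)) := by
  unfold toMv polyVal
  rw [map_list_sum, List.map_map]
  congr 1
  refine List.map_congr_left fun m _ => ?_
  simp only [Function.comp, map_mul, monoVal]
  congr 1
  · simp
  rw [map_list_prod, List.map_map]
  congr 1
  refine List.map_congr_left fun f _ => ?_
  simp

/-- The sum of the absolute values of the coefficients. -/
def polyNorm (p : Poly) : ℕ := (p.map fun m => m.1.natAbs).sum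

/-- A bound for the degree of a monomial. -/
def monoDeg (m : Mono) : ℕ := (m.2.map fun f => f.2).sum

theorem l1_list_prod_le_one (l : List (MvPolynomial σ ℤ)) (h : ∀ q ∈ l, l1 q ≤ 1) :
    l1 l.prod ≤ 1 := by
  induction l with
  | nil => simpa using l1_one_le
  | cons a l ih =>
    rw [List.prod_cons]
    refine (l1_mul_le _ _).trans ?_
    have h1 := h a (by simp)
    have h2 := ih fun q hq => h q (by simp [hq])
    calc l1 a * l1 l.prod ≤ 1 * 1 := Nat.mul_le_mul h1 h2
      _ = 1 := rfl

theorem l1_toMv_le (w : ℕ → MvPolynomial σ ℤ) (hw : ∀ i, l1 (w i) ≤ 1) (p : Poly) :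
    l1 (toMv w p) ≤ polyNorm p := by
  induction p with
  | nil => simp [toMv]
  | cons m p ih =>
    have h1 : toMv w (m :: p) = C m.1 * (m.2.map fun f => w f.1 ^ f.2).prod + toMv w p := by
      simp [toMv]
    have h2 : polyNorm (m :: p) = m.1.natAbs + polyNorm p := by simp [polyNorm]
    rw [h1, h2]
    refine (l1_add_le _ _).trans (Nat.add_le_add ?_ ih)
    refine (l1_mul_le _ _).trans ?_
    calc _ ≤ m.1.natAbs * 1 := by
          refine Nat.mul_le_mul (l1_C_le _) (l1_list_prod_le_one _ ?_)
          intro q hq
          rw [List.mem_map] at hq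
          obtain ⟨f, _, rfl⟩ := hq
          refine (l1_pow_le _ _).trans ?_
          exact pow_le_one₀ (Nat.zero_le _) (hw f.1)
      _ = _ := mul_one _

theorem totalDegree_toMv_le (w : ℕ → MvPolynomial σ ℤ) (hw : ∀ i, (w i).totalDegree ≤ 1) (p : Poly)
    (d : ℕ) (hd : ∀ m ∈ p, monoDeg m ≤ d) : (toMv w p).totalDegree ≤ d := by
  induction p with
  | nil => simp [toMv]
  | cons m p ih =>
    have h1 : toMv w (m :: p) = C m.1 * (m.2.map fun f => w f.1 ^ f.2).prod + toMv w p := by
      simp [toMv]
    rw [h1]
    refine (totalDegree_add _ _).trans (max_le ?_ (ih fun m hm => hd m (by simp [hm])))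
    refine (totalDegree_mul _ _).trans ?_
    rw [totalDegree_C, zero_add]
    refine (totalDegree_list_prod _).trans ?_
    refine le_trans ?_ (hd m (by simp))
    unfold monoDeg
    rw [List.map_map]
    refine List.sum_le_sum fun f _ => ?_
    simp only [Function.comp]
    refine (totalDegree_pow _ _).trans ?_
    calc f.2 * (w f.1).totalDegree ≤ f.2 * 1 := Nat.mul_le_mul_left _ (hw f.1)
      _ = _ := mul_one _

/-! ### Bounds in terms of the encoding length -/

theorem length_encNat (k : ℕ) : (encNat k).length = k.size := by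
  unfold encNat
  rw [List.length_map, Nat.size_eq_bits_len]

theorem lt_two_pow_encNat (k : ℕ) : k < 2 ^ (encNat k).length := by
  rw [length_encNat]; exact Nat.lt_size_self k

theorem length_encMono_pos (m : Mono) : 1 ≤ (encMono m).length := by
  simp [encMono]

theorem natAbs_lt_encMono (m : Mono) : m.1.natAbs < 2 ^ ((encMono m).length - 1) := by
  have h1 := lt_two_pow_encNat m.1.natAbs
  refine lt_of_lt_of_le h1 (Nat.pow_le_pow_right (by norm_num) ?_)
  simp [encMono]

theorem monoDeg_aux (l : List (ℕ × ℕ)) : (l.map fun f => f.2).sum + 1 ≤ 2 ^ (l.flatMap encFactor).length := by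
  induction l with
  | nil => simp
  | cons f l ih =>
    rw [List.map_cons, List.sum_cons, List.flatMap_cons, List.length_append, pow_add]
    have h1 : f.2 + 1 ≤ 2 ^ (encFactor f).length := by
      refine (lt_two_pow_encNat f.2).trans_le (Nat.pow_le_pow_right (by norm_num) ?_)
      simp [encFactor]
      omega
    nlinarith [Nat.zero_le (f.2), Nat.zero_le ((l.map fun f => f.2).sum)]

theorem monoDeg_le (m : Mono) : monoDeg m + 1 ≤ 2 ^ (encMono m).length := by
  refine (monoDeg_aux m.2).trans (Nat.pow_le_pow_right (by norm_num) ?_)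
  simp [encMono]
  omega

theorem polyNorm_lt (p : Poly) : polyNorm p < 2 ^ (encPoly p).length := by
  have h : polyNorm p < 2 ^ (p.flatMap encMono).length := by
    induction p with
    | nil => simp [polyNorm]
    | cons m p ih =>
      have h2 : polyNorm (m :: p) = m.1.natAbs + polyNorm p := by simp [polyNorm]
      rw [h2, List.flatMap_cons, List.length_append, pow_add]
      have h3 := natAbs_lt_encMono m
      have h4 := length_encMono_pos m
      obtain ⟨c, hc⟩ : ∃ c, (encMono m).length = c + 1 := ⟨(encMono m).length - 1, by omega⟩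
      rw [hc] at h3 ⊢
      simp only [Nat.add_sub_cancel] at h3
      have h5 : 1 ≤ 2 ^ c := Nat.one_le_two_pow
      have h6 : 1 ≤ 2 ^ (List.flatMap encMono p).length := Nat.one_le_two_pow
      rw [pow_succ]
      nlinarith
  refine h.trans_le (Nat.pow_le_pow_right (by norm_num) ?_)
  simp [encPoly]

theorem monoDeg_le_of_mem (p : Poly) (m : Mono) (hm : m ∈ p) :
    monoDeg m ≤ 2 ^ (encPoly p).length := by
  have h := monoDeg_le m
  have h2 : (encMono m).length ≤ (encPoly p).length := by
    have h3 : encMono m ∈ p.map encMono := List.mem_map_of_mem hm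
    have h4 : (encMono m).length ≤ ((p.map encMono).map List.length).sum :=
      List.le_sum_of_mem (List.mem_map_of_mem h3)
    unfold encPoly
    rw [List.length_append, List.length_flatMap]
    rw [List.map_map] at h4
    have h5 : (List.length ∘ encMono) = fun a => (encMono a).length := rfl
    rw [h5] at h4
    omega
  have h6 : 2 ^ (encMono m).length ≤ 2 ^ (encPoly p).length := Nat.pow_le_pow_right (by norm_num) h2
  omega

theorem length_atoms_le (φ : Fml) : φ.atoms.length ≤ φ.enc.length := by
  induction φ with
  | eq p => simp [Fml.atoms, Fml.enc]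
  | gt p => simp [Fml.atoms, Fml.enc]
  | ge p => simp [Fml.atoms, Fml.enc]
  | not φ ih => simp [Fml.atoms, Fml.enc]; omega
  | and φ ψ ih1 ih2 => simp [Fml.atoms, Fml.enc]; omega
  | or φ ψ ih1 ih2 => simp [Fml.atoms, Fml.enc]; omega

theorem length_encPoly_le (φ : Fml) (p : Poly) (hp : p ∈ φ.atoms) :
    (encPoly p).length ≤ φ.enc.length := by
  induction φ with
  | eq q => simp only [Fml.atoms, List.mem_singleton] at hp; subst hp; simp [Fml.enc]
  | gt q => simp only [Fml.atoms, List.mem_singleton] at hp; subst hp; simp [Fml.enc]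
  | ge q => simp only [Fml.atoms, List.mem_singleton] at hp; subst hp; simp [Fml.enc]
  | not φ ih => have := ih hp; simp [Fml.enc]; omega
  | and φ ψ ih1 ih2 =>
    simp only [Fml.atoms, List.mem_append] at hp
    rcases hp with hp | hp
    · have := ih1 hp; simp [Fml.enc]; omega
    · have := ih2 hp; simp [Fml.enc]; omega
  | or φ ψ ih1 ih2 =>
    simp only [Fml.atoms, List.mem_append] at hp
    rcases hp with hp | hp
    · have := ih1 hp; simp [Fml.enc]; omega
    · have := ih2 hp; simp [Fml.enc]; omega

end Pool.Agent.H90.Closed
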