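import Pool.Agent.H90.Closed.Loops

set_option autoImplicit false

namespace Pool.Agent.H90.Closed

def isTvar : Option Tok → Bool
  | some .tvar => true
  | _ => false

def isOne : Option Tok → Bool
  | some .one => true
  | _ => false

def isBit : Option Tok → Bool
  | some .b0 => true
  | some .b1 => true
  | _ => false

def isB1 : Option Tok → Bool
  | some .b1 => true
  | _ => false

/-- No operation (when the stack `out` is empty). -/
def nop : Cmd := .drop .out

theorem run_nop (s : Sx) (h : s.out = []) : Run nop s s 1 := by
  refine (Run.drop .out s).cast ?_ le_rfl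
  apply Sx.ext <;> simp [Sx.get, Sx.set, h]

/-- Emit the variable with index `4 (i + L j) + c`. -/
def emitIJ (c : ℕ) : Cmd :=
  .seq (emitL .tvar (ones c)) (.seq (copy1 .ii) (.seq (copy1 .jj) (emitL .b1 [])))

theorem emits_IJ (c i j L : ℕ) (s : Sx) (h1 : s.ii = ones (4 * i)) (h2 : s.jj = ones (4 * (L * j)))
    (h3 : s.tmp = []) :
    Emits (emitIJ c) s (encFactor (4 * (i + L * j) + c, 1)) (20 * (i + L * j) + c + 6) := by
  have a1 := emits_emitL .tvar (ones c) s
  have a2 := emits_copy1 .ii (by decide) (by decide) (4 * i)
    { s with acc := (Tok.tvar :: ones c).reverse ++ s.acc } h1 h3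
  have a3 := emits_copy1 .jj (by decide) (by decide) (4 * (L * j))
    { s with acc := (ones (4 * i)).reverse ++ ((Tok.tvar :: ones c).reverse ++ s.acc) } h2 h3
  have a4 := emits_emitL .b1 []
    { s with acc := (ones (4 * (L * j))).reverse ++ ((ones (4 * i)).reverse ++ ((Tok.tvar :: ones c).reverse ++ s.acc)) }
  have a5 := Emits.seq a1 (Emits.seq a2 (Emits.seq a3 a4))
  have e : (Tok.tvar :: ones c) ++ (ones (4 * i) ++ (ones (4 * (L * j)) ++ [Tok.b1])) =
      encFactor (4 * (i + L * j) + c, 1) := by
    simp only [encFactor_one, List.cons_append, ← List.append_assoc, ← List.replicate_add]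
    congr 3
    ring
  rw [e] at a5
  refine a5.mono ?_
  simp only [List.length_replicate, List.length_nil]
  ring_nf
  omega

/-- Add `4 L` ones to the stack `jj`. -/
def incJ : Cmd :=
  .seq (.loop .ell Option.isSome (.seq (.move .ell .tmp) (push4 .jj))) (moveAll .tmp .ell)

theorem run_incJ_aux (X : List Tok) : ∀ (s : Sx) (a : ℕ), s.ell = X → s.jj = ones a →
    Run (.loop .ell Option.isSome (.seq (.move .ell .tmp) (push4 .jj))) s
      { s with ell := [], tmp := X.reverse ++ s.tmp, jj := ones (4 * X.length + a) }
      (6 * X.length + 1) := by
  induction X with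
  | nil =>
    intro s a h1 h2
    refine (Run.loop_done (k := .ell) (by simp [Sx.get, h1])).cast ?_ (by simp)
    apply Sx.ext <;> simp_all
  | cons t X ih =>
    intro s a h1 h2
    have a1 : Run (.move .ell .tmp) s { s with ell := X, tmp := t :: s.tmp } 1 := by
      refine (Run.move .ell .tmp s).cast ?_ le_rfl
      simp only [doMove, Sx.get, h1]
      rfl
    have a2 : Run (push4 .jj) { s with ell := X, tmp := t :: s.tmp }
        { s with ell := X, tmp := t :: s.tmp, jj := ones (4 + a) } 4 := by
      refine (run_push4 .jj _).cast ?_ le_rfl
      apply Sx.ext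
      case jj => simp only [Sx.get, Sx.set, h2]; rw [← List.replicate_add]
      all_goals simp [Sx.get, Sx.set]
    have a3 := ih { s with ell := X, tmp := t :: s.tmp, jj := ones (4 + a) } (4 + a) rfl rfl
    refine (Run.loop_step (k := .ell) (by simp [Sx.get, h1]) (Run.seq a1 a2) a3).cast ?_ ?_
    · have e2 : 4 * X.length + (4 + a) = 4 * (t :: X).length + a := by
        simp only [List.length_cons]; ring
      rw [e2]
      apply Sx.ext <;> simp
    · simp only [List.length_cons]
      omega

theorem run_incJ (L a : ℕ) (s : Sx) (h1 : s.ell = ones L) (h2 : s.jj = ones a) (h3 : s.tmp = []) :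
    Run incJ s { s with jj := ones (4 * L + a) } (8 * L + 2) := by
  have a1 := run_incJ_aux (ones L) s a h1 h2
  simp only [List.length_replicate, List.reverse_replicate, h3, List.append_nil] at a1
  have a2 := run_moveAll_aux .tmp .ell (by decide) (ones L)
    { s with ell := [], tmp := ones L, jj := ones (4 * L + a) } rfl
  refine (Run.seq a1 a2).cast ?_ ?_
  · apply Sx.ext <;> simp [Sx.get, Sx.set, h1, h3]
  · simp only [List.length_replicate]
    omega

/-- The loop over the binary digits of an exponent. -/
def bitsLoop (c : ℕ) : Cmd :=
  .loop .inp isBit (.seq (.ite .inp isB1 (emitIJ c) nop) (.seq (.move .inp .save) incJ))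

def encBits (bs : List Bool) : List Tok := bs.map fun b => if b then Tok.b1 else Tok.b0

theorem run_bitsLoop (c i L J : ℕ) (bs : List Bool) : ∀ (s : Sx) (j : ℕ) (rest : List Tok),
    j + bs.length ≤ J → s.inp = encBits bs ++ rest → isBit rest.head? = false →
    s.ii = ones (4 * i) → s.jj = ones (4 * (L * j)) → s.ell = ones L → s.tmp = [] → s.out = [] →
    Run (bitsLoop c) s
      { s with
          inp := rest,
          save := (encBits bs).reverse ++ s.save,
          jj := ones (4 * (L * (j + bs.length))),
          acc := ((trBits L c i bs j).flatMap encFactor).reverse ++ s.acc }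
      ((20 * (i + L * J) + 8 * L + c + 12) * bs.length + 1) := by
  induction bs with
  | nil =>
    intro s j rest _ h1 h2 h3 h4 h5 h6 h7
    refine (Run.loop_done (k := .inp) (by simp [Sx.get, h1, encBits, h2])).cast ?_ (by simp)
    apply Sx.ext <;> simp_all [encBits, trBits]
  | cons b bs ih =>
    intro s j rest hj h1 h2 h3 h4 h5 h6 h7
    simp only [List.length_cons] at hj
    have hcost : 20 * (i + L * j) + c + 6 ≤ 20 * (i + L * J) + c + 6 := by
      have : L * j ≤ L * J := Nat.mul_le_mul_left _ (by omega)
      omega
    have hinp : s.inp = (if b then Tok.b1 else Tok.b0) :: (encBits bs ++ rest) := by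
      rw [h1]; rfl
    have a1 : Run (.ite .inp isB1 (emitIJ c) nop) s
        { s with acc := ((if b then [(4 * (i + L * j) + c, 1)] else []).flatMap encFactor).reverse
                    ++ s.acc } (20 * (i + L * J) + c + 7) := by
      cases b with
      | true =>
        refine (Run.ite_true (by simp [Sx.get, hinp, isB1])
          ((emits_IJ c i j L s h3 h4 h6).mono hcost)).cast ?_ (by omega)
        apply Sx.ext <;> simp
      | false =>
        refine (Run.ite_false (by simp [Sx.get, hinp, isB1]) (run_nop s h7)).cast ?_ (by omega)
        apply Sx.ext <;> simp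
    set A := ((if b then [(4 * (i + L * j) + c, 1)] else []).flatMap encFactor).reverse
                    ++ s.acc with hA
    have a2 : Run (.move .inp .save) { s with acc := A }
        { s with
            acc := A,
            inp := encBits bs ++ rest,
            save := (if b then Tok.b1 else Tok.b0) :: s.save } 1 := by
      refine (Run.move .inp .save _).cast ?_ le_rfl
      simp only [doMove, Sx.get, hinp]
      rfl
    have a3 := run_incJ L (4 * (L * j)) { s with
            acc := A,
            inp := encBits bs ++ rest,
            save := (if b then Tok.b1 else Tok.b0) :: s.save } h5 h4 h6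
    have e3 : 4 * L + 4 * (L * j) = 4 * (L * (j + 1)) := by ring
    rw [e3] at a3
    have a4 := ih { s with
            acc := A,
            inp := encBits bs ++ rest,
            save := (if b then Tok.b1 else Tok.b0) :: s.save,
            jj := ones (4 * (L * (j + 1))) } (j + 1) rest (by omega) rfl h2 h3 rfl h5 h6 h7
    refine (Run.loop_step (k := .inp) ?_ (Run.seq a1 (Run.seq a2 a3)) a4).cast ?_ ?_
    · cases b <;> simp [Sx.get, hinp, isBit]
    · have e4 : 4 * (L * (j + 1 + bs.length)) = 4 * (L * (j + (b :: bs).length)) := by
        simp only [List.length_cons]; ring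
      rw [e4]
      apply Sx.ext
      case acc =>
        simp only [hA]
        rw [trBits, List.flatMap_append, List.reverse_append, List.append_assoc]
      case save =>
        simp [encBits]
      all_goals simp
    · simp only [List.length_cons]
      ring_nf
      omega

/-- The loop over the unary digits of an index. -/
def onesLoop : Cmd := .loop .inp isOne (.seq (.move .inp .save) (push4 .ii))

theorem run_onesLoop (n : ℕ) : ∀ (s : Sx) (a : ℕ) (rest : List Tok), s.inp = ones n ++ rest →
    isOne rest.head? = false → s.ii = ones a →
    Run onesLoop s { s with inp := rest, save := (ones n).reverse ++ s.save, ii := ones (4 * n + a) }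
      (6 * n + 1) := by
  induction n with
  | zero =>
    intro s a rest h1 h2 h3
    refine (Run.loop_done (k := .inp) (by simp [Sx.get, h1, h2])).cast ?_ (by simp)
    apply Sx.ext <;> simp_all
  | succ n ih =>
    intro s a rest h1 h2 h3
    have hinp : s.inp = Tok.one :: (ones n ++ rest) := by
      rw [h1]; simp [List.replicate_succ]
    have a1 : Run (.move .inp .save) s
        { s with inp := ones n ++ rest, save := Tok.one :: s.save } 1 := by
      refine (Run.move .inp .save s).cast ?_ le_rfl
      simp only [doMove, Sx.get, hinp]
      rfl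
    have a2 : Run (push4 .ii) { s with inp := ones n ++ rest, save := Tok.one :: s.save }
        { s with inp := ones n ++ rest, save := Tok.one :: s.save, ii := ones (4 + a) } 4 := by
      refine (run_push4 .ii _).cast ?_ le_rfl
      apply Sx.ext
      case ii => simp only [Sx.get, Sx.set, h3]; rw [← List.replicate_add]
      all_goals simp [Sx.get, Sx.set]
    have a3 := ih { s with inp := ones n ++ rest, save := Tok.one :: s.save, ii := ones (4 + a) }
      (4 + a) rest rfl h2 rfl
    refine (Run.loop_step (k := .inp) (by simp [Sx.get, hinp, isOne]) (Run.seq a1 a2) a3).cast ?_ ?_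
    · have e2 : 4 * n + (4 + a) = 4 * (n + 1) + a := by ring
      rw [e2]
      apply Sx.ext
      case save =>
        simp only [List.reverse_replicate]
        rw [List.replicate_succ']
        simp
      all_goals simp
    · omega

/-- Translation of a factor. -/
def factorProg (c : ℕ) : Cmd :=
  .seq (.move .inp .save) (.seq onesLoop (.seq (bitsLoop c) (.seq (clearStk .ii) (clearStk .jj))))

def headOK (l : List Tok) : Prop := isOne l.head? = false ∧ isBit l.head? = false

/-- A cost bound. -/
def facCost (Q : ℕ) : ℕ := 100 * (Q + 1) ^ 3

theorem isOne_bits (bs : List Bool) (rest : List Tok) (h : isOne rest.head? = false) :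
    isOne (encBits bs ++ rest).head? = false := by
  cases bs with
  | nil => simpa [encBits] using h
  | cons b bs => cases b <;> simp [encBits, isOne]

theorem run_factor (c L Q : ℕ) (hc : c ≤ 3) (f : ℕ × ℕ) (s : Sx) (rest : List Tok)
    (h1 : s.inp = encFactor f ++ rest) (h2 : headOK rest) (h3 : s.ii = []) (h4 : s.jj = [])
    (h5 : s.ell = ones L) (h6 : s.tmp = []) (h7 : s.out = []) (hQ : (encFactor f).length ≤ Q)
    (hL : L ≤ Q) :
    Run (factorProg c) s
      { s with
          inp := rest,
          save := (encFactor f).reverse ++ s.save,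
          acc := ((trFactor L c f).flatMap encFactor).reverse ++ s.acc } (facCost Q) := by
  have hinp : s.inp = Tok.tvar :: (ones f.1 ++ (encBits (Nat.bits f.2) ++ rest)) := by
    rw [h1]
    simp [encFactor, encNat, encBits]
  have hlen : f.1 + (Nat.bits f.2).length + 1 ≤ Q := by
    refine le_trans (le_of_eq ?_) hQ
    simp [encFactor, encNat]
  have a1 : Run (.move .inp .save) s
      { s with
          inp := ones f.1 ++ (encBits (Nat.bits f.2) ++ rest),
          save := Tok.tvar :: s.save } 1 := by
    refine (Run.move .inp .save s).cast ?_ le_rfl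
    simp only [doMove, Sx.get, hinp]
    rfl
  have a2 := run_onesLoop f.1 { s with
          inp := ones f.1 ++ (encBits (Nat.bits f.2) ++ rest),
          save := Tok.tvar :: s.save } 0 (encBits (Nat.bits f.2) ++ rest) rfl
          (isOne_bits _ _ h2.1) (by simpa using h3)
  simp only [add_zero] at a2
  have a3 := run_bitsLoop c f.1 L (Nat.bits f.2).length (Nat.bits f.2) { s with
          inp := encBits (Nat.bits f.2) ++ rest,
          save := (ones f.1).reverse ++ (Tok.tvar :: s.save),
          ii := ones (4 * f.1) } 0 rest (by omega) rfl h2.2 rfl (by simpa using h4) h5 h6 h7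
  simp only [Nat.zero_add] at a3
  have a4 := run_clear .ii (ones (4 * f.1)) { s with
          inp := rest,
          save := (encBits (Nat.bits f.2)).reverse ++ ((ones f.1).reverse ++ (Tok.tvar :: s.save)),
          ii := ones (4 * f.1),
          jj := ones (4 * (L * (Nat.bits f.2).length)),
          acc := ((trBits L c f.1 (Nat.bits f.2) 0).flatMap encFactor).reverse ++ s.acc } rfl
  have a5 := run_clear .jj (ones (4 * (L * (Nat.bits f.2).length))) { s with
          inp := rest,
          save := (encBits (Nat.bits f.2)).reverse ++ ((ones f.1).reverse ++ (Tok.tvar :: s.save)),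
          ii := [],
          jj := ones (4 * (L * (Nat.bits f.2).length)),
          acc := ((trBits L c f.1 (Nat.bits f.2) 0).flatMap encFactor).reverse ++ s.acc } rfl
  refine (Run.seq a1 (Run.seq a2 (Run.seq a3 (Run.seq a4 a5)))).cast ?_ ?_
  · apply Sx.ext
    case save => simp [Sx.set, encFactor, encNat, encBits]
    case acc => simp [Sx.set, trFactor]
    all_goals simp [Sx.set, h3, h4]
  · simp only [List.length_replicate]
    set b := (Nat.bits f.2).length with hb
    unfold facCost
    have hi : f.1 ≤ Q := by omega
    have hb' : b ≤ Q := by omega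
    have e1 : L * b ≤ Q * Q := Nat.mul_le_mul hL hb'
    have e2 : (20 * (f.1 + L * b) + 8 * L + c + 12) * b ≤ (20 * (Q + Q * Q) + 8 * Q + 3 + 12) * Q := by
      refine Nat.mul_le_mul ?_ hb'
      omega
    have e3 : (20 * (Q + Q * Q) + 8 * Q + 3 + 12) * Q = 20 * Q ^ 3 + 28 * Q ^ 2 + 15 * Q := by ring
    have e4 : 100 * (Q + 1) ^ 3 = 100 * Q ^ 3 + 300 * Q ^ 2 + 300 * Q + 100 := by ring
    have e5 : Q * Q = Q ^ 2 := by ring
    rw [e4]
    rw [e3] at e2
    rw [e5] at e1
    omega

/-! ### Items -/

/-- A plain token or a factor. -/
abbrev Item : Type := Tok ⊕ (ℕ × ℕ)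

def encItem : Item → List Tok
  | .inl t => [t]
  | .inr f => encFactor f

def trItem (L c : ℕ) : Item → List Tok
  | .inl t => [t]
  | .inr f => (trFactor L c f).flatMap encFactor

def Good (p : Option Tok → Bool) : List Item → List Tok → Prop
  | [], rest => p rest.head? = false
  | .inl t :: is, rest => t ≠ .tvar ∧ p (some t) = true ∧ Good p is rest
  | .inr _ :: is, rest => headOK (is.flatMap encItem ++ rest) ∧ Good p is rest

/-- One step of the translation. -/
def trBody (c : ℕ) : Cmd :=
  .ite .inp isTvar (factorProg c) (.seq (.copyTop .inp .acc) (.move .inp .save))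

def trLoop (c : ℕ) (p : Option Tok → Bool) : Cmd := .loop .inp p (trBody c)

theorem run_trLoop (c L Q : ℕ) (hc : c ≤ 3) (hL : L ≤ Q) (p : Option Tok → Bool)
    (hp : p (some .tvar) = true) (is : List Item) : ∀ (s : Sx) (rest : List Tok),
    Good p is rest → (∀ f, Sum.inr f ∈ is → (encFactor f).length ≤ Q) →
    s.inp = is.flatMap encItem ++ rest → s.ii = [] → s.jj = [] → s.ell = ones L → s.tmp = [] →
    s.out = [] →
    Run (trLoop c p) s
      { s with
          inp := rest,
          save := (is.flatMap encItem).reverse ++ s.save,
          acc := (is.flatMap (trItem L c)).reverse ++ s.acc } ((facCost Q + 2) * is.length + 1) := by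
  induction is with
  | nil =>
    intro s rest hg _ h1 h2 h3 h4 h5 h6
    have hg' : p rest.head? = false := hg
    refine (Run.loop_done (k := .inp) (by simpa [Sx.get, h1] using hg')).cast ?_ (by simp)
    apply Sx.ext <;> simp_all
  | cons it is ih =>
    intro s rest hg hf h1 h2 h3 h4 h5 h6
    have h100 : 100 ≤ facCost Q := by
      unfold facCost
      have : 1 ≤ (Q + 1) ^ 3 := Nat.one_le_pow _ _ (by omega)
      omega
    cases it with
    | inl t =>
      obtain ⟨g1, g2, g3⟩ := hg
      have hinp : s.inp = t :: (is.flatMap encItem ++ rest) := by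
        rw [h1]; rfl
      have a1 : Run (.copyTop .inp .acc) s { s with acc := t :: s.acc } 1 := by
        refine (Run.copyTop .inp .acc s).cast ?_ le_rfl
        simp only [doCopy, Sx.get]
        rw [hinp]
        apply Sx.ext <;> simp [Sx.set, hinp]
      have a2 : Run (.move .inp .save) { s with acc := t :: s.acc }
          { s with acc := t :: s.acc, inp := is.flatMap encItem ++ rest, save := t :: s.save } 1 := by
        refine (Run.move .inp .save _).cast ?_ le_rfl
        simp only [doMove, Sx.get, hinp]
        rfl
      have a3 : Run (trBody c) s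
          { s with acc := t :: s.acc, inp := is.flatMap encItem ++ rest, save := t :: s.save } 3 := by
        refine (Run.ite_false ?_ (Run.seq a1 a2)).cast rfl (by omega)
        simp only [Sx.get, hinp, List.head?_cons]
        cases t <;> first | rfl | exact absurd rfl g1
      have a4 := ih { s with acc := t :: s.acc, inp := is.flatMap encItem ++ rest, save := t :: s.save }
        rest g3 (fun f hf' => hf f (by simp [hf'])) rfl h2 h3 h4 h5 h6
      refine (Run.loop_step (k := .inp) (by simp [Sx.get, hinp, g2]) a3 a4).cast ?_ ?_
      · apply Sx.ext <;> simp [encItem, trItem]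
      · simp only [List.length_cons]
        ring_nf
        omega
    | inr f =>
      obtain ⟨g1, g2⟩ := hg
      have hinp : s.inp = encFactor f ++ (is.flatMap encItem ++ rest) := by
        rw [h1]; simp [encItem]
      have hinp2 : s.inp.head? = some .tvar := by
        rw [hinp]; rfl
      have a1 := run_factor c L Q hc f s (is.flatMap encItem ++ rest) hinp g1 h2 h3 h4 h5 h6
        (hf f (by simp)) hL
      have a2 : Run (trBody c) s _ (facCost Q + 1) := Run.ite_true (by
        simp only [Sx.get, hinp2]; rfl) a1
      have a3 := ih { s with
          inp := is.flatMap encItem ++ rest,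
          save := (encFactor f).reverse ++ s.save,
          acc := ((trFactor L c f).flatMap encFactor).reverse ++ s.acc }
        rest g2 (fun f hf' => hf f (by simp [hf'])) rfl h2 h3 h4 h5 h6
      refine (Run.loop_step (k := .inp) (by simp only [Sx.get, hinp2, hp]) a2 a3).cast ?_ ?_
      · apply Sx.ext <;> simp [encItem, trItem]
      · simp only [List.length_cons]
        ring_nf
        omega

end Pool.Agent.H90.Closed
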